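import Pool.Agent.W_c81d44_h82.Colour

set_option autoImplicit false

namespace Pool.Agent.W_c81d44_h82

variable {V : Type} [DecidableEq V]

/-- degrees for an edge set given by two end functions -/
def Circ1_D (f g : ℕ → V) (C : Finset ℕ) (v : V) : ℕ :=
  ∑ i ∈ C, ((if f i = v then 1 else 0) + (if g i = v then 1 else 0))

theorem Circ1_pt_a {a b : V} (hab : a ≠ b) (x : V) :
    (if (if x = b then a else x) = a then 1 else 0) =
      (if x = a then 1 else 0) + (if x = b then 1 else (0 : ℕ)) := by
  by_cases hxb : x = b
  · subst hxb
    simp [Ne.symm hab]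
  · simp [hxb]

theorem Circ1_pt_v {a b v : V} (hva : v ≠ a) (hvb : v ≠ b) (x : V) :
    (if (if x = b then a else x) = v then 1 else 0) = (if x = v then 1 else (0 : ℕ)) := by
  by_cases hxb : x = b
  · subst hxb
    simp [Ne.symm hva, Ne.symm hvb]
  · simp [hxb]

theorem Circ1_pt_b {a b : V} (hab : a ≠ b) (x : V) :
    (if (if x = b then a else x) = b then 1 else 0) = (0 : ℕ) := by
  by_cases hxb : x = b
  · subst hxb
    simp [hab]
  · simp [hxb]

theorem Circ1_abs (n : ℕ) : ∀ (T : Finset ℕ) (f g : ℕ → V), T.card = n → T.Nonempty →
    (∀ v, Circ1_D f g T v ≠ 1) →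
    ∃ C, C ⊆ T ∧ C.Nonempty ∧ ∀ v, Circ1_D f g C v = 0 ∨ Circ1_D f g C v = 2 := by
  induction n with
  | zero =>
    intro T f g hc hne _
    rw [Finset.card_eq_zero] at hc
    subst hc
    simp at hne
  | succ n ih =>
    intro T f g hc hne h1
    by_cases hloop : ∃ i ∈ T, f i = g i
    · obtain ⟨i, hi, hfg⟩ := hloop
      refine ⟨{i}, by simpa using hi, Finset.singleton_nonempty i, fun v => ?_⟩
      unfold Circ1_D
      rw [Finset.sum_singleton, ← hfg]
      by_cases hv : f i = v
      · right; simp [hv]
      · left; simp [hv]
    · obtain ⟨e, he⟩ := hne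
      have hab : f e ≠ g e := fun h => hloop ⟨e, he, h⟩
      set a := f e with ha
      set b := g e with hb
      set pr : V → V := fun x => if x = b then a else x with hpr
      have hDa : ∀ C : Finset ℕ, Circ1_D (fun i => pr (f i)) (fun i => pr (g i)) C a =
          Circ1_D f g C a + Circ1_D f g C b := by
        intro C
        unfold Circ1_D
        rw [← Finset.sum_add_distrib]
        refine Finset.sum_congr rfl fun i _ => ?_
        rw [hpr]
        simp only [Circ1_pt_a hab]
        ring
      have hDb : ∀ C : Finset ℕ, Circ1_D (fun i => pr (f i)) (fun i => pr (g i)) C b = 0 := by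
        intro C
        unfold Circ1_D
        refine Finset.sum_eq_zero fun i _ => ?_
        rw [hpr]
        simp only [Circ1_pt_b hab, add_zero]
      have hDv : ∀ (C : Finset ℕ) (v : V), v ≠ a → v ≠ b →
          Circ1_D (fun i => pr (f i)) (fun i => pr (g i)) C v = Circ1_D f g C v := by
        intro C v hva hvb
        unfold Circ1_D
        refine Finset.sum_congr rfl fun i _ => ?_
        rw [hpr]
        simp only [Circ1_pt_v hva hvb]
      have hera : ∀ v, Circ1_D f g T v = Circ1_D f g (T.erase e) v +
          ((if a = v then 1 else 0) + (if b = v then 1 else 0)) := by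
        intro v
        unfold Circ1_D
        rw [← Finset.sum_erase_add T _ he]
      have hTa := hera a
      have hTb := hera b
      rw [if_pos rfl, if_neg (Ne.symm hab)] at hTa
      rw [if_neg hab, if_pos rfl] at hTb
      have h1a := h1 a
      have h1b := h1 b
      have hpa : 1 ≤ Circ1_D f g (T.erase e) a := by omega
      have hpb : 1 ≤ Circ1_D f g (T.erase e) b := by omega
      have hne' : (T.erase e).Nonempty := by
        rw [Finset.nonempty_iff_ne_empty]
        intro h0
        rw [h0] at hpa
        simp [Circ1_D] at hpa
      have hcard : (T.erase e).card = n := by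
        rw [Finset.card_erase_of_mem he, hc]
        rfl
      obtain ⟨C, hCT, hCne, hC⟩ := ih (T.erase e) (fun i => pr (f i)) (fun i => pr (g i)) hcard
        hne' (by
          intro v
          by_cases hva : v = a
          · rw [hva, hDa]; omega
          · by_cases hvb : v = b
            · rw [hvb, hDb]; omega
            · rw [hDv _ v hva hvb]
              have h2 := hera v
              rw [if_neg (Ne.symm hva), if_neg (Ne.symm hvb)] at h2
              have h3 := h1 v
              omega)
      have hCT' : C ⊆ T := fun i hi => Finset.mem_of_mem_erase (hCT hi)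
      have hab2 := hC a
      rw [hDa] at hab2
      have hother : ∀ v, v ≠ a → v ≠ b → Circ1_D f g C v = 0 ∨ Circ1_D f g C v = 2 := by
        intro v hva hvb
        have h2 := hC v
        rwa [hDv C v hva hvb] at h2
      by_cases h11 : Circ1_D f g C a = 1
      · have heC : e ∉ C := fun h => (Finset.mem_erase.1 (hCT h)).1 rfl
        have hins : ∀ v, Circ1_D f g (insert e C) v = Circ1_D f g C v +
            ((if a = v then 1 else 0) + (if b = v then 1 else 0)) := by
          intro v
          unfold Circ1_D
          rw [Finset.sum_insert heC, add_comm]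
        refine ⟨insert e C, ?_, Finset.insert_nonempty e C, fun v => ?_⟩
        · intro i hi
          rcases Finset.mem_insert.1 hi with h | h
          · rw [h]; exact he
          · exact hCT' h
        · by_cases hva : v = a
          · right
            rw [hva, hins, if_pos rfl, if_neg (Ne.symm hab)]
            omega
          · by_cases hvb : v = b
            · right
              rw [hvb, hins, if_neg hab, if_pos rfl]
              omega
            · rw [hins, if_neg (Ne.symm hva), if_neg (Ne.symm hvb)]
              have h2 := hother v hva hvb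
              omega
      · refine ⟨C, hCT', hCne, fun v => ?_⟩
        by_cases hva : v = a
        · rw [hva]; omega
        · by_cases hvb : v = b
          · rw [hvb]; omega
          · exact hother v hva hvb

/-- A nonempty finite edge set without vertices of degree one contains a nonempty subset all of
whose degrees are `0` or `2`.

Proof.  Walk through `T`: choose sequences `i : ℕ → ℕ` of edges of `T` and `x : ℕ → V` of vertices
such that the edge `i k` has the ends `x k` and `x (k+1)` (i.e. `G[i k]? = some e` with
`(e.1.1, e.1.2) = (x k, x (k+1))` or `(x (k+1), x k)`), and `i (k+1) ≠ i k` unless `i k` is a loop.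
This is possible: if edge `i k ∈ T` is not a loop and ends in `x (k+1)`, then the degree of
`x (k+1)` in `T` is at least `2` (it is not `0` and not `1`) and the edge `i k` contributes only
`1`, so there is another edge of `T` at `x (k+1)`.  If some edge of `T` is a loop `j`, the set `{j}`
is as wanted (all degrees `0` or `2`), so assume that `T` has no loops.  All `x k` lie in the finite
set of ends of edges of `T`, so there are `p < q` with `x p = x q`; take such a pair with `q - p`
minimal.  Then `q - p ≥ 2` (no loops), `x p, …, x (q-1)` are distinct, and the edges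
`i p, …, i (q-1)` are distinct: if `i k = i l` with `p ≤ k < l < q` then
`{x k, x (k+1)} = {x l, x (l+1)}`, which by the distinctness of the vertices `x p, …, x (q-1)`
(and `x q = x p`) forces `l = k + 1` (or `k = p`, `l = q - 1` and `q - p = 2`, i.e. again
`l = k + 1`), contradicting `i (k+1) ≠ i k`; (in detail: `x k ∈ {x l, x (l+1)}` gives
`x k = x (l+1)`, so `l + 1 = q`, `k = p`, and `x (k+1) = x l` gives `l = k + 1`).  Put
`C = {i k : p ≤ k < q}`.  The degree of `v` in `C` is
`∑_{p ≤ k < q} ([x k = v] + [x (k+1) = v]) = 2 * #{k : p ≤ k < q, x k = v} ∈ {0, 2}`. -/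
theorem exists_two_regular (G : WG V) (T : Finset ℕ) (hT : ∀ i ∈ T, i < G.length)
    (hne : T.Nonempty) (h1 : ∀ v, G.deg T v ≠ 1) :
    ∃ C, C ⊆ T ∧ C.Nonempty ∧ ∀ v, G.deg C v = 0 ∨ G.deg C v = 2 := by
  obtain ⟨i0, hi0⟩ := id hne
  set e0 := G[i0]'(hT i0 hi0) with he0
  have hdeg : ∀ C : Finset ℕ, C ⊆ T → ∀ v, G.deg C v =
      Circ1_D (fun i => (G.getD i e0).1.1) (fun i => (G.getD i e0).1.2) C v := by
    intro C hC v
    unfold WG.deg Circ1_D
    refine Finset.sum_congr rfl fun i hi => ?_
    have hlt := hT i (hC hi)
    have hget : G.getD i e0 = G[i] := by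
      rw [List.getD_eq_getElem?_getD, List.getElem?_eq_getElem hlt]
      rfl
    show G.endsAt i v = (if (G.getD i e0).1.1 = v then 1 else 0) +
      (if (G.getD i e0).1.2 = v then 1 else 0)
    rw [hget]
    unfold WG.endsAt ends
    rw [List.getElem?_eq_getElem hlt]
    rfl
  obtain ⟨C, hCT, hCne, hC⟩ := Circ1_abs T.card T (fun i => (G.getD i e0).1.1)
    (fun i => (G.getD i e0).1.2) rfl hne (fun v => by
      rw [← hdeg T (Finset.Subset.refl T) v]
      exact h1 v)
  refine ⟨C, hCT, hCne, fun v => ?_⟩
  rw [hdeg C hCT v]
  exact hC v

end Pool.Agent.W_c81d44_h82
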