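import Pool.Agent.W_c81d44_h82.Circ1

set_option autoImplicit false

namespace Pool.Agent.W_c81d44_h82

variable {V : Type} [DecidableEq V]

/-- Every nonempty even edge set contains a circuit.

Proof.  Take a minimal nonempty subset `T ⊆ S` all of whose degrees are even (strong induction on
the cardinality).  By `exists_two_regular` (degrees of `T` are even, so not `1`) there is a nonempty
`C ⊆ T` with all degrees `0` or `2`; it is even, so `C = T` by minimality.  `T` is a circuit:
if `A ∪ B = T`, `A`, `B` disjoint and nonempty, and no vertex has nonzero degree in both, then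
`deg A v` is `deg T v` or `0` for every `v` (since `deg T v = deg A v + deg B v`), so `A` is even,
nonempty and a proper subset of `T`, contradicting minimality. -/
theorem exists_circuit (G : WG V) (S : Finset ℕ) (hS : ∀ i ∈ S, i < G.length)
    (hne : S.Nonempty) (he : ∀ v, Even (G.deg S v)) :
    ∃ C, C ⊆ S ∧ G.IsCircuit C := by
  induction S using Finset.strongInduction with
  | H S ih =>
    obtain ⟨C, hCS, hCne, hC⟩ := exists_two_regular G S hS hne (fun v h => by
      have := he v
      rw [h] at this
      exact absurd this (by decide))
    have hevC : ∀ v, Even (G.deg C v) := fun v => by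
      rcases hC v with h | h <;> rw [h] <;> decide
    rcases hCS.ssubset_or_eq with hlt | heq
    · obtain ⟨C', h1, h2⟩ := ih C hlt (fun i hi => hS i (hCS hi)) hCne hevC
      exact ⟨C', h1.trans hCS, h2⟩
    · subst heq
      by_cases hcon : ∀ A B : Finset ℕ, A ∪ B = C → Disjoint A B → A.Nonempty → B.Nonempty →
          ∃ v, G.deg A v ≠ 0 ∧ G.deg B v ≠ 0
      · exact ⟨C, subset_rfl, ⟨hS, hCne, hC, hcon⟩⟩
      · push Not at hcon
        obtain ⟨A, B, hAB, hd, hA, hB, hv⟩ := hcon
        have hsum : ∀ v, G.deg C v = G.deg A v + G.deg B v := fun v => by
          unfold WG.deg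
          rw [← hAB, Finset.sum_union hd]
        have hevA : ∀ v, Even (G.deg A v) := fun v => by
          by_cases h0 : G.deg A v = 0
          · rw [h0]
            decide
          · have hb := hv v h0
            have h2 := hsum v
            rw [hb, add_zero] at h2
            rw [← h2]
            exact hevC v
        have hAS : A ⊂ C := by
          rw [Finset.ssubset_iff_subset_ne]
          refine ⟨by rw [← hAB]; exact Finset.subset_union_left, fun h => ?_⟩
          obtain ⟨b, hb⟩ := hB
          have hbA : b ∈ A := by
            rw [h, ← hAB]
            exact Finset.mem_union_right _ hb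
          exact (Finset.disjoint_left.mp hd hbA) hb
        obtain ⟨C', h1, h2⟩ := ih A hAS (fun i hi => hS i (hAS.1 hi)) hA hevA
        exact ⟨C', h1.trans hAS.1, h2⟩

/-- Every even edge set is a disjoint union of circuits.

Proof.  Strong induction on the cardinality, removing a circuit (`exists_circuit`); the rest
`S \ C` is even because `deg S v = deg C v + deg (S \ C) v` and `deg C v` is `0` or `2`. -/
theorem exists_circuits (G : WG V) (S : Finset ℕ) (hS : ∀ i ∈ S, i < G.length)
    (he : ∀ v, Even (G.deg S v)) :
    ∃ F : List (Finset ℕ), (∀ C ∈ F, G.IsCircuit C) ∧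
      ∀ i, F.countP (fun C => decide (i ∈ C)) = if i ∈ S then 1 else 0 := by
  induction S using Finset.strongInduction with
  | H S ih =>
    rcases S.eq_empty_or_nonempty with h0 | hne
    · subst h0
      exact ⟨[], by simp, fun i => by simp⟩
    · obtain ⟨C, hCS, hC⟩ := exists_circuit G S hS hne he
      have hsum : ∀ v, G.deg S v = G.deg (S \ C) v + G.deg C v := fun v => by
        unfold WG.deg
        rw [Finset.sum_sdiff hCS]
      have hev : ∀ v, Even (G.deg (S \ C) v) := fun v => by
        have h1 := he v
        have h2 := hsum v
        rcases hC.regular v with h | h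
        · rw [h, add_zero] at h2
          rw [← h2]
          exact h1
        · rw [h] at h2
          rw [h2] at h1
          exact (Nat.even_add.mp h1).mpr (by decide)
      have hlt : S \ C ⊂ S := by
        rw [Finset.ssubset_iff_subset_ne]
        refine ⟨Finset.sdiff_subset, fun h => ?_⟩
        obtain ⟨c, hc⟩ := hC.nonempty
        have hcS := hCS hc
        rw [← h] at hcS
        exact (Finset.mem_sdiff.mp hcS).2 hc
      obtain ⟨F, hF1, hF2⟩ := ih (S \ C) hlt
        (fun i hi => hS i (Finset.mem_sdiff.mp hi).1) hev
      refine ⟨C :: F, ?_, fun i => ?_⟩
      · intro D hD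
        rcases List.mem_cons.mp hD with h | h
        · rw [h]
          exact hC
        · exact hF1 D h
      · rw [List.countP_cons, hF2 i]
        by_cases hi : i ∈ C
        · have hiS := hCS hi
          simp [hi, hiS]
        · by_cases hiS : i ∈ S <;> simp [hi, hiS]

/-- Faithful circuit covers are colourings.

Proof.  (→) Given the list `F`, let `φ i` be the set of positions `k < F.length` with
`i ∈ F[k]`; its cardinality is `F.countP (i ∈ ·) = weight i`.  For `k < F.length` the number
`par φ v k` is `deg F[k] v` (edges of circuits are `< G.length`), which is `0` or `2`; for other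
`k` it is `0`.
(←) Let `m` bound all colours in all `φ i`, `i < G.length`.  For `c < m` the set
`S c = {i < G.length | c ∈ φ i}` is even (`deg (S c) v = par φ v c`); let `F c` be a list as in
`exists_circuits`, and let `F` be the concatenation of all `F c`, `c < m`.  Then the number of
members of `F` containing `i` is the number of `c < m` with `c ∈ φ i`, i.e. `(φ i).card`. -/
theorem hasFCC_iff_col (G : WG V) : G.HasFCC ↔ G.Col := by
  constructor
  · rintro ⟨F, hF1, hF2⟩
    refine ⟨fun i => (Finset.range F.length).filter (fun k => i ∈ F.getD k ∅), ?_, ?_⟩
    · intro i hi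
      rw [← hF2 i hi]
      have key : ∀ L : List (Finset ℕ),
          ((Finset.range L.length).filter (fun k => i ∈ L.getD k ∅)).card =
            L.countP (fun C => decide (i ∈ C)) := by
        intro L
        induction L with
        | nil => simp
        | cons C L ih =>
          rw [List.countP_cons, ← ih, Finset.card_filter, Finset.card_filter, List.length_cons,
            Finset.sum_range_succ']
          simp
      exact key F
    · intro v c
      by_cases hc : c < F.length
      · have h1 : G.par (fun i => (Finset.range F.length).filter (fun k => i ∈ F.getD k ∅)) v c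
            = G.deg F[c] v := by
          unfold WG.par WG.deg
          rw [← Finset.sum_filter]
          apply Finset.sum_congr
          · ext i
            simp only [Finset.mem_filter, Finset.mem_range]
            rw [List.getD_eq_getElem _ _ hc]
            constructor
            · rintro ⟨_, _, h⟩
              exact h
            · intro h
              exact ⟨(hF1 F[c] (List.getElem_mem hc)).edges i h, hc, h⟩
          · intro i _
            rfl
        rw [h1]
        rcases (hF1 F[c] (List.getElem_mem hc)).regular v with h | h <;> rw [h] <;> decide
      · have h1 : G.par (fun i => (Finset.range F.length).filter (fun k => i ∈ F.getD k ∅)) v c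
            = 0 := by
          unfold WG.par
          apply Finset.sum_eq_zero
          intro i _
          simp [hc]
        rw [h1]
        decide
  · rintro ⟨φ, hφ1, hφ2⟩
    have hdeg : ∀ v c, G.deg ((Finset.range G.length).filter (fun i => c ∈ φ i)) v =
        G.par φ v c := fun v c => by
      unfold WG.par WG.deg
      rw [Finset.sum_filter]
    have hex : ∀ c : ℕ, ∃ F : List (Finset ℕ), (∀ C ∈ F, G.IsCircuit C) ∧
        ∀ i, F.countP (fun C => decide (i ∈ C)) =
          if i ∈ (Finset.range G.length).filter (fun i => c ∈ φ i) then 1 else 0 := fun c =>
      exists_circuits G _ (fun i hi => Finset.mem_range.mp (Finset.mem_filter.mp hi).1)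
        (fun v => by rw [hdeg]; exact hφ2 v c)
    choose Fc hFc1 hFc2 using hex
    obtain ⟨m, hm⟩ : ∃ m : ℕ, ∀ i < G.length, ∀ c ∈ φ i, c < m := by
      refine ⟨((Finset.range G.length).biUnion φ).sup id + 1, fun i hi c hc => ?_⟩
      have hmem : c ∈ (Finset.range G.length).biUnion φ :=
        Finset.mem_biUnion.mpr ⟨i, Finset.mem_range.mpr hi, hc⟩
      have := Finset.le_sup (f := id) hmem
      simp only [id] at this
      omega
    refine ⟨(List.range m).flatMap Fc, ?_, ?_⟩
    · intro C hC
      obtain ⟨c, _, hc⟩ := List.mem_flatMap.mp hC
      exact hFc1 c C hc
    · intro i hi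
      have key : ∀ n : ℕ, ((List.range n).flatMap Fc).countP (fun C => decide (i ∈ C)) =
          ((Finset.range n).filter (fun c => c ∈ φ i)).card := by
        intro n
        induction n with
        | zero => simp
        | succ n ih =>
          rw [List.range_succ, List.flatMap_append, List.countP_append, ih]
          simp only [List.flatMap_cons, List.flatMap_nil, List.append_nil]
          rw [hFc2 n i, Finset.range_add_one, Finset.filter_insert]
          by_cases hn : n ∈ φ i
          · rw [if_pos hn, Finset.card_insert_of_notMem (by simp)]
            simp [hi, hn]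
          · rw [if_neg hn]
            simp [hn]
      rw [key m, ← hφ1 i hi]
      congr 1
      ext c
      simp only [Finset.mem_filter, Finset.mem_range]
      exact ⟨fun h => h.2, fun h => ⟨hm i hi c h, h⟩⟩

end Pool.Agent.W_c81d44_h82
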