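import Pool.Agent.W_c81d44_h82.Defs
import Pool.Agent.PolyTimeCL.CookLevin

/-!
# The code of a weighted graph as a bit string
-/

set_option autoImplicit false

namespace Pool.Agent.W_c81d44_h82

open Pool.Agent.PolyTime

/-- The code of a natural number (unary). -/
def codeNat : ℕ → List Bool
  | 0 => [false]
  | n + 1 => true :: false :: codeNat n

/-- The code of a truth value. -/
def codeBool : Bool → List Bool
  | false => [false]
  | true => [true, false, false]

/-- The code of an edge: its two ends and the flag for weight `2`. -/
def codeEdge (e : (ℕ × ℕ) × Bool) : List Bool :=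
  true :: true :: (codeNat e.1.1 ++ codeNat e.1.2 ++ codeBool e.2)

/-- The code of a graph, given by the list of its edges. -/
def code : WG ℕ → List Bool
  | [] => [false]
  | e :: G => true :: (codeEdge e ++ code G)

theorem codeNat_eq (n : ℕ) : codeNat n = (enc n).enc := by
  induction n with
  | zero => rfl
  | succ n ih =>
    rw [enc_succ, codeNat, ih]
    rfl

theorem codeBool_eq (b : Bool) : codeBool b = (enc b).enc := by
  cases b <;> rfl

theorem codeEdge_eq (e : (ℕ × ℕ) × Bool) : codeEdge e = (enc e).enc := by
  obtain ⟨⟨x, y⟩, b⟩ := e
  rw [enc_pair, enc_pair, codeEdge, codeNat_eq, codeNat_eq, codeBool_eq]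
  simp [T.enc]

theorem code_eq (G : WG ℕ) : code G = bits G := by
  induction G with
  | nil => rfl
  | cons e G ih =>
    rw [code, ih, codeEdge_eq]
    rfl

theorem code_injective : Function.Injective code := by
  intro G H h
  rw [code_eq, code_eq] at h
  exact TEnc.inj (T.enc_injective h)

end Pool.Agent.W_c81d44_h82
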