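import Pool.Agent.W_c81d44_h82.Defs

/-!
# Faithful circuit covers as colourings

A faithful circuit cover is the same as an assignment of `weight i` colours to every edge `i` such
that every colour occurs an even number of times at every vertex.
-/

set_option autoImplicit false

namespace Pool.Agent.W_c81d44_h82

variable {V : Type} [DecidableEq V]

namespace WG

/-- The number of edge ends of colour `c` at `v`, if edge `i` carries the set `φ i` of colours. -/
def par (G : WG V) (φ : ℕ → Finset ℕ) (v : V) (c : ℕ) : ℕ :=
  ∑ i ∈ Finset.range G.length, if c ∈ φ i then G.endsAt i v else 0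

/-- A colouring: edge `i` gets `weight i` colours and all colours are even at all vertices. -/
def Col (G : WG V) : Prop :=
  ∃ φ : ℕ → Finset ℕ, (∀ i < G.length, (φ i).card = G.weight i) ∧ ∀ v c, Even (G.par φ v c)

end WG
end Pool.Agent.W_c81d44_h82
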