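import Pool.Agent.W_c81d44_h82.Net

/-!
# The edges at the slots, at the tops of the clauses and at the vertices of the gadgets
-/

set_option autoImplicit false

namespace Pool.Agent.W_c81d44_h82

variable (g : Gad) (φ : List (List (ℕ × Bool))) (n : ℕ) (col : Lab → Finset ℕ)

variable {g φ n col}

theorem Star2_ends {e : (Vx × Vx) × Bool} {X : Vx} (h : ends e X ≠ 0) : e.1.1 = X ∨ e.1.2 = X := by
  by_contra hc
  rw [not_or] at hc
  apply h
  unfold ends
  rw [if_neg hc.1, if_neg hc.2]

theorem Star2_ends_eq (e : (Vx × Vx) × Bool) (X : Vx) :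
    ends e X = (if e.1.1 = X then 1 else 0) + (if e.1.2 = X then 1 else 0) := rfl

/-- restriction of the sum -/
theorem Star2_sum (S : Finset Lab) (hS : ∀ l ∈ S, l ∈ labs g φ n) {X : Vx}
    (h0 : ∀ l ∈ labs g φ n, l ∉ S → ends (ep g φ l) X = 0) (c : ℕ) :
    cnt g φ n col X c = ∑ l ∈ S, if c ∈ col l then ends (ep g φ l) X else 0 := by
  unfold cnt
  symm
  apply Finset.sum_subset
  · intro l hl
    rw [List.mem_toFinset]
    exact hS l hl
  · intro l hl hl'
    rw [h0 l (List.mem_toFinset.mp hl) hl', ite_self]

theorem Star2_ov_slot (v x i j : ℕ) : ov g v x ≠ Vx.slot i j := by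
  unfold ov
  split_ifs <;> simp

theorem Star2_ov_t (v x i : ℕ) : ov g v x ≠ Vx.t i := by
  unfold ov
  split_ifs <;> simp

theorem Star2_port_t (v : ℕ) (b : Bool) (i j d i' : ℕ) : port φ v b i j d ≠ Vx.t i' := by
  unfold port
  split_ifs <;> simp

theorem Star2_port_orv (v : ℕ) (b : Bool) (i j d v' x' : ℕ) :
    port φ v b i j d ≠ Vx.orv v' x' := by
  unfold port
  split_ifs <;> simp

theorem Star2_port_slot {v : ℕ} {b : Bool} {i' j' d i j : ℕ}
    (h : port φ v b i' j' d = Vx.slot i j) :
    (d = 20 ∧ (row φ i)[j]? = some (v, !b) ∧ i' = i ∧ j' = j) ∨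
    (d = 21 ∧ (row φ i)[j - 1]? = some (v, !b) ∧ i' = i ∧ j' = j - 1 ∧ 0 < j) := by
  unfold port at h
  split_ifs at h with h1 h2 h3 h4 h5 h6 h7
  · left
    rw [Vx.slot.injEq] at h
    obtain ⟨h8, h9⟩ := h
    subst h8 h9
    exact ⟨h6.1, h6.2, rfl, rfl⟩
  · right
    rw [Vx.slot.injEq] at h
    obtain ⟨h8, h9⟩ := h
    subst h8 h9
    exact ⟨h7.1, h7.2, rfl, rfl, Nat.succ_pos _⟩

theorem Star2_tbl1 : ∀ k : Fin 28, (tbl k).1 ≠ 20 ∧ (tbl k).1 ≠ 21 := by decide

theorem Star2_tbl2 : ∀ k : Fin 28, ((tbl k).2.1 = 20 → k = 24) ∧ ((tbl k).2.1 = 21 → k = 25) := by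
  decide

theorem Star2_or_slot (v k i j : ℕ) : ends (ep g φ (Lab.or v k)) (Vx.slot i j) = 0 := by
  by_contra h
  have h1 := Star2_ends h
  unfold ep at h1
  cases hG : g.G[k]? with
  | none =>
    simp only [hG, Option.elim] at h1
    rcases h1 with h1 | h1 <;> cases h1
  | some e =>
    simp only [hG, Option.elim] at h1
    rcases h1 with h1 | h1
    · exact Star2_ov_slot _ _ _ _ h1
    · exact Star2_ov_slot _ _ _ _ h1

theorem Star2_or_t (v k i : ℕ) : ends (ep g φ (Lab.or v k)) (Vx.t i) = 0 := by
  by_contra h
  have h1 := Star2_ends h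
  unfold ep at h1
  cases hG : g.G[k]? with
  | none =>
    simp only [hG, Option.elim] at h1
    rcases h1 with h1 | h1 <;> cases h1
  | some e =>
    simp only [hG, Option.elim] at h1
    rcases h1 with h1 | h1
    · exact Star2_ov_t _ _ _ h1
    · exact Star2_ov_t _ _ _ h1

theorem Star2_slot_lab (l : Lab) {i j : ℕ} (h : ends (ep g φ l) (Vx.slot i j) ≠ 0) :
    l = prevS φ i j ∨ l = nextS φ i j := by
  cases l with
  | or v k => exact absurd (Star2_or_slot v k i j) h
  | src v b s =>
    rcases Star2_ends h with h1 | h1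
    · exact absurd h1 (Star2_ov_slot _ _ _ _)
    · cases h1
  | fin v b s => rcases Star2_ends h with h1 | h1 <;> cases h1
  | blk v b i' j' k =>
    rcases Star2_ends h with h1 | h1
    · rcases Star2_port_slot h1 with h2 | h2
      · exact absurd h2.1 (Star2_tbl1 k).1
      · exact absurd h2.1 (Star2_tbl1 k).2
    · rcases Star2_port_slot h1 with ⟨h2, h3, h4, h5⟩ | ⟨h2, h3, h4, h5, h6⟩
      · right
        have h7 := (Star2_tbl2 k).1 h2
        unfold nextS
        rw [h3, h4, h5, h7]
        simp
      · left
        have h7 := (Star2_tbl2 k).2 h2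
        unfold prevS
        rw [if_neg (by omega), h3, h4, h5, h7]
        simp
  | cl i' k =>
    have h1 := Star2_ends h
    unfold ep at h1
    by_cases hk0 : k = 0
    · simp only [hk0, if_true] at h1
      rcases h1 with h1 | h1
      · rw [Vx.slot.injEq] at h1
        left
        unfold prevS
        rw [if_pos h1.2.symm, h1.1, hk0]
      · cases h1
    · by_cases hk1 : k = 1
      · simp only [hk1] at h1
        rw [if_neg (by decide)] at h1
        simp only [if_true] at h1
        rcases h1 with h1 | h1
        · rw [Vx.slot.injEq] at h1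
          right
          obtain ⟨h2, h3⟩ := h1
          subst h2 h3
          unfold nextS
          rw [List.getElem?_eq_none (le_refl _), hk1]
          rfl
        · cases h1
      · simp only [if_neg hk0, if_neg hk1] at h1
        rcases h1 with h1 | h1 <;> cases h1

theorem Star2_row_get {i j : ℕ} (hj : j < (row φ i).length) :
    ∃ l, (row φ i)[j]? = some l ∧ l ∈ row φ i :=
  ⟨(row φ i)[j], List.getElem?_eq_getElem hj, List.getElem_mem hj⟩

theorem Star2_next_ends (g : Gad) {i j : ℕ} (hj : j ≤ (row φ i).length) :
    ends (ep g φ (nextS φ i j)) (Vx.slot i j) = 1 := by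
  unfold nextS
  rcases Nat.lt_or_ge j (row φ i).length with h | h
  · obtain ⟨l, hl, _⟩ := Star2_row_get h
    rw [hl]
    simp only [Option.elim]
    simp [ends, ep, tbl, port, hl]
  · have : j = (row φ i).length := le_antisymm hj h
    rw [List.getElem?_eq_none h]
    simp only [Option.elim]
    rw [this]
    simp [ends, ep]

theorem Star2_prev_ends (g : Gad) {i j : ℕ} (hj : j ≤ (row φ i).length) :
    ends (ep g φ (prevS φ i j)) (Vx.slot i j) = 1 := by
  unfold prevS
  rcases Nat.eq_zero_or_pos j with h | h
  · rw [if_pos h, h]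
    simp [ends, ep]
  · obtain ⟨l, hl, _⟩ := Star2_row_get (φ := φ) (i := i) (j := j - 1) (by omega)
    rw [if_neg (by omega), hl]
    simp only [Option.elim]
    have hj1 : j - 1 + 1 = j := by omega
    simp [ends, ep, tbl, port, hl, hj1]

theorem Star2_prev_ne_next (i j : ℕ) : prevS φ i j ≠ nextS φ i j := by
  unfold prevS nextS
  intro h
  cases h1 : (row φ i)[j]? with
  | none =>
    rw [h1] at h
    split_ifs at h with h2
    · simp at h
    · cases h3 : (row φ i)[j - 1]? with
      | none =>
        rw [h3] at h
        simp at h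
      | some l =>
        rw [h3] at h
        simp at h
  | some l' =>
    rw [h1] at h
    split_ifs at h with h2
    · simp at h
    · cases h3 : (row φ i)[j - 1]? with
      | none =>
        rw [h3] at h
        simp at h
      | some l =>
        rw [h3] at h
        simp at h

theorem Star2_next_mem (g : Gad) {i j : ℕ} (hi : i < φ.length) (hj : j ≤ (row φ i).length)
    (hn : ∀ l ∈ row φ i, l.1 < n) : nextS φ i j ∈ labs g φ n := by
  unfold nextS
  rcases Nat.lt_or_ge j (row φ i).length with h | h
  · obtain ⟨l, hl, hl'⟩ := Star2_row_get h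
    rw [hl]
    simp only [Option.elim]
    rw [mem_blk]
    exact ⟨hn l hl', hi, hj⟩
  · rw [List.getElem?_eq_none h]
    simp only [Option.elim]
    rw [mem_cl]
    exact hi

theorem Star2_prev_mem (g : Gad) {i j : ℕ} (hi : i < φ.length) (hj : j ≤ (row φ i).length)
    (hn : ∀ l ∈ row φ i, l.1 < n) : prevS φ i j ∈ labs g φ n := by
  unfold prevS
  rcases Nat.eq_zero_or_pos j with h | h
  · rw [if_pos h, mem_cl]
    exact hi
  · obtain ⟨l, hl, hl'⟩ := Star2_row_get (φ := φ) (i := i) (j := j - 1) (by omega)
    rw [if_neg (by omega), hl]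
    simp only [Option.elim]
    rw [mem_blk]
    exact ⟨hn l hl', hi, by omega⟩

variable (g φ n col)

/-- The slots: the edges there are `prevS φ i j` and `nextS φ i j`.  (Edges ending at `slot i j`:
`cl i 0` if `j = 0`; `cl i 1` if `j = (row φ i).length`; the tap edge `24` of the link
`(v, b, i, j)` with `(row φ i)[j]? = some (v, !b)`, exactly one if `j < (row φ i).length`; the tap
edge `25` of the link `(v, b, i, j-1)` with `(row φ i)[j-1]? = some (v, !b)` if `j > 0`.) -/
theorem cnt_slot {i j : ℕ} (hi : i < φ.length) (hj : j ≤ (row φ i).length)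
    (hn : ∀ l ∈ row φ i, l.1 < n) (c : ℕ) :
    cnt g φ n col (Vx.slot i j) c =
      (if c ∈ col (prevS φ i j) then 1 else 0) + (if c ∈ col (nextS φ i j) then 1 else 0) := by
  rw [Star2_sum {prevS φ i j, nextS φ i j}, Finset.sum_pair (Star2_prev_ne_next i j),
    Star2_prev_ends g hj, Star2_next_ends g hj]
  · intro l hl
    rw [Finset.mem_insert, Finset.mem_singleton] at hl
    rcases hl with hl | hl
    · rw [hl]; exact Star2_prev_mem g hi hj hn
    · rw [hl]; exact Star2_next_mem g hi hj hn
  · intro l _ hl'
    by_contra h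
    apply hl'
    rw [Finset.mem_insert, Finset.mem_singleton]
    exact Star2_slot_lab l h

/-- The top of a clause: the edges there are `cl i 0`, `cl i 1`, `cl i 2`. -/
theorem cnt_t {i : ℕ} (hi : i < φ.length) (c : ℕ) :
    cnt g φ n col (Vx.t i) c =
      (if c ∈ col (Lab.cl i 0) then 1 else 0) + (if c ∈ col (Lab.cl i 1) then 1 else 0) +
      (if c ∈ col (Lab.cl i 2) then 1 else 0) := by
  rw [Star2_sum {Lab.cl i 0, Lab.cl i 1, Lab.cl i 2}]
  · rw [Finset.sum_insert (by simp), Finset.sum_pair (by simp)]
    simp [ends, ep, add_assoc]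
  · intro l hl
    simp only [Finset.mem_insert, Finset.mem_singleton] at hl
    rcases hl with hl | hl | hl <;> (rw [hl, mem_cl]; exact hi)
  · intro l _ hl'
    by_contra h
    apply hl'
    cases l with
    | or v k => exact absurd (Star2_or_t v k i) h
    | src v b s =>
      rcases Star2_ends h with h1 | h1
      · exact absurd h1 (Star2_ov_t _ _ _)
      · cases h1
    | fin v b s => rcases Star2_ends h with h1 | h1 <;> cases h1
    | blk v b i' j' k =>
      rcases Star2_ends h with h1 | h1
      · exact absurd h1 (Star2_port_t _ _ _ _ _ _)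
      · exact absurd h1 (Star2_port_t _ _ _ _ _ _)
    | cl i' k =>
      have h1 := Star2_ends h
      unfold ep at h1
      have h2 : i' = i := by
        by_cases hk0 : k = 0
        · simp only [hk0, if_true] at h1
          rcases h1 with h1 | h1
          · cases h1
          · exact Vx.t.inj h1
        · by_cases hk1 : k = 1
          · simp only [hk1] at h1
            rw [if_neg (by decide)] at h1
            simp only [if_true] at h1
            rcases h1 with h1 | h1
            · cases h1
            · exact Vx.t.inj h1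
          · simp only [if_neg hk0, if_neg hk1] at h1
            rcases h1 with h1 | h1
            · exact Vx.t.inj h1
            · cases h1
      rw [h2]
      fin_cases k <;> simp

/-- The vertices `≠ h` of the copies of the gadget: edges of the copy, and the first edges of the
two chains attached at `z true` and `z false`. -/
theorem cnt_orv {v x : ℕ} (hv : v < n) (hx : x ≠ g.h) (c : ℕ) :
    cnt g φ n col (Vx.orv v x) c =
      (∑ k ∈ (Finset.range g.G.length).filter (fun k => k ≠ g.e true ∧ k ≠ g.e false),
        if c ∈ col (Lab.or v k) then g.G.endsAt k x else 0) +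
      ∑ b : Bool, ∑ s : Bool, if g.z b = x ∧ c ∈ col (Lab.src v b s) then 1 else 0 := by
  have hov : ∀ v' y, ov g v' y = Vx.orv v x ↔ v' = v ∧ y = x := by
    intro v' y
    unfold ov
    split_ifs with h1
    · constructor
      · intro h; cases h
      · rintro ⟨_, h2⟩
        exact absurd (h2.symm.trans h1) hx
    · rw [Vx.orv.injEq]
  have hor : ∀ v' k, ends (ep g φ (Lab.or v' k)) (Vx.orv v x) =
      if v' = v then g.G.endsAt k x else 0 := by
    intro v' k
    unfold ep WG.endsAt
    cases hG : g.G[k]? with
    | none =>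
      simp [ends, hG]
    | some e =>
      simp only [hG, Option.elim]
      unfold ends
      simp only [hov]
      by_cases h : v' = v
      · simp [h]
      · simp [h]
  have hsrc : ∀ v' b s, ends (ep g φ (Lab.src v' b s)) (Vx.orv v x) =
      if v' = v ∧ g.z b = x then 1 else 0 := by
    intro v' b s
    unfold ep ends
    simp only [hov]
    simp
  set K := (Finset.range g.G.length).filter (fun k => k ≠ g.e true ∧ k ≠ g.e false) with hK
  have hd : Disjoint (K.image (Lab.or v))
      ((Finset.univ : Finset (Bool × Bool)).image (fun p => Lab.src v p.1 p.2)) := by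
    rw [Finset.disjoint_left]
    intro l h1 h2
    rw [Finset.mem_image] at h1 h2
    obtain ⟨k, _, h3⟩ := h1
    obtain ⟨p, _, h4⟩ := h2
    rw [← h3] at h4
    cases h4
  rw [Star2_sum (K.image (Lab.or v) ∪
      (Finset.univ : Finset (Bool × Bool)).image (fun p => Lab.src v p.1 p.2)),
    Finset.sum_union hd, Finset.sum_image, Finset.sum_image]
  · congr 1
    · apply Finset.sum_congr rfl
      intro k _
      rw [hor, if_pos rfl]
    · rw [Fintype.sum_prod_type]
      apply Finset.sum_congr rfl
      intro b _
      apply Finset.sum_congr rfl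
      intro s _
      rw [hsrc]
      by_cases h1 : g.z b = x
      · by_cases h2 : c ∈ col (Lab.src v b s) <;> simp [h1, h2]
      · simp [h1]
  · rintro ⟨b, s⟩ _ ⟨b', s'⟩ _ h
    simp only [Lab.src.injEq] at h
    rw [h.2.1, h.2.2]
  · intro k _ k' _ h
    simpa using h
  · intro l hl
    rw [Finset.mem_union, Finset.mem_image, Finset.mem_image] at hl
    rcases hl with ⟨k, hk, h⟩ | ⟨p, _, h⟩
    · rw [← h, mem_or]
      rw [hK, Finset.mem_filter, Finset.mem_range] at hk
      exact ⟨hv, hk.1, hk.2⟩
    · rw [← h, mem_src]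
      exact hv
  · intro l hl hl'
    by_contra h
    apply hl'
    cases l with
    | or v' k =>
      rw [hor] at h
      rw [Finset.mem_union, Finset.mem_image]
      left
      have h1 : v' = v := by
        by_contra h2
        rw [if_neg h2] at h
        exact h rfl
      rw [mem_or] at hl
      refine ⟨k, ?_, by rw [h1]⟩
      rw [hK, Finset.mem_filter, Finset.mem_range]
      exact ⟨hl.2.1, hl.2.2⟩
    | src v' b s =>
      rw [hsrc] at h
      rw [Finset.mem_union, Finset.mem_image, Finset.mem_image]
      right
      have h1 : v' = v := by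
        by_contra h2
        rw [if_neg (fun h3 => h2 h3.1)] at h
        exact h rfl
      exact ⟨(b, s), Finset.mem_univ _, by rw [h1]⟩
    | fin v' b s => rcases Star2_ends h with h1 | h1 <;> cases h1
    | blk v' b i' j' k =>
      rcases Star2_ends h with h1 | h1
      · exact absurd h1 (Star2_port_orv _ _ _ _ _ _ _)
      · exact absurd h1 (Star2_port_orv _ _ _ _ _ _ _)
    | cl i' k =>
      have h1 := Star2_ends h
      fin_cases k <;> simp [ep] at h1

theorem Star2_pos (i j : ℕ) (hi : i ≤ φ.length) (hj : j ≤ (row φ i).length) :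
    (i = 0 ∧ j = 0) ∨ ∃ i' j', i' < φ.length ∧ j' ≤ (row φ i').length ∧
      (nx φ i' j').1 = i ∧ (nx φ i' j').2 = j := by
  rcases Nat.eq_zero_or_pos j with h | h
  · rcases Nat.eq_zero_or_pos i with h' | h'
    · exact Or.inl ⟨h', h⟩
    · right
      refine ⟨i - 1, (row φ (i - 1)).length, by omega, le_refl _, ?_, ?_⟩
      · unfold nx
        rw [if_neg (lt_irrefl _)]
        show i - 1 + 1 = i
        omega
      · unfold nx
        rw [if_neg (lt_irrefl _)]
        exact h.symm
  · right
    have hi' : i < φ.length := by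
      by_contra hc
      have h1 : row φ i = [] := by
        unfold row
        rw [List.getElem?_eq_none (by omega)]
        rfl
      rw [h1, List.length_nil] at hj
      omega
    refine ⟨i, j - 1, hi', by omega, ?_, ?_⟩
    · unfold nx
      rw [if_pos (by omega)]
    · unfold nx
      rw [if_pos (by omega)]
      show j - 1 + 1 = j
      omega

/-- Which vertices other than the hub are ends of edges. -/
theorem touched {l : Lab} (hl : l ∈ labs g φ n) (hn : ∀ r ∈ φ, ∀ l ∈ r, l.1 < n) {X : Vx}
    (hX : X ≠ Vx.hub) (h : ends (ep g φ l) X ≠ 0) :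
    (∃ v x, v < n ∧ x ≠ g.h ∧ X = Vx.orv v x) ∨
    (∃ v b s, v < n ∧ X = Vx.u v b 0 0 s) ∨
    (∃ v b i j s, v < n ∧ i < φ.length ∧ j ≤ (row φ i).length ∧
      X = Vx.u v b (nx φ i j).1 (nx φ i j).2 s) ∨
    (∃ v b i j m, v < n ∧ i < φ.length ∧ j ≤ (row φ i).length ∧ m < 16 ∧
      X = Vx.prv v b i j m) ∨
    (∃ i j, i < φ.length ∧ j ≤ (row φ i).length ∧ X = Vx.slot i j) ∨
    (∃ i, i < φ.length ∧ X = Vx.t i) := by
  have _hn := hn
  have hov : ∀ v x, v < n → ov g v x = X → ∃ v x, v < n ∧ x ≠ g.h ∧ X = Vx.orv v x := by
    intro v x hv h1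
    unfold ov at h1
    split_ifs at h1 with h2
    · exact absurd h1.symm hX
    · exact ⟨v, x, hv, h2, h1.symm⟩
  have hu : ∀ v b i j s, v < n → i ≤ φ.length → j ≤ (row φ i).length → Vx.u v b i j s = X →
      (∃ v b s, v < n ∧ X = Vx.u v b 0 0 s) ∨
      (∃ v b i j s, v < n ∧ i < φ.length ∧ j ≤ (row φ i).length ∧
        X = Vx.u v b (nx φ i j).1 (nx φ i j).2 s) := by
    intro v b i j s hv hi hj h1
    rcases Star2_pos φ i j hi hj with ⟨h2, h3⟩ | ⟨i', j', h2, h3, h4, h5⟩
    · left
      refine ⟨v, b, s, hv, ?_⟩
      rw [← h1, h2, h3]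
    · right
      refine ⟨v, b, i', j', s, hv, h2, h3, ?_⟩
      rw [h4, h5, h1]
  cases l with
  | or v k =>
    rw [mem_or] at hl
    have h1 := Star2_ends h
    unfold ep at h1
    left
    cases hG : g.G[k]? with
    | none =>
      simp only [hG, Option.elim] at h1
      rcases h1 with h1 | h1 <;> exact absurd h1.symm hX
    | some e =>
      simp only [hG, Option.elim] at h1
      rcases h1 with h1 | h1
      · exact hov v _ hl.1 h1
      · exact hov v _ hl.1 h1
  | src v b s =>
    rw [mem_src] at hl
    rcases Star2_ends h with h1 | h1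
    · left
      exact hov v _ hl h1
    · right; left
      exact ⟨v, b, s, hl, h1.symm⟩
  | fin v b s =>
    rw [mem_fin] at hl
    rcases Star2_ends h with h1 | h1
    · rcases hu v b φ.length 0 s hl le_rfl (Nat.zero_le _) h1 with h2 | h2
      · right; left; exact h2
      · right; right; left; exact h2
    · exact absurd h1.symm hX
  | blk v b i j k =>
    rw [mem_blk] at hl
    obtain ⟨hv, hi, hj⟩ := hl
    have key : ∀ d, port φ v b i j d = X →
        ((∃ v b s, v < n ∧ X = Vx.u v b 0 0 s) ∨
        (∃ v b i j s, v < n ∧ i < φ.length ∧ j ≤ (row φ i).length ∧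
          X = Vx.u v b (nx φ i j).1 (nx φ i j).2 s)) ∨
        (∃ v b i j m, v < n ∧ i < φ.length ∧ j ≤ (row φ i).length ∧ m < 16 ∧
          X = Vx.prv v b i j m) ∨
        (∃ i j, i < φ.length ∧ j ≤ (row φ i).length ∧ X = Vx.slot i j) := by
      intro d hd
      unfold port at hd
      split_ifs at hd with h1 h2 h3 h4 h5 h6 h7
      · right; left
        exact ⟨v, b, i, j, d, hv, hi, hj, h1, hd.symm⟩
      · left; exact hu v b i j false hv hi.le hj hd
      · left; exact hu v b i j true hv hi.le hj hd
      · left; right; exact ⟨v, b, i, j, false, hv, hi, hj, hd.symm⟩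
      · left; right; exact ⟨v, b, i, j, true, hv, hi, hj, hd.symm⟩
      · right; right; exact ⟨i, j, hi, hj, hd.symm⟩
      · right; right
        have h8 : j < (row φ i).length := by
          by_contra hc
          rw [List.getElem?_eq_none (by omega)] at h7
          exact absurd h7.2 (by simp)
        exact ⟨i, j + 1, hi, by omega, hd.symm⟩
      · exact absurd hd.symm hX
    rcases Star2_ends h with h1 | h1
    · rcases key _ h1 with (h2 | h2) | h2 | h2
      · right; left; exact h2
      · right; right; left; exact h2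
      · right; right; right; left; exact h2
      · right; right; right; right; left; exact h2
    · rcases key _ h1 with (h2 | h2) | h2 | h2
      · right; left; exact h2
      · right; right; left; exact h2
      · right; right; right; left; exact h2
      · right; right; right; right; left; exact h2
  | cl i k =>
    rw [mem_cl] at hl
    have h1 := Star2_ends h
    fin_cases k
    · rcases h1 with h1 | h1
      · right; right; right; right; left
        exact ⟨i, 0, hl, Nat.zero_le _, h1.symm⟩
      · right; right; right; right; right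
        exact ⟨i, hl, h1.symm⟩
    · rcases h1 with h1 | h1
      · right; right; right; right; left
        exact ⟨i, _, hl, le_rfl, h1.symm⟩
      · right; right; right; right; right
        exact ⟨i, hl, h1.symm⟩
    · rcases h1 with h1 | h1
      · right; right; right; right; right
        exact ⟨i, hl, h1.symm⟩
      · exact absurd h1.symm hX

end Pool.Agent.W_c81d44_h82
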