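import Pool.Agent.W_c81d44_h82.Star1
import Pool.Agent.W_c81d44_h82.Star2

/-!
# Completeness of the reduction
-/

set_option autoImplicit false

namespace Pool.Agent.W_c81d44_h82

variable (g : Gad) (φ : List (List (ℕ × Bool))) (n : ℕ)

/-- Handshake lemma for the graph of the reduction: if a colour is even at all vertices other than
the hub it is even at the hub.

Proof.  Sum `cnt` over a finite set of vertices containing the hub and all ends of all edges: the
result is twice the number of edges of colour `c`. -/
theorem cnt_hub (col : Lab → Finset ℕ) (c : ℕ)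
    (h : ∀ X, X ≠ Vx.hub → Even (cnt g φ n col X c)) : Even (cnt g φ n col Vx.hub c) := by
  classical
  set S : Finset Vx := insert Vx.hub
    (((labs g φ n).toFinset.image (fun l => (ep g φ l).1.1)) ∪
      ((labs g φ n).toFinset.image (fun l => (ep g φ l).1.2))) with hS
  have h1 : Even (∑ X ∈ S, cnt g φ n col X c) := by
    unfold cnt
    rw [Finset.sum_comm]
    refine Finset.even_sum _ fun l hl => ?_
    by_cases hc : c ∈ col l
    · simp only [hc, if_true, ends]
      rw [Finset.sum_add_distrib, Finset.sum_ite_eq, Finset.sum_ite_eq]
      have e1 : (ep g φ l).1.1 ∈ S := by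
        rw [hS]
        exact Finset.mem_insert_of_mem (Finset.mem_union_left _ (Finset.mem_image_of_mem _ hl))
      have e2 : (ep g φ l).1.2 ∈ S := by
        rw [hS]
        exact Finset.mem_insert_of_mem (Finset.mem_union_right _ (Finset.mem_image_of_mem
          (fun l => (ep g φ l).1.2) hl))
      rw [if_pos e1, if_pos e2]
      exact ⟨1, rfl⟩
    · simp [hc]
  have hm : Vx.hub ∈ S := Finset.mem_insert_self _ _
  rw [← Finset.add_sum_erase _ _ hm] at h1
  have h2 : Even (∑ X ∈ S.erase Vx.hub, cnt g φ n col X c) :=
    Finset.even_sum _ fun X hX => h X (Finset.ne_of_mem_erase hX)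
  exact (Nat.even_add.1 h1).2 h2

/-- The index of the first true literal of clause `i` (the length of the clause if there is
none). -/
def js (a : ℕ → Bool) (i : ℕ) : ℕ := (row φ i).findIdx (fun l => a l.1 == l.2)

/-- The colour of the slot `(i, j)`. -/
def sc (a : ℕ → Bool) (i j : ℕ) : Finset ℕ := if j ≤ js φ a i then {3} else {2}

/-- The state of the tap of the link `(v, b, i, j)`: `0` for `(3, 3)`, `1` for `(2, 2)`, `2` for
`(3, 2)`. -/
def tapS (a : ℕ → Bool) (v : ℕ) (b : Bool) (i j : ℕ) : Fin 3 :=
  if (row φ i)[j]? = some (v, !b) then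
    (if j < js φ a i then 0 else if j = js φ a i then 2 else 1)
  else 0

/-- The colouring for the assignment `a`; `α b` is a colouring of the gadget in which the edge
`e b` has the colours `1`, `2` and `e (!b)` has none. -/
def colA (α : Bool → ℕ → Finset ℕ) (a : ℕ → Bool) : Lab → Finset ℕ
  | .or v k => α (!a v) k
  | .src v b s => if s = true ∧ a v ≠ b then {2} else {1}
  | .fin v b s => if s = true ∧ a v ≠ b then {2} else {1}
  | .blk v b i j k => lcol (a v == b) (tapS φ a v b i j) k
  | .cl i k => if k = 0 then {3} else if k = 1 then sc φ a i (row φ i).length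
      else if js φ a i < (row φ i).length then {2, 3} else ∅

/-- The tap state `2` occurs only if the chain is off: it means that the `j`-th literal
`(v, !b)` of clause `i` is the first true one, so `a v = !b` and `(a v == b) = false`. -/
theorem tapS_ne (a : ℕ → Bool) (v : ℕ) (b : Bool) (i j : ℕ) (h : (a v == b) = true) :
    tapS φ a v b i j ≠ 2 := by
  unfold tapS
  split_ifs with h1 h2 h3
  · decide
  · exfalso
    unfold js at h3
    obtain ⟨hj, h4⟩ := List.getElem?_eq_some_iff.1 h1
    have h5 : (row φ i).findIdx (fun l => a l.1 == l.2) < (row φ i).length := h3 ▸ hj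
    have h6 := List.findIdx_getElem (w := h5)
    simp only [← h3, h4] at h6
    simp only [beq_iff_eq] at h h6
    rw [h] at h6
    cases b <;> simp at h6
  · decide
  · decide

theorem Complete_nextU (α : Bool → ℕ → Finset ℕ) (a : ℕ → Bool) (v : ℕ) (b : Bool) (i j : ℕ)
    (s : Bool) : colA φ α a (nextU φ v b i j s) = if s = true ∧ a v ≠ b then {2} else {1} := by
  unfold nextU
  split_ifs with h1 h2 h3 h4
  · obtain ⟨h2, h5⟩ := h3
    obtain ⟨e1, e2, e3, e4⟩ := lcol_in (a v == b) (tapS φ a v b i j) (tapS_ne φ a v b i j)
    simp only [colA, e3]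
    simp [h5]
  · obtain ⟨e1, e2, e3, e4⟩ := lcol_in (a v == b) (tapS φ a v b i j) (tapS_ne φ a v b i j)
    simp only [colA, e3]
    have : a v = b := by
      by_contra h
      exact h3 ⟨h2, h⟩
    simp [this]
  · exact absurd h4.1 h2
  · obtain ⟨e1, e2, e3, e4⟩ := lcol_in (a v == b) (tapS φ a v b i j) (tapS_ne φ a v b i j)
    simp only [colA, e1]
  · simp only [colA]
    rw [if_pos (by assumption)]
  · simp only [colA]
    rw [if_neg (by assumption)]

theorem Complete_exit (α : Bool → ℕ → Finset ℕ) (a : ℕ → Bool) (v : ℕ) (b : Bool) (i j : ℕ)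
    (s : Bool) : colA φ α a (Lab.blk v b i j (if s then 27 else 26)) =
      if s = true ∧ a v ≠ b then {2} else {1} := by
  obtain ⟨e1, e2, e3, e4⟩ := lcol_in (a v == b) (tapS φ a v b i j) (tapS_ne φ a v b i j)
  cases s
  · simp [colA, e2]
  · simp only [colA, if_true, e4]
    by_cases h : a v = b
    · simp [h]
    · simp [h]

theorem Complete_prevS (α : Bool → ℕ → Finset ℕ) (a : ℕ → Bool) (i j : ℕ)
    (hj : j ≤ (row φ i).length) : colA φ α a (prevS φ i j) = sc φ a i j := by
  unfold prevS
  by_cases h0 : j = 0
  · subst h0
    simp [colA, sc]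
  · rw [if_neg h0]
    have hlt : j - 1 < (row φ i).length := by omega
    rw [List.getElem?_eq_getElem hlt]
    simp only [Option.elim_some, colA, (lcol_tap _ _).2, sc, tapS, Bool.not_not,
      List.getElem?_eq_getElem hlt, Prod.mk.eta, if_true]
    by_cases h1 : j ≤ js φ a i
    · rw [if_pos h1, if_pos (by omega : j - 1 < js φ a i)]
      simp
    · rw [if_neg h1, if_neg (by omega : ¬ j - 1 < js φ a i)]
      split_ifs <;> simp_all

theorem Complete_nextS (α : Bool → ℕ → Finset ℕ) (a : ℕ → Bool) (i j : ℕ)
    (hj : j ≤ (row φ i).length) : colA φ α a (nextS φ i j) = sc φ a i j := by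
  unfold nextS
  rcases Nat.lt_or_ge j (row φ i).length with hlt | hge
  · rw [List.getElem?_eq_getElem hlt]
    simp only [Option.elim_some, colA, (lcol_tap _ _).1, sc, tapS, Bool.not_not,
      List.getElem?_eq_getElem hlt, Prod.mk.eta, if_true]
    by_cases h1 : j < js φ a i
    · rw [if_pos h1, if_pos h1.le]
      simp
    · rw [if_neg h1]
      by_cases h2 : j = js φ a i
      · rw [if_pos h2, if_pos h2.le]
        simp
      · rw [if_neg h2, if_pos rfl, if_neg (by omega)]
  · rw [List.getElem?_eq_none hge]
    simp only [Option.elim_none, colA]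
    rw [if_neg (by decide), if_pos (by decide)]
    congr 1
    omega

/-- The colouring is even at all vertices.

Proof.  By `cnt_hub` it suffices to treat vertices `X` other than the hub, and if no edge ends at
`X` then `cnt` is `0`.  Otherwise use `touched`.
`X = orv v x`: by `cnt_orv` and `Gad.OK.hz`, with `b = !a v`,
`cnt X c = par G (α b) x c - [z b = x] [c ∈ {1,2}] + [z b = x]([c = 1] + [c = 2]) + [z (!b) = x] 2 [c = 1]`
(the edges `src v b s` of the chain which is off have the colours `1` and `2`, those of the chain
which is on, `(v, a v)`, both have colour `1`), which is even.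
`X = u v b 0 0 s` and `X = u v b (nx i j) s`: `cnt_u0`, `cnt_u`; both edges have colour `{1}` if
`s = false` or `a v = b` and `{2}` otherwise (`lcol_in`, `tapS_ne`).
`X = prv v b i j m`: `cnt_prv` and `lcol_even`.
`X = slot i j`: `cnt_slot`; both edges have the colours `sc φ a i j` (`lcol_tap`).
`X = t i`: `cnt_t`; if `js < length` the colours are `{3}`, `{2}`, `{2,3}`, otherwise `{3}`, `{3}`,
`∅`. -/
theorem colA_even (hg : g.OK) (hn : ∀ r ∈ φ, ∀ l ∈ r, l.1 < n) (a : ℕ → Bool)
    (α : Bool → ℕ → Finset ℕ)
    (hα : ∀ b, (∀ v c, Even (g.G.par (α b) v c)) ∧ α b (g.e b) = {1, 2} ∧ α b (g.e !b) = ∅)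
    (X : Vx) (c : ℕ) : Even (cnt g φ n (colA φ α a) X c) := by
  have key : ∀ X, X ≠ Vx.hub → ∀ c, Even (cnt g φ n (colA φ α a) X c) := by
    intro X hX c
    by_cases ht : ∃ l ∈ labs g φ n, ends (ep g φ l) X ≠ 0
    swap
    · push Not at ht
      have : cnt g φ n (colA φ α a) X c = 0 := by
        unfold cnt
        refine Finset.sum_eq_zero fun l hl => ?_
        rw [ht l (List.mem_toFinset.1 hl)]
        simp
      rw [this]
      exact ⟨0, rfl⟩
    · obtain ⟨l, hl, hl0⟩ := ht
      have hrow : ∀ i < φ.length, ∀ l ∈ row φ i, l.1 < n := by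
        intro i hi l hl
        unfold row at hl
        rw [List.getElem?_eq_getElem hi] at hl
        exact hn _ (List.getElem_mem hi) l hl
      rcases touched g φ n hl hn hX hl0 with ⟨v, x, hv, hx, rfl⟩ | ⟨v, b, s, hv, rfl⟩ |
        ⟨v, b, i, j, s, hv, hi, hj, rfl⟩ | ⟨v, b, i, j, m, hv, hi, hj, hm, rfl⟩ |
        ⟨i, j, hi, hj, rfl⟩ | ⟨i, hi, rfl⟩
      · rw [cnt_orv g φ n _ hv hx c]
        have hpar : g.G.par (α (!a v)) x c =
            (∑ k ∈ (Finset.range g.G.length).filter (fun k => k ≠ g.e true ∧ k ≠ g.e false),
              if c ∈ α (!a v) k then g.G.endsAt k x else 0) +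
            ((if c ∈ α (!a v) (g.e true) then g.G.endsAt (g.e true) x else 0) +
             (if c ∈ α (!a v) (g.e false) then g.G.endsAt (g.e false) x else 0)) := by
          unfold WG.par
          have hlen : ∀ b, g.e b < g.G.length := by
            intro b
            by_contra h
            have h2 := hg.wt b
            unfold WG.weight at h2
            rw [List.getElem?_eq_none (not_lt.1 h)] at h2
            simp at h2
          rw [← Finset.sum_filter_add_sum_filter_not (Finset.range g.G.length)
            (fun k => k ≠ g.e true ∧ k ≠ g.e false)]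
          congr 1
          have : (Finset.range g.G.length).filter (fun k => ¬ (k ≠ g.e true ∧ k ≠ g.e false)) =
              {g.e true, g.e false} := by
            ext k
            simp only [Finset.mem_filter, Finset.mem_range, Finset.mem_insert,
              Finset.mem_singleton]
            constructor
            · rintro ⟨_, h⟩
              by_contra h2
              push Not at h2
              exact h h2
            · rintro (rfl | rfl)
              · exact ⟨hlen true, by simp⟩
              · exact ⟨hlen false, by simp⟩
          rw [this, Finset.sum_pair hg.ne]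
        have hev := (hα (!a v)).1 x c
        rw [hpar] at hev
        have h2 := (hα (!a v)).2.1
        have h3 := (hα (!a v)).2.2
        simp only [Fintype.sum_bool]
        have hzt := hg.hz true x hx
        have hzf := hg.hz false x hx
        rw [hzt, hzf] at hev
        cases hav : a v
        · rw [hav] at h2 h3 hev
          simp only [Bool.not_false, Bool.not_true] at h2 h3 hev
          simp only [h2, h3] at hev
          simp only [colA, hav, Bool.not_false]
          generalize hF : (∑ k ∈ (Finset.range g.G.length).filter
            (fun k => k ≠ g.e true ∧ k ≠ g.e false),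
              if c ∈ α true k then g.G.endsAt k x else 0) = F at hev ⊢
          by_cases z1 : g.z true = x <;> by_cases z2 : g.z false = x <;>
            by_cases c1 : c = 1 <;> by_cases c2 : c = 2 <;>
            simp_all [Nat.even_add] <;> grind
        · rw [hav] at h2 h3 hev
          simp only [Bool.not_false, Bool.not_true] at h2 h3 hev
          simp only [h2, h3] at hev
          simp only [colA, hav, Bool.not_true]
          generalize hF : (∑ k ∈ (Finset.range g.G.length).filter
            (fun k => k ≠ g.e true ∧ k ≠ g.e false),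
              if c ∈ α false k then g.G.endsAt k x else 0) = F at hev ⊢
          by_cases z1 : g.z true = x <;> by_cases z2 : g.z false = x <;>
            by_cases c1 : c = 1 <;> by_cases c2 : c = 2 <;>
            simp_all [Nat.even_add] <;> grind
      · rw [cnt_u0 g φ n _ hv c, Complete_nextU]
        exact ⟨_, rfl⟩
      · rw [cnt_u g φ n _ hv hi hj c, Complete_nextU, Complete_exit]
        exact ⟨_, rfl⟩
      · rw [cnt_prv g φ n _ hv hi hj hm c]
        exact lcol_even _ _ m hm c
      · rw [cnt_slot g φ n _ hi hj (hrow i hi) c, Complete_prevS φ α a i j hj,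
          Complete_nextS φ α a i j hj]
        exact ⟨_, rfl⟩
      · rw [cnt_t g φ n _ hi c]
        have hle : js φ a i ≤ (row φ i).length := List.findIdx_le_length
        rcases Nat.lt_or_ge (js φ a i) (row φ i).length with hlt | hge
        · have h1 : ¬ (row φ i).length ≤ js φ a i := by omega
          simp only [colA, sc, if_neg h1, if_pos hlt]
          by_cases c1 : c = 2
          · subst c1
            decide
          · by_cases c2 : c = 3
            · subst c2
              decide
            · simp [c1, c2]
        · have h1 : ¬ js φ a i < (row φ i).length := by omega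
          simp only [colA, sc, if_neg h1, if_pos hge]
          by_cases c2 : c = 3
          · subst c2
            decide
          · simp [c2]
  by_cases hX : X = Vx.hub
  · subst hX
    exact cnt_hub g φ n _ c fun X hX => key X hX c
  · exact key X hX c

/-- Completeness: for every assignment `a` there is a colouring in which only the edges `cl i 2` of
the clauses not satisfied by `a` have too few (namely no) colours. -/
theorem complete (hg : g.OK) (hn : ∀ r ∈ φ, ∀ l ∈ r, l.1 < n) (a : ℕ → Bool) :
    ∃ col : Lab → Finset ℕ, (∀ X c, Even (cnt g φ n col X c)) ∧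
      ∀ l ∈ labs g φ n, (col l).card = (if (ep g φ l).2 then 2 else 1) ∨
        (col l = ∅ ∧ (ep g φ l).2 = true ∧ ∃ i < φ.length, l = Lab.cl i 2 ∧
          ∀ q ∈ row φ i, a q.1 ≠ q.2) := by
  choose α hα using hg.st
  refine ⟨colA φ α a, colA_even g φ n hg hn a α fun b => ⟨(hα b).1, (hα b).2.1, (hα b).2.2.1⟩,
    ?_⟩
  intro l hl
  cases l with
  | or v k =>
    left
    rw [mem_or] at hl
    obtain ⟨hv, hk, h1, h2⟩ := hl
    have hc := (hα (!a v)).2.2.2 k hk (by cases a v <;> assumption) (by cases a v <;> assumption)
    simp only [colA, hc, WG.weight, ep, List.getElem?_eq_getElem hk, Option.elim_some]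
  | src v b s =>
    left
    simp only [colA, ep]
    split_ifs <;> simp_all
  | fin v b s =>
    left
    simp only [colA, ep]
    split_ifs <;> simp_all
  | blk v b i j k =>
    left
    simp only [colA, ep]
    exact lcol_card _ _ _
  | cl i k =>
    rw [mem_cl] at hl
    fin_cases k
    · left
      simp [colA, ep]
    · left
      simp [colA, ep, sc]
      split_ifs <;> simp
    · by_cases h : js φ a i < (row φ i).length
      · left
        simp [colA, ep, h]
      · right
        refine ⟨by simp [colA, h], by simp [ep], i, hl, rfl, ?_⟩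
        have h1 : js φ a i = (row φ i).length :=
          le_antisymm List.findIdx_le_length (not_lt.1 h)
        unfold js at h1
        rw [List.findIdx_eq_length] at h1
        intro q hq
        simpa using h1 q hq

end Pool.Agent.W_c81d44_h82
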