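import Pool.Agent.W_c81d44_h82.Colour

/-!
# Deleting an edge
-/

set_option autoImplicit false

namespace Pool.Agent.W_c81d44_h82

variable {V : Type} [DecidableEq V]

namespace WG

/-- Index in `G` of the edge with index `k` in `G.eraseIdx i`. -/
def up (i k : ℕ) : ℕ := if k < i then k else k + 1

/-- Extend a colouring of `G.eraseIdx i` by giving the edge `i` the set `L`. -/
def ins (i : ℕ) (L : Finset ℕ) (ψ : ℕ → Finset ℕ) (k : ℕ) : Finset ℕ :=
  if k < i then ψ k else if k = i then L else ψ (k - 1)

theorem Erase_up_ne (i k : ℕ) : up i k ≠ i := by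
  unfold up
  split_ifs <;> omega

theorem Erase_up_inj {i k k' : ℕ} (h : up i k = up i k') : k = k' := by
  unfold up at h
  split_ifs at h <;> omega

theorem Erase_up_surj {i j : ℕ} (h : j ≠ i) : ∃ k, up i k = j := by
  refine ⟨if j < i then j else j - 1, ?_⟩
  unfold up
  split_ifs <;> omega

theorem Erase_ins_self (i : ℕ) (L : Finset ℕ) (ψ : ℕ → Finset ℕ) : ins i L ψ i = L := by
  simp [ins]

theorem Erase_ins_up (i : ℕ) (L : Finset ℕ) (ψ : ℕ → Finset ℕ) (k : ℕ) :
    ins i L ψ (up i k) = ψ k := by
  unfold ins up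
  by_cases h : k < i
  · simp [h]
  · have h1 : ¬ k + 1 < i := by omega
    have h2 : k + 1 ≠ i := by omega
    simp [h, h1, h2]

theorem Erase_sum (f : ℕ → ℕ) (n i : ℕ) (hi : i ≤ n) :
    ∑ k ∈ Finset.range (n + 1), f k = ∑ k ∈ Finset.range n, f (up i k) + f i := by
  induction n with
  | zero =>
    have : i = 0 := by omega
    subst this
    simp
  | succ n ih =>
    rw [Finset.sum_range_succ]
    by_cases h : i ≤ n
    · rw [ih h, Finset.sum_range_succ _ n]
      have h1 : up i n = n + 1 := by
        unfold up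
        rw [if_neg (by omega)]
      rw [h1]
      ring
    · have h1 : i = n + 1 := by omega
      subst h1
      congr 1
      refine Finset.sum_congr rfl fun k hk => ?_
      have hk' := Finset.mem_range.mp hk
      unfold up
      rw [if_pos hk']

theorem erase_get (G : WG V) (i k : ℕ) : (G.eraseIdx i)[k]? = G[up i k]? := by
  rw [List.getElem?_eraseIdx, up]
  split_ifs <;> rfl

theorem erase_weight (G : WG V) (i k : ℕ) :
    WG.weight (G.eraseIdx i) k = G.weight (up i k) := by
  rw [weight, weight, erase_get]

theorem erase_crosses (G : WG V) (i k : ℕ) (A : Set V) :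
    WG.Crosses (G.eraseIdx i) A k ↔ G.Crosses A (up i k) := by
  rw [Crosses, Crosses, erase_get]

theorem Erase_endsAt (G : WG V) (i k : ℕ) (v : V) :
    WG.endsAt (G.eraseIdx i) k v = G.endsAt (up i k) v := by
  rw [endsAt, endsAt, erase_get]

theorem Erase_heavy {G : WG V} {i : ℕ} (hi : G.weight i = 2) :
    ∃ h : i < G.length, (G[i]).2 = true := by
  have hlt : i < G.length := by
    by_contra hcon
    rw [weight, List.getElem?_eq_none (by omega)] at hi
    simp at hi
  refine ⟨hlt, ?_⟩
  rw [weight, List.getElem?_eq_getElem hlt] at hi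
  by_contra hcon
  simp [hcon] at hi

/-- Proof: reindex the sum over `k < G.length`, `k ≠ i`, by `up i`. -/
theorem erase_par (G : WG V) (i : ℕ) (hi : i < G.length) (φ : ℕ → Finset ℕ) (v : V) (c : ℕ) :
    G.par φ v c = WG.par (G.eraseIdx i) (fun k => φ (up i k)) v c +
      if c ∈ φ i then G.endsAt i v else 0 := by
  have hlen : (G.eraseIdx i).length = G.length - 1 := List.length_eraseIdx_of_lt hi
  obtain ⟨n, hn⟩ : ∃ n, G.length = n + 1 := ⟨G.length - 1, by omega⟩
  have h1 := Erase_sum (fun k => if c ∈ φ k then G.endsAt k v else 0) n i (by omega)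
  unfold par
  rw [hlen, hn, Nat.add_sub_cancel]
  simp only [Erase_endsAt]
  exact h1

/-- From `erase_par`. -/
theorem ins_par (G : WG V) (i : ℕ) (hi : i < G.length) (L : Finset ℕ) (ψ : ℕ → Finset ℕ) (v : V)
    (c : ℕ) :
    G.par (ins i L ψ) v c = WG.par (G.eraseIdx i) ψ v c + if c ∈ L then G.endsAt i v else 0 := by
  rw [erase_par G i hi]
  congr 2
  · funext k
    exact Erase_ins_up i L ψ k
  · rw [Erase_ins_self]

/-- A heavy loop can be added: colour it with two arbitrary colours. -/
theorem col_of_loop (G : WG V) (i : ℕ) (v : V) (hi : G[i]? = some ((v, v), true))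
    (h : WG.Col (G.eraseIdx i)) : G.Col := by
  obtain ⟨ψ, h1, h2⟩ := h
  have hlt : i < G.length := by
    by_contra hcon
    rw [List.getElem?_eq_none (by omega)] at hi
    exact absurd hi (by simp)
  have hlen : (G.eraseIdx i).length = G.length - 1 := List.length_eraseIdx_of_lt hlt
  refine ⟨ins i {0, 1} ψ, fun k hk => ?_, fun u c => ?_⟩
  · by_cases hki : k = i
    · subst hki
      rw [Erase_ins_self, weight, hi]
      rfl
    · obtain ⟨k', hk'⟩ := Erase_up_surj hki
      rw [← hk', Erase_ins_up, ← erase_weight]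
      apply h1
      rw [hlen]
      have h3 : up i k' < G.length := by rw [hk']; exact hk
      unfold up at h3
      split_ifs at h3 <;> omega
  · rw [ins_par G i hlt]
    refine Even.add (h2 u c) ?_
    split_ifs
    · rw [endsAt, hi]
      simp only [Option.elim_some, ends]
      split_ifs <;> decide
    · exact Even.zero

/-- The number of heavy edges. -/
def heavy (G : WG V) : ℕ := G.countP (fun e => e.2)

theorem heavy_erase (G : WG V) (i : ℕ) (hi : G.weight i = 2) :
    heavy (G.eraseIdx i) + 1 = heavy G := by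
  obtain ⟨hlt, he⟩ := Erase_heavy hi
  have h1 : (G[i] :: G.eraseIdx i).Perm G := List.getElem_cons_eraseIdx_perm hlt
  unfold heavy
  rw [← h1.countP_eq, List.countP_cons, if_pos he]

/-- Deleting a heavy edge keeps the weight eulerian (reindex the sum). -/
theorem erase_eulerian (G : WG V) (i : ℕ) (hi : G.weight i = 2) (hE : G.Eulerian) :
    WG.Eulerian (G.eraseIdx i) := by
  intro v
  obtain ⟨hlt, he⟩ := Erase_heavy hi
  have hlen : (G.eraseIdx i).length = G.length - 1 := List.length_eraseIdx_of_lt hlt
  obtain ⟨n, hn⟩ : ∃ n, G.length = n + 1 := ⟨G.length - 1, by omega⟩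
  have h1 := Erase_sum (fun k => if G.weight k = 1 then G.endsAt k v else 0) n i (by omega)
  have h2 := hE v
  rw [Finset.sum_filter, hn, h1, if_neg (by omega), add_zero] at h2
  rw [Finset.sum_filter, hlen, hn, Nat.add_sub_cancel]
  simp only [Erase_endsAt, erase_weight]
  exact h2

/-- Deleting a heavy edge does not change the edges of weight `1`. -/
theorem erase_lightConnected (G : WG V) (i : ℕ) (hi : G.weight i = 2) (hL : G.LightConnected) :
    WG.LightConnected (G.eraseIdx i) := by
  intro A hA
  have h1 : ∀ j, G.weight j = 1 → ¬ G.Crosses A j := by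
    intro j hj
    have hji : j ≠ i := by
      rintro rfl
      omega
    obtain ⟨k, rfl⟩ := Erase_up_surj hji
    rw [← erase_crosses]
    apply hA
    rw [erase_weight]
    exact hj
  rcases hL A h1 with h | h
  · exact Or.inl fun e he he2 => h e (List.mem_of_mem_eraseIdx he) he2
  · exact Or.inr fun e he he2 => h e (List.mem_of_mem_eraseIdx he) he2

/-- If `G` is bridgeless and the edge `i` is in no 2-edge-cut, then `G - i` is bridgeless. -/
theorem erase_bridgeless (G : WG V) (i : ℕ) (hi : i < G.length) (hB : G.Bridgeless)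
    (h2 : ∀ (A : Set V) (j : ℕ), j ≠ i → ¬ ∀ k, G.Crosses A k ↔ (k = i ∨ k = j)) :
    WG.Bridgeless (G.eraseIdx i) := by
  intro A k0 hk0
  have h1 : ∀ j, j ≠ i → (G.Crosses A j ↔ j = up i k0) := by
    intro j hji
    obtain ⟨k, rfl⟩ := Erase_up_surj hji
    rw [← erase_crosses, hk0 k]
    constructor
    · rintro rfl
      rfl
    · intro h
      exact Erase_up_inj h
  by_cases hi2 : G.Crosses A i
  · refine h2 A (up i k0) (Erase_up_ne i k0) (fun k => ?_)
    by_cases hki : k = i
    · subst hki
      simp [hi2]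
    · rw [h1 k hki]
      simp [hki]
  · refine hB A (up i k0) (fun k => ?_)
    by_cases hki : k = i
    · subst hki
      exact ⟨fun h => absurd h hi2, fun h => absurd h.symm (Erase_up_ne k k0)⟩
    · exact h1 k hki

end WG
end Pool.Agent.W_c81d44_h82
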