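import Pool.Agent.W_c81d44_h82.Colour

set_option autoImplicit false

namespace Pool.Agent.W_c81d44_h82

variable {V : Type} [DecidableEq V]

/-- The finite set of all ends of edges. -/
def allEnds (G : WG V) : Finset V :=
  (G.map (fun e => e.1.1)).toFinset ∪ (G.map (fun e => e.1.2)).toFinset

theorem sum_ends (e : (V × V) × Bool) (B : Finset V) :
    ∑ v ∈ B, ends e v = (if e.1.1 ∈ B then 1 else 0) + (if e.1.2 ∈ B then 1 else 0) := by
  unfold ends
  rw [Finset.sum_add_distrib]
  simp

theorem left_mem_allEnds {G : WG V} {e : (V × V) × Bool} (he : e ∈ G) : e.1.1 ∈ allEnds G := by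
  unfold allEnds
  refine Finset.mem_union_left _ ?_
  rw [List.mem_toFinset]
  exact List.mem_map.2 ⟨e, he, rfl⟩

theorem right_mem_allEnds {G : WG V} {e : (V × V) × Bool} (he : e ∈ G) : e.1.2 ∈ allEnds G := by
  unfold allEnds
  refine Finset.mem_union_right _ ?_
  rw [List.mem_toFinset]
  exact List.mem_map.2 ⟨e, he, rfl⟩

theorem sum_par (G : WG V) (φ : ℕ → Finset ℕ) (c : ℕ) (B : Finset V) :
    ∑ v ∈ B, G.par φ v c =
      ∑ i ∈ Finset.range G.length, if c ∈ φ i then ∑ v ∈ B, G.endsAt i v else 0 := by
  unfold WG.par
  rw [Finset.sum_comm]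
  refine Finset.sum_congr rfl fun i _ => ?_
  split_ifs with h
  · rfl
  · simp

open scoped Classical in
/-- Cut parity.  If colour `c` is even at all vertices of `A`, then the number of edges of colour
`c` between `A` and its complement is even.

Proof.  Let `B` be the finite set of all ends of edges that lie in `A`.  Then
`∑_{v ∈ B} par φ v c = ∑_{i < G.length, c ∈ φ i} ∑_{v ∈ B} endsAt i v`, and the inner sum is `2`,
`1` or `0` according to whether two, one or none of the two ends of the edge `i` are in `A`; it is
`1` iff `Crosses A i`.  The left side is even. -/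
theorem even_cut (G : WG V) (φ : ℕ → Finset ℕ) (c : ℕ) (A : Set V)
    (H : ∀ v ∈ A, Even (G.par φ v c)) :
    Even ((Finset.range G.length).filter (fun i => c ∈ φ i ∧ G.Crosses A i)).card := by
  have h1 : Even (∑ v ∈ (allEnds G).filter (fun v => v ∈ A), G.par φ v c) := by
    refine Finset.even_sum _ ?_
    intro v hv
    exact H v (Finset.mem_filter.1 hv).2
  rw [sum_par] at h1
  rw [← ZMod.natCast_eq_zero_iff_even] at h1 ⊢
  rw [Finset.card_filter]
  rw [← h1]
  rw [Nat.cast_sum, Nat.cast_sum]
  refine Finset.sum_congr rfl fun i hi => ?_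
  have hi' : i < G.length := Finset.mem_range.1 hi
  by_cases hc : c ∈ φ i
  · simp only [hc, true_and, if_true]
    have he : G[i]? = some G[i] := List.getElem?_eq_getElem hi'
    have hs : ∑ v ∈ (allEnds G).filter (fun v => v ∈ A), G.endsAt i v =
        (if G[i].1.1 ∈ A then 1 else 0) + (if G[i].1.2 ∈ A then 1 else 0) := by
      have : ∀ v, G.endsAt i v = ends G[i] v := by
        intro v
        unfold WG.endsAt
        rw [he]
        rfl
      simp only [this]
      rw [sum_ends]
      have hl := left_mem_allEnds (List.getElem_mem hi')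
      have hr := right_mem_allEnds (List.getElem_mem hi')
      simp only [Finset.mem_filter, hl, hr, true_and]
    rw [hs]
    have hcr : G.Crosses A i ↔ ((G[i].1.1 ∈ A ∧ G[i].1.2 ∉ A) ∨ (G[i].1.1 ∉ A ∧ G[i].1.2 ∈ A)) := by
      unfold WG.Crosses
      rw [he]
      constructor
      · rintro ⟨e, h, h'⟩
        cases h
        exact h'
      · intro h
        exact ⟨_, rfl, h⟩
    by_cases ha : G[i].1.1 ∈ A <;> by_cases hb : G[i].1.2 ∈ A <;>
      simp [hcr, ha, hb] <;> decide
  · simp [hc]

/-- Handshake lemma.  If colour `c` is even at all vertices except possibly `h`, it is even at `h`.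

Proof.  Let `B` be a finite set containing `h` and all ends of all edges.  Then
`∑_{v ∈ B} par φ v c = ∑_{i < G.length, c ∈ φ i} ∑_{v ∈ B} endsAt i v` and every inner sum is `2`;
so `par φ h c` is the difference of an even number and a sum of even numbers. -/
theorem even_of_others (G : WG V) (φ : ℕ → Finset ℕ) (c : ℕ) (h : V)
    (H : ∀ v, v ≠ h → Even (G.par φ v c)) : Even (G.par φ h c) := by
  have h1 : Even (∑ v ∈ insert h (allEnds G), G.par φ v c) := by
    rw [sum_par]
    refine Finset.even_sum _ ?_
    intro i hi
    have hi' : i < G.length := Finset.mem_range.1 hi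
    by_cases hc : c ∈ φ i
    · rw [if_pos hc]
      have he : G[i]? = some G[i] := List.getElem?_eq_getElem hi'
      have : ∀ v, G.endsAt i v = ends G[i] v := by
        intro v
        unfold WG.endsAt
        rw [he]
        rfl
      simp only [this]
      rw [sum_ends]
      have hl := left_mem_allEnds (List.getElem_mem hi')
      have hr := right_mem_allEnds (List.getElem_mem hi')
      rw [if_pos (Finset.mem_insert_of_mem hl), if_pos (Finset.mem_insert_of_mem hr)]
      decide
    · rw [if_neg hc]
      exact Even.zero
  rw [← Finset.add_sum_erase _ _ (Finset.mem_insert_self h (allEnds G))] at h1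
  refine (Nat.even_add.1 h1).2 ?_
  refine Finset.even_sum _ ?_
  intro v hv
  exact H v (Finset.ne_of_mem_erase hv)

open scoped Classical in
/-- In a graph with eulerian weight every cut contains an even number of edges of weight `1`.

Proof.  `even_cut` for `φ i = {0}` if `weight i = 1` and `∅` otherwise, `c = 0`. -/
theorem even_light_cut (G : WG V) (hE : G.Eulerian) (A : Set V) :
    Even ((Finset.range G.length).filter (fun i => G.weight i = 1 ∧ G.Crosses A i)).card := by
  have hmem : ∀ i, 0 ∈ (fun i => if G.weight i = 1 then ({0} : Finset ℕ) else ∅) i ↔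
      G.weight i = 1 := by
    intro i
    by_cases h : G.weight i = 1 <;> simp [h]
  have := even_cut G (fun i => if G.weight i = 1 then ({0} : Finset ℕ) else ∅) 0 A ?_
  · simpa only [hmem] using this
  · intro v _
    have h2 := hE v
    rw [Finset.sum_filter] at h2
    unfold WG.par
    simpa only [hmem] using h2

end Pool.Agent.W_c81d44_h82
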