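import Pool.Agent.W_c81d44_h82.MapV
import Pool.Agent.W_c81d44_h82.Erase
import Pool.Agent.W_c81d44_h82.Hand

/-!
# Contracting an edge of a 2-edge-cut
-/

set_option autoImplicit false

namespace Pool.Agent.W_c81d44_h82

variable {V : Type} [DecidableEq V]

namespace WG

/-- Contract the edge `j` with ends `x`, `y`: delete it and identify `y` with `x`. -/
def contract (G : WG V) (j : ℕ) (x y : V) : WG V :=
  mapV (fun v => if v = y then x else v) (G.eraseIdx j)

theorem ctr_up_lt {j m : ℕ} (h : m < j) : up j m = m := by
  unfold up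
  rw [if_pos h]

theorem ctr_up_ge {j m : ℕ} (h : j ≤ m) : up j m = m + 1 := by
  unfold up
  rw [if_neg (by omega)]

theorem ctr_up_ne (j k : ℕ) : up j k ≠ j := by
  unfold up
  split_ifs <;> omega

theorem ctr_exists_up {j m : ℕ} (h : m ≠ j) : ∃ k, up j k = m := by
  rcases lt_or_gt_of_ne h with h' | h'
  · exact ⟨m, ctr_up_lt h'⟩
  · refine ⟨m - 1, ?_⟩
    rw [ctr_up_ge (by omega)]
    omega

theorem ctr_up_inj {j k l : ℕ} (h : up j k = up j l) : k = l := by
  unfold up at h
  split_ifs at h <;> omega

theorem ctr_ins_up (j : ℕ) (L : Finset ℕ) (ψ : ℕ → Finset ℕ) (k : ℕ) : ins j L ψ (up j k) = ψ k := by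
  unfold ins up
  split_ifs <;> first | rfl | (exfalso; omega)

theorem ctr_ins_self (j : ℕ) (L : Finset ℕ) (ψ : ℕ → Finset ℕ) : ins j L ψ j = L := by
  unfold ins
  rw [if_neg (lt_irrefl _), if_pos rfl]

open scoped Classical in
/-- Cut parity, general form. -/
theorem cut_sum (G : WG V) (φ : ℕ → Finset ℕ) (c : ℕ) (A : Set V) :
    Even (∑ v ∈ (allEnds G).filter (fun v => v ∈ A), G.par φ v c) ↔
    Even ((Finset.range G.length).filter (fun i => c ∈ φ i ∧ G.Crosses A i)).card := by
  rw [sum_par]
  rw [← ZMod.natCast_eq_zero_iff_even, ← ZMod.natCast_eq_zero_iff_even]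
  rw [Finset.card_filter]
  rw [Nat.cast_sum, Nat.cast_sum]
  refine Eq.congr (Finset.sum_congr rfl fun i hi => ?_) rfl
  have hi' : i < G.length := Finset.mem_range.1 hi
  by_cases hc : c ∈ φ i
  · simp only [hc, true_and, if_true]
    have he : G[i]? = some G[i] := List.getElem?_eq_getElem hi'
    have hs : ∑ v ∈ (allEnds G).filter (fun v => v ∈ A), G.endsAt i v =
        (if G[i].1.1 ∈ A then 1 else 0) + (if G[i].1.2 ∈ A then 1 else 0) := by
      have : ∀ v, G.endsAt i v = ends G[i] v := by
        intro v
        unfold WG.endsAt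
        rw [he]
        rfl
      simp only [this]
      rw [sum_ends]
      have hl := left_mem_allEnds (List.getElem_mem hi')
      have hr := right_mem_allEnds (List.getElem_mem hi')
      simp only [Finset.mem_filter, hl, hr, true_and]
    rw [hs]
    have hcr : G.Crosses A i ↔ ((G[i].1.1 ∈ A ∧ G[i].1.2 ∉ A) ∨ (G[i].1.1 ∉ A ∧ G[i].1.2 ∈ A)) := by
      unfold WG.Crosses
      rw [he]
      constructor
      · rintro ⟨e, h, h'⟩
        cases h
        exact h'
      · intro h
        exact ⟨_, rfl, h⟩
    by_cases ha : G[i].1.1 ∈ A <;> by_cases hb : G[i].1.2 ∈ A <;>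
      simp [hcr, ha, hb]
    decide
  · simp [hc]

/-- Cut parity with one exceptional vertex. -/
theorem even_exc (G : WG V) (φ : ℕ → Finset ℕ) (c : ℕ) (A : Set V) (x : V) (hx : x ∈ A)
    (H : ∀ v ∈ A, v ≠ x → Even (G.par φ v c)) (i j : ℕ) (hij : i ≠ j)
    (hA : ∀ k, G.Crosses A k ↔ (k = i ∨ k = j)) (hφ : φ i = φ j)
    (hxe : x ∈ allEnds G) :
    Even (G.par φ x c) := by
  classical
  have h1 := cut_sum G φ c A
  have hi : i < G.length := by
    obtain ⟨e, he, -⟩ := (hA i).2 (Or.inl rfl)
    exact (List.getElem?_eq_some_iff.1 he).1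
  have hj : j < G.length := by
    obtain ⟨e, he, -⟩ := (hA j).2 (Or.inr rfl)
    exact (List.getElem?_eq_some_iff.1 he).1
  have h2 : Even ((Finset.range G.length).filter (fun k => c ∈ φ k ∧ G.Crosses A k)).card := by
    by_cases hc : c ∈ φ j
    · have : (Finset.range G.length).filter (fun k => c ∈ φ k ∧ G.Crosses A k) = {i, j} := by
        ext k
        simp only [Finset.mem_filter, Finset.mem_range, hA, Finset.mem_insert,
          Finset.mem_singleton]
        constructor
        · exact fun h => h.2.2
        · rintro (rfl | rfl)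
          · exact ⟨hi, hφ ▸ hc, Or.inl rfl⟩
          · exact ⟨hj, hc, Or.inr rfl⟩
      rw [this, Finset.card_pair hij]
      decide
    · have : (Finset.range G.length).filter (fun k => c ∈ φ k ∧ G.Crosses A k) = ∅ := by
        ext k
        simp only [Finset.mem_filter, Finset.mem_range, hA, Finset.notMem_empty, iff_false]
        rintro ⟨-, h, (rfl | rfl)⟩
        · exact hc (hφ ▸ h)
        · exact hc h
      rw [this]
      simp
  have h3 := h1.2 h2
  rw [← Finset.add_sum_erase _ _ (Finset.mem_filter.2 ⟨hxe, hx⟩ :
    x ∈ (allEnds G).filter (fun v => v ∈ A))] at h3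
  refine (Nat.even_add.1 h3).2 ?_
  refine Finset.even_sum _ ?_
  intro v hv
  exact H v (Finset.mem_filter.1 (Finset.mem_of_mem_erase hv)).2 (Finset.ne_of_mem_erase hv)

theorem crosses_compl (G : WG V) (A : Set V) (k : ℕ) : G.Crosses Aᶜ k ↔ G.Crosses A k := by
  unfold Crosses
  refine exists_congr fun e => and_congr_right fun _ => ?_
  simp only [Set.mem_compl_iff, not_not]
  tauto

/-- If `{i, j}` is an edge cut, `j` has the ends `x ≠ y` and `G / j` has a colouring, so has `G`.

Proof.  Let `ψ` be a colouring of `contract G j x y` and let `i'` be the index of the edge `i` in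
`G.eraseIdx j` (`up j i' = i`).  Put `L = ψ i'` and `φ = ins j L ψ`.  Its cardinalities are right
because the weights of `i` and `j` are equal.  Let `c` be a colour.  For `v ∉ {x, y}` we have
`par G φ v c = par (G.eraseIdx j) ψ v c = par (contract G j x y) ψ v c` (`ins_par`, `par_ident`,
`G.endsAt j v = 0`), which is even.  It remains to treat `x` and `y`; exactly one of them is in
`A`, say `x` (otherwise exchange `x` and `y`, or `A` and its complement).  Here
`par G φ x c + par G φ y c = par (contract G j x y) ψ x c + 2 * [c ∈ L]` is even, so it suffices to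
show that `par G φ x c` is even.  Suppose not.  By the cut parity lemma applied to the graph
`G.eraseIdx j`, colour `c`: the number of edges `k` of `G - j` with `c ∈ ψ k` and crossing `A` has
the parity of `∑_{v ∈ A} par (G.eraseIdx j) ψ v c`, hence of `par (G.eraseIdx j) ψ x c`; the only
edge of `G - j` crossing `A` is `i'`, so this parity is `[c ∈ ψ i'] = [c ∈ L]`, and
`par G φ x c = par (G.eraseIdx j) ψ x c + [c ∈ L]` is even.  (Formally: `even_cut` needs evenness at
all vertices of `A`; apply it to `G`, with the colouring `φ`, to the set `A \ {x}` if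
convenient, or prove the needed identity directly, or use `even_of_others`-like arguments: another
way to see it is to apply `even_cut` to `G` with the colouring `φ` and to argue by contradiction
with the vertex `x` replaced: the number of crossing edges of colour `c` of the cut `A` in `G` is
`2 * [c ∈ L]`, even, and it has the same parity as `∑_{v ∈ A} par G φ v c ≡ par G φ x c`.) -/
theorem col_of_contract (G : WG V) (i j : ℕ) (hij : i ≠ j) (A : Set V)
    (hA : ∀ k, G.Crosses A k ↔ (k = i ∨ k = j)) (hw : G.weight i = G.weight j) (x y : V)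
    (hj : ∃ w, G[j]? = some ((x, y), w)) (h : (contract G j x y).Col) : G.Col := by
  obtain ⟨ψ, hψ1, hψ2⟩ := h
  obtain ⟨w, hjw⟩ := hj
  have hjl : j < G.length := (List.getElem?_eq_some_iff.1 hjw).1
  have hil : i < G.length := by
    obtain ⟨e, he, -⟩ := (hA i).2 (Or.inl rfl)
    exact (List.getElem?_eq_some_iff.1 he).1
  have hlen : (contract G j x y).length = G.length - 1 := by
    unfold contract
    rw [length_mapV, List.length_eraseIdx_of_lt hjl]
  obtain ⟨i', hi'⟩ := ctr_exists_up hij
  have hcard : ∀ k < G.length, (ins j (ψ i') ψ k).card = G.weight k := by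
    have key : ∀ k, up j k < G.length → (ψ k).card = G.weight (up j k) := by
      intro k hk
      have hk' : k < (contract G j x y).length := by
        rw [hlen]
        unfold up at hk
        split_ifs at hk <;> omega
      rw [hψ1 k hk']
      unfold contract
      rw [weight_mapV, erase_weight]
    intro k hk
    by_cases hkj : k = j
    · subst hkj
      rw [ctr_ins_self, key i' (hi' ▸ hil), hi', hw]
    · obtain ⟨m, rfl⟩ := ctr_exists_up hkj
      rw [ctr_ins_up]
      exact key m hk
  have hjA : (x ∈ A ∧ y ∉ A) ∨ (x ∉ A ∧ y ∈ A) := by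
    obtain ⟨e, he, h'⟩ := (hA j).2 (Or.inr rfl)
    rw [hjw] at he
    cases he
    exact h'
  have hxy : x ≠ y := by
    rintro rfl
    tauto
  have hend : ∀ v, G.endsAt j v = (if x = v then 1 else 0) + (if y = v then 1 else 0) := by
    intro v
    unfold endsAt
    rw [hjw]
    rfl
  have hmem : ((x, y), w) ∈ G := List.mem_of_getElem? hjw
  have hxe : x ∈ allEnds G := left_mem_allEnds hmem
  have hye : y ∈ allEnds G := right_mem_allEnds hmem
  refine ⟨ins j (ψ i') ψ, hcard, ?_⟩
  intro v c
  have hoth : ∀ v, v ≠ x → v ≠ y → Even (G.par (ins j (ψ i') ψ) v c) := by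
    intro v hvx hvy
    rw [ins_par G j hjl, hend, if_neg (Ne.symm hvx), if_neg (Ne.symm hvy)]
    have h1 := hψ2 v c
    unfold contract at h1
    rw [(par_ident (G.eraseIdx j) x y hxy ψ c).2 v hvx hvy] at h1
    simpa using h1
  have hsum : Even (G.par (ins j (ψ i') ψ) x c + G.par (ins j (ψ i') ψ) y c) := by
    rw [ins_par G j hjl, ins_par G j hjl, hend, hend]
    have h1 := hψ2 x c
    unfold contract at h1
    rw [(par_ident (G.eraseIdx j) x y hxy ψ c).1] at h1
    rw [if_pos rfl, if_neg (Ne.symm hxy), if_neg hxy, if_pos rfl]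
    split_ifs
    · have : WG.par (G.eraseIdx j) ψ x c + (1 + 0) + (WG.par (G.eraseIdx j) ψ y c + (0 + 1)) =
        WG.par (G.eraseIdx j) ψ x c + WG.par (G.eraseIdx j) ψ y c + 2 := by ring
      rw [this]
      exact h1.add (by decide)
    · simpa using h1
  have hφ : ins j (ψ i') ψ i = ins j (ψ i') ψ j := by
    rw [ctr_ins_self, ← hi', ctr_ins_up]
  have hx : Even (G.par (ins j (ψ i') ψ) x c) := by
    rcases hjA with ⟨hxA, hyA⟩ | ⟨hxA, hyA⟩
    · refine even_exc G _ c A x hxA ?_ i j hij hA hφ hxe
      intro v hv hvx
      exact hoth v hvx (fun h => hyA (h ▸ hv))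
    · refine even_exc G _ c Aᶜ x hxA ?_ i j hij ?_ hφ hxe
      · intro v hv hvx
        exact hoth v hvx (fun h => hv (h ▸ hyA))
      · intro k
        rw [crosses_compl]
        exact hA k
  by_cases hvx : v = x
  · rw [hvx]
    exact hx
  · by_cases hvy : v = y
    · rw [hvy]
      exact (Nat.even_add.1 hsum).1 hx
    · exact hoth v hvx hvy

/-- In a graph with eulerian weight, the edges of a 2-edge-cut have the same weight.

Proof.  `even_light_cut`: the number of edges of weight `1` in the cut `{i, j}` is even; the
weights of edges are `1` or `2` (both edges exist since they cross `A`). -/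
theorem weight_eq_of_cut (G : WG V) (hE : G.Eulerian) (i j : ℕ) (hij : i ≠ j) (A : Set V)
    (hA : ∀ k, G.Crosses A k ↔ (k = i ∨ k = j)) : G.weight i = G.weight j := by
  classical
  have h := even_light_cut G hE A
  have hi : i < G.length := by
    obtain ⟨e, he, -⟩ := (hA i).2 (Or.inl rfl)
    exact (List.getElem?_eq_some_iff.1 he).1
  have hj : j < G.length := by
    obtain ⟨e, he, -⟩ := (hA j).2 (Or.inr rfl)
    exact (List.getElem?_eq_some_iff.1 he).1
  have hw : ∀ k, k < G.length → G.weight k = 1 ∨ G.weight k = 2 := by
    intro k hk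
    unfold weight
    rw [List.getElem?_eq_getElem hk]
    simp only [Option.elim_some]
    by_cases hb : G[k].2 = true
    · right
      rw [if_pos hb]
    · left
      rw [if_neg hb]
  have main : ∀ a b : ℕ, a < G.length → (∀ k, G.Crosses A k ↔ (k = a ∨ k = b)) →
      G.weight a = 1 → G.weight b = 2 → False := by
    intro a b ha hA' h1 h2
    have : (Finset.range G.length).filter (fun i => G.weight i = 1 ∧ G.Crosses A i) = {a} := by
      ext k
      simp only [Finset.mem_filter, Finset.mem_range, hA', Finset.mem_singleton]
      constructor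
      · rintro ⟨-, h3, (h4 | h4)⟩
        · exact h4
        · rw [h4, h2] at h3
          exact absurd h3 (by decide)
      · rintro rfl
        exact ⟨ha, h1, Or.inl rfl⟩
    rw [this, Finset.card_singleton] at h
    exact absurd h (by decide)
  rcases hw i hi with h1 | h1 <;> rcases hw j hj with h2 | h2
  · rw [h1, h2]
  · exact (main i j hi hA h1 h2).elim
  · exact (main j i hj (fun k => by rw [hA k, or_comm]) h2 h1).elim
  · rw [h1, h2]

theorem contract_eulerian (G : WG V) (j : ℕ) (x y : V) (hj : G.weight j = 2) (hE : G.Eulerian) :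
    (contract G j x y).Eulerian := by
  unfold contract
  exact eulerian_mapV _ _ (erase_eulerian G j hj hE)

/-- Contracting an edge keeps a graph bridgeless.

Proof.  If a set `A` had exactly one crossing edge `k` in `contract G j x y`, then the preimage
`B` of `A` under the identification has, in `G`, the crossing edges `up j k` and possibly `j`; but
`j` does not cross `B` because its ends `x`, `y` are identified.  So `G` would not be bridgeless. -/
theorem contract_bridgeless (G : WG V) (j : ℕ) (x y : V) (hj : ∃ w, G[j]? = some ((x, y), w))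
    (hB : G.Bridgeless) : (contract G j x y).Bridgeless := by
  intro A i hi
  obtain ⟨w, hjw⟩ := hj
  refine hB ((fun v => if v = y then x else v) ⁻¹' A) (up j i) ?_
  intro m
  by_cases hm : m = j
  · constructor
    · rintro ⟨e, he, h'⟩
      exfalso
      rw [hm, hjw] at he
      cases he
      have hx : (if x = y then x else x) = x := ite_self x
      simp only [Set.mem_preimage, hx, if_true] at h'
      tauto
    · intro h
      exact absurd (h.symm.trans hm) (ctr_up_ne j i)
  · obtain ⟨k, rfl⟩ := ctr_exists_up hm
    rw [← erase_crosses, ← crosses_mapV]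
    have := hi k
    unfold contract at this
    rw [this]
    constructor
    · rintro rfl
      rfl
    · exact ctr_up_inj

theorem contract_lightConnected (G : WG V) (j : ℕ) (x y : V) (hj : G.weight j = 2)
    (hL : G.LightConnected) : (contract G j x y).LightConnected := by
  unfold contract
  exact lightConnected_mapV _ _ (erase_lightConnected G j hj hL)

end WG
end Pool.Agent.W_c81d44_h82
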