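import Mathlib

/-!
# Bringing an element of a list to the front by adjacent exchanges
-/

set_option autoImplicit false

namespace Pool.Agent.W_c81d44_h82

/-- What arrives at the left end of the list if it is traversed from right to left by a carrier
that always takes along `t` if it meets it. -/
def carry (t : ℕ) : List ℕ → ℕ
  | [] => t
  | [y] => y
  | x :: y :: l => if x = t then t else carry t (y :: l)

/-- What remains in the list. -/
def outs (t : ℕ) : List ℕ → List ℕ
  | [] => []
  | [_] => []
  | x :: y :: l => (if x = t then carry t (y :: l) else x) :: outs t (y :: l)

/-- One level: take the first element `t` of the list and remove from the rest what `carry`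
delivers. -/
def stepL : List ℕ → List ℕ
  | [] => []
  | t :: l => outs t l

/-- Induction on the list. -/
theorem carry_perm (t : ℕ) (l : List ℕ) (hl : l ≠ []) : (carry t l :: outs t l).Perm l := by
  induction l with
  | nil => exact absurd rfl hl
  | cons x l ih =>
    cases l with
    | nil => simp [carry, outs]
    | cons y l =>
      have h := ih (by simp)
      simp only [carry, outs]
      by_cases hx : x = t
      · subst hx
        simp only [if_true]
        exact List.Perm.cons _ h
      · simp only [hx, if_false]
        exact (List.Perm.swap _ _ _).trans (List.Perm.cons _ h)

theorem carry_eq (t : ℕ) (l : List ℕ) (h : t ∈ l) : carry t l = t := by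
  induction l with
  | nil => simp at h
  | cons x l ih =>
    cases l with
    | nil => simp at h; simp [carry, h]
    | cons y l =>
      simp only [carry]
      by_cases hx : x = t
      · simp [hx]
      · simp only [hx, if_false]
        apply ih
        rcases List.mem_cons.1 h with h | h
        · exact absurd h.symm hx
        · exact h

theorem outs_length (t : ℕ) (l : List ℕ) : (outs t l).length = l.length - 1 := by
  induction l with
  | nil => rfl
  | cons x l ih =>
    cases l with
    | nil => rfl
    | cons y l => simp only [outs, List.length_cons, ih]; simp

theorem carry_drop (t : ℕ) (l : List ℕ) (i : ℕ) (h : i + 1 < l.length) :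
    carry t (l.drop i) = if l.getD i 0 = t then t else carry t (l.drop (i + 1)) := by
  have h1 : l.drop i = l.getD i 0 :: l.getD (i + 1) 0 :: l.drop (i + 2) := by
    rw [List.drop_eq_getElem_cons (by omega : i < l.length),
      List.drop_eq_getElem_cons (by omega : i + 1 < l.length)]
    simp [List.getD_eq_getElem?_getD, List.getElem?_eq_getElem (show i < l.length by omega),
      List.getElem?_eq_getElem (show i + 1 < l.length by omega)]
  have h2 : l.drop (i + 1) = l.getD (i + 1) 0 :: l.drop (i + 2) := by
    rw [List.drop_eq_getElem_cons (by omega : i + 1 < l.length)]
    simp [List.getD_eq_getElem?_getD, 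
      List.getElem?_eq_getElem (show i + 1 < l.length by omega)]
  rw [h1, h2]
  simp only [carry]

theorem outs_getD (t : ℕ) (l : List ℕ) (i : ℕ) (h : i + 1 < l.length) :
    (outs t l).getD i 0 = if l.getD i 0 = t then carry t (l.drop (i + 1)) else l.getD i 0 := by
  induction l generalizing i with
  | nil => simp at h
  | cons x l ih =>
    cases l with
    | nil => simp at h
    | cons y l =>
      cases i with
      | zero => simp [outs]
      | succ i =>
        have h3 := ih i (by simpa using h)
        simp only [outs, List.getD_cons_succ, List.drop_succ_cons] at h3 ⊢
        exact h3

/-- All numbers occur an even number of times in `l`. -/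
def EvenL (l : List ℕ) : Prop := ∀ c, Even (l.count c)

/-- If all numbers occur an even number of times in `t :: l` then `t ∈ l`. -/
theorem mem_of_evenL {t : ℕ} {l : List ℕ} (h : EvenL (t :: l)) : t ∈ l := by
  have h1 := h t
  rw [List.count_cons_self] at h1
  by_contra h2
  rw [List.count_eq_zero_of_not_mem h2] at h1
  exact absurd h1 (by decide)

/-- `stepL` removes two copies of the first element (`carry_perm`, `carry_eq`). -/
theorem stepL_evenL {l : List ℕ} (h : EvenL l) : EvenL (stepL l) := by
  cases l with
  | nil => exact h
  | cons t l =>
    have hm := mem_of_evenL h
    intro c
    have h1 := h c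
    have h2 := (carry_perm t l (List.ne_nil_of_mem hm)).count_eq c
    rw [carry_eq t l hm] at h2
    simp only [stepL]
    rw [List.count_cons, ← h2, List.count_cons] at h1
    rw [Nat.even_iff] at h1 ⊢
    split_ifs at h1 <;> omega

theorem stepL_length {l : List ℕ} : (stepL l).length = l.length - 2 := by
  cases l with
  | nil => rfl
  | cons t l => simp only [stepL, outs_length, List.length_cons]; omega

theorem iter_evenL {l : List ℕ} (h : EvenL l) (r : ℕ) : EvenL (stepL^[r] l) := by
  induction r with
  | zero => exact h
  | succ r ih => rw [Function.iterate_succ_apply']; exact stepL_evenL ih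

theorem iter_length {l : List ℕ} (r : ℕ) : (stepL^[r] l).length = l.length - 2 * r := by
  induction r with
  | zero => simp
  | succ r ih => rw [Function.iterate_succ_apply', stepL_length, ih]; omega

end Pool.Agent.W_c81d44_h82
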