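import Pool.Agent.W_c81d44_h82.CubNet

/-!
# The edges at the vertices `P` of the cubic graph, and which vertices occur
-/

set_option autoImplicit false

namespace Pool.Agent.W_c81d44_h82

variable {G : WG ℕ}

/-- The list of strand ends at a vertex has no repetitions. -/
theorem sl_nodup (G : WG ℕ) (v : ℕ) : (sl G v).Nodup := by
  unfold sl
  refine CubNet_nodup _ _ List.nodup_range (fun k _ => ?_) Prod.fst ?_
  · refine CubNet_nodup _ _ (by simp) (fun s _ => ?_) (fun b => b.2.1) ?_
    · split
      · split <;> simp
      · simp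
    · intro s _ b hb
      split at hb
      · split at hb
        · simp only [List.mem_cons, List.not_mem_nil, or_false] at hb
          rcases hb with rfl | rfl <;> rfl
        · simp only [List.mem_cons, List.not_mem_nil, or_false] at hb
          subst hb
          rfl
      · simp at hb
  · intro k _ b hb
    simp only [List.mem_flatMap] at hb
    obtain ⟨s, _, hb⟩ := hb
    split at hb
    · split at hb
      · simp only [List.mem_cons, List.not_mem_nil, or_false] at hb
        rcases hb with rfl | rfl <;> rfl
      · simp only [List.mem_cons, List.not_mem_nil, or_false] at hb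
        subst hb
        rfl
    · simp at hb

/-- The members of the list of strand ends. -/
theorem mem_sl (G : WG ℕ) (v k : ℕ) (s c : Bool) :
    (k, s, c) ∈ sl G v ↔ k < G.length ∧ own G k s = v ∧ (hvy G k = true ∨ c = false) := by
  unfold sl
  simp only [List.mem_flatMap, List.mem_range]
  constructor
  · rintro ⟨k', hk', s', _, h⟩
    split at h
    · rename_i h1
      split at h
      · rename_i h2
        simp only [List.mem_cons, List.not_mem_nil, or_false, Prod.mk.injEq] at h
        rcases h with ⟨rfl, rfl, rfl⟩ | ⟨rfl, rfl, rfl⟩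
        · exact ⟨hk', h1, Or.inl h2⟩
        · exact ⟨hk', h1, Or.inl h2⟩
      · simp only [List.mem_cons, List.not_mem_nil, or_false, Prod.mk.injEq] at h
        rcases h with ⟨rfl, rfl, rfl⟩
        exact ⟨hk', h1, Or.inr rfl⟩
    · simp at h
  · rintro ⟨hk, hs, hc⟩
    refine ⟨k, hk, s, by cases s <;> simp, ?_⟩
    rw [if_pos hs]
    split
    · cases c <;> simp
    · rename_i h2
      rcases hc with hc | hc
      · exact absurd hc h2
      · subst hc
        simp

/-- the strand end at the position `i` -/
theorem CubStar2_get {v i : ℕ} {e : ℕ × Bool × Bool} (he : (sl G v)[i]? = some e) {k : ℕ}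
    {s c : Bool} (hk : k < G.length) (hc : hvy G k = true ∨ c = false) :
    (own G k s = v ∧ pos G k s c = i) ↔ (k, s, c) = e := by
  obtain ⟨hi, he'⟩ := List.getElem?_eq_some_iff.mp he
  constructor
  · rintro ⟨h1, h2⟩
    have hm : (k, s, c) ∈ sl G v := (mem_sl G v k s c).2 ⟨hk, h1, hc⟩
    unfold pos at h2
    rw [h1] at h2
    subst h2
    rw [← he']
    exact (List.getElem_idxOf hi).symm
  · intro h
    have hm : (k, s, c) ∈ sl G v := by
      rw [h, ← he']
      exact List.getElem_mem hi
    have h1 := ((mem_sl G v k s c).1 hm).2.1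
    refine ⟨h1, ?_⟩
    unfold pos
    rw [h1, h, ← he']
    exact (sl_nodup G v).idxOf_getElem i hi

/-- First vertex of a wire `P v r i`: the two edges of the wire and `prevP`.

For `r > 0` it is the output edge `5` of the comparator `(v, r - 1, i + 1)`.  For `r = 0` let
`(k, s, c)` be the `i`-th strand end at `v`; then `own G k s = v`, `pos G k s c = i` (the list has
no repetitions), and the edge is `st k s c` if `k` is heavy and `lt k` if `k` is light (then
`c = false`); the other end of `lt k` is a different vertex: it belongs to the strand end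
`(k, !s, false)`, which is at another vertex or at another position. -/
theorem star_P1 {v r i : ℕ} (hv : v ∈ vs G) (h1 : 2 * r + 2 ≤ nn G v) (h2 : 2 * r + i < nn G v) :
    Star3 G (.P v r i false) (.p v r i true) (.p v r i false) (prevP G v r i) := by
  rcases Nat.eq_zero_or_pos r with hr | hr
  · subst hr
    obtain ⟨⟨k, s, c⟩, he⟩ : ∃ e, (sl G v)[i]? = some e :=
      ⟨_, List.getElem?_eq_getElem (show i < (sl G v).length by unfold nn at h2; omega)⟩
    have hm : (k, s, c) ∈ sl G v := List.mem_of_getElem? he
    obtain ⟨hk, hown, hc⟩ := (mem_sl G v k s c).1 hm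
    have hlt : ∀ k', Cl.lt k' ∈ labs2 G → ends (ep2 G (Cl.lt k')) (Cx.P v 0 i false) =
        (if (k', false, false) = (k, s, c) then 1 else 0) +
        (if (k', true, false) = (k, s, c) then 1 else 0) := by
      intro k' hk'
      rw [mem_lt2] at hk'
      unfold ends ep2
      simp only [Cx.P.injEq, true_and, and_true]
      congr 1
      · exact if_congr (CubStar2_get he hk'.1 (Or.inr rfl)) rfl rfl
      · exact if_congr (CubStar2_get he hk'.1 (Or.inr rfl)) rfl rfl
    have hst : ∀ k' s' c', Cl.st k' s' c' ∈ labs2 G →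
        ends (ep2 G (Cl.st k' s' c')) (Cx.P v 0 i false) =
        (if (k', s', c') = (k, s, c) then 1 else 0) := by
      intro k' s' c' hk'
      rw [mem_st2] at hk'
      unfold ends ep2
      simp only [Cx.P.injEq, true_and, and_true, reduceCtorEq, if_false, zero_add]
      exact if_congr (CubStar2_get he (CubNet_lt_of_hvy G k' hk') (Or.inl hk')) rfl rfl
    by_cases hh : hvy G k = true
    · have hprev : prevP G v 0 i = Cl.st k s c := by
        unfold prevP
        rw [if_pos rfl, he]
        simp [hh]
      rw [hprev]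
      refine ⟨?_, ?_, ?_, by simp, by simp, by simp, rfl, rfl, rfl, ?_⟩
      · rw [mem_p2]; exact ⟨hv, h1, h2⟩
      · rw [mem_p2]; exact ⟨hv, h1, h2⟩
      · rw [mem_st2]; exact hh
      intro l hl
      cases l with
      | lt k' =>
        rw [hlt k' hl]
        have hk' := (mem_lt2 G k').1 hl
        have hne : k' ≠ k := by
          rintro rfl
          rw [hh] at hk'
          exact absurd hk'.2 (by simp)
        simp [hne]
      | hv k' => simp [ends, ep2]
      | st k' s' c' =>
        rw [hst k' s' c' hl]
        simp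
      | p v' r' i' h' =>
        cases h' <;> simp [ends, ep2]
      | q v' r' i' h' => simp [ends, ep2]
      | c v' r' i' j =>
        rw [mem_c2] at hl
        fin_cases j <;> simp [ends, ep2, ctbl]
      | tail v' r' => simp [ends, ep2]
      | cap v' r' => simp [ends, ep2]
    · have hcf : c = false := by
        rcases hc with hc | hc
        · exact absurd hc hh
        · exact hc
      subst hcf
      have hprev : prevP G v 0 i = Cl.lt k := by
        unfold prevP
        rw [if_pos rfl, he]
        simp [hh]
      rw [hprev]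
      refine ⟨?_, ?_, ?_, by simp, by simp, by simp, rfl, rfl, rfl, ?_⟩
      · rw [mem_p2]; exact ⟨hv, h1, h2⟩
      · rw [mem_p2]; exact ⟨hv, h1, h2⟩
      · rw [mem_lt2]; exact ⟨hk, by simpa using hh⟩
      intro l hl
      cases l with
      | lt k' =>
        rw [hlt k' hl]
        cases s <;> simp
      | hv k' => simp [ends, ep2]
      | st k' s' c' =>
        rw [hst k' s' c' hl]
        have hk' := (mem_st2 G k' s' c').1 hl
        have hne : k' ≠ k := by
          rintro rfl
          exact hh hk'
        simp [hne]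
      | p v' r' i' h' =>
        cases h' <;> simp [ends, ep2]
      | q v' r' i' h' => simp [ends, ep2]
      | c v' r' i' j =>
        rw [mem_c2] at hl
        fin_cases j <;> simp [ends, ep2, ctbl]
      | tail v' r' => simp [ends, ep2]
      | cap v' r' => simp [ends, ep2]
  · have hprev : prevP G v r i = Cl.c v (r - 1) (i + 1) 5 := by
      unfold prevP
      rw [if_neg (by omega)]
    rw [hprev]
    refine ⟨?_, ?_, ?_, by simp, by simp, by simp, rfl, rfl, rfl, ?_⟩
    · rw [mem_p2]; exact ⟨hv, h1, h2⟩
    · rw [mem_p2]; exact ⟨hv, h1, h2⟩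
    · rw [mem_c2]; exact ⟨hv, by omega, by omega⟩
    intro l hl
    cases l with
    | lt k' =>
      have : (0 : ℕ) ≠ r := by omega
      simp [ends, ep2, this]
    | hv k' => simp [ends, ep2]
    | st k' s' c' =>
      have : (0 : ℕ) ≠ r := by omega
      simp [ends, ep2, this]
    | p v' r' i' h' =>
      cases h' <;> simp [ends, ep2]
    | q v' r' i' h' => simp [ends, ep2]
    | c v' r' i' j =>
      rw [mem_c2] at hl
      fin_cases j <;> simp [ends, ep2, ctbl]
      have hiff : (v' = v ∧ r' + 1 = r ∧ i' - 1 = i) ↔ (v' = v ∧ r' = r - 1 ∧ i' = i + 1) := by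
        constructor
        · rintro ⟨a, b, c⟩; exact ⟨a, by omega, by omega⟩
        · rintro ⟨a, b, c⟩; exact ⟨a, by omega, by omega⟩
      exact if_congr hiff rfl rfl
    | tail v' r' => simp [ends, ep2]
    | cap v' r' => simp [ends, ep2]

/-- Second vertex of a wire `P v r i`: the two edges of the wire and `nextP`. -/
theorem star_P2 {v r i : ℕ} (hv : v ∈ vs G) (h1 : 2 * r + 2 ≤ nn G v) (h2 : 2 * r + i < nn G v) :
    Star3 G (.P v r i true) (.p v r i true) (.p v r i false) (nextP G v r i) := by
  by_cases hi0 : i = 0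
  · subst hi0
    have hnext : nextP G v r 0 = Cl.cap v r := by
      unfold nextP
      rw [if_pos rfl]
    rw [hnext]
    refine ⟨?_, ?_, ?_, by simp, by simp, by simp, rfl, rfl, rfl, ?_⟩
    · rw [mem_p2]; exact ⟨hv, h1, h2⟩
    · rw [mem_p2]; exact ⟨hv, h1, h2⟩
    · rw [mem_cap2]; exact ⟨hv, h1⟩
    intro l hl
    cases l with
    | lt k' => simp [ends, ep2]
    | hv k' => simp [ends, ep2]
    | st k' s' c' => simp [ends, ep2]
    | p v' r' i' h' => cases h' <;> simp [ends, ep2]
    | q v' r' i' h' => simp [ends, ep2]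
    | c v' r' i' j =>
      rw [mem_c2] at hl
      fin_cases j <;> simp [ends, ep2, ctbl]
      omega
    | tail v' r' =>
      rw [mem_tail2] at hl
      have hne : ¬ (v' = v ∧ r' = r ∧ nn G v' - 2 * r' - 1 = 0) := by
        rintro ⟨a, b, c⟩
        omega
      simp [ends, ep2, hne]
    | cap v' r' => simp [ends, ep2]
  · by_cases hi1 : i = nn G v - 2 * r - 1
    · have hnext : nextP G v r i = Cl.tail v r := by
        unfold nextP
        rw [if_neg hi0, if_pos hi1]
      rw [hnext]
      refine ⟨?_, ?_, ?_, by simp, by simp, by simp, rfl, rfl, rfl, ?_⟩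
      · rw [mem_p2]; exact ⟨hv, h1, h2⟩
      · rw [mem_p2]; exact ⟨hv, h1, h2⟩
      · rw [mem_tail2]; exact ⟨hv, h1⟩
      intro l hl
      cases l with
      | lt k' => simp [ends, ep2]
      | hv k' => simp [ends, ep2]
      | st k' s' c' => simp [ends, ep2]
      | p v' r' i' h' => cases h' <;> simp [ends, ep2]
      | q v' r' i' h' => simp [ends, ep2]
      | c v' r' i' j =>
        rw [mem_c2] at hl
        have hne : ¬ (v' = v ∧ r' = r ∧ i' = i) := by
          rintro ⟨rfl, rfl, rfl⟩
          omega
        fin_cases j <;> simp [ends, ep2, ctbl, hne]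
      | tail v' r' =>
        rw [mem_tail2] at hl
        have hiff : (v' = v ∧ r' = r ∧ nn G v' - 2 * r' - 1 = i) ↔ (v' = v ∧ r' = r) := by
          constructor
          · rintro ⟨a, b, c⟩; exact ⟨a, b⟩
          · rintro ⟨rfl, rfl⟩; exact ⟨rfl, rfl, hi1.symm⟩
        simp [ends, ep2, hiff]
      | cap v' r' =>
        have hne : ¬ (0 = i) := fun h => hi0 h.symm
        simp [ends, ep2, hne]
    · have hnext : nextP G v r i = Cl.c v r i 4 := by
        unfold nextP
        rw [if_neg hi0, if_neg hi1]
      rw [hnext]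
      refine ⟨?_, ?_, ?_, by simp, by simp, by simp, rfl, rfl, rfl, ?_⟩
      · rw [mem_p2]; exact ⟨hv, h1, h2⟩
      · rw [mem_p2]; exact ⟨hv, h1, h2⟩
      · rw [mem_c2]; exact ⟨hv, by omega, by omega⟩
      intro l hl
      cases l with
      | lt k' => simp [ends, ep2]
      | hv k' => simp [ends, ep2]
      | st k' s' c' => simp [ends, ep2]
      | p v' r' i' h' => cases h' <;> simp [ends, ep2]
      | q v' r' i' h' => simp [ends, ep2]
      | c v' r' i' j =>
        rw [mem_c2] at hl
        fin_cases j <;> simp [ends, ep2, ctbl]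
      | tail v' r' =>
        have hne : ¬ (v' = v ∧ r' = r ∧ nn G v' - 2 * r' - 1 = i) := by
          rintro ⟨rfl, rfl, c⟩
          exact hi1 c.symm
        simp [ends, ep2, hne]
      | cap v' r' =>
        have hne : ¬ (0 = i) := fun h => hi0 h.symm
        simp [ends, ep2, hne]

theorem CubStar2_ends {e : (Cx × Cx) × Bool} {X : Cx} (h : ends e X ≠ 0) :
    e.1.1 = X ∨ e.1.2 = X := by
  by_contra hc
  rw [not_or] at hc
  apply h
  unfold ends
  rw [if_neg hc.1, if_neg hc.2]

theorem CubStar2_pos {k : ℕ} {s c : Bool} (hk : k < G.length) (hc : hvy G k = true ∨ c = false) :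
    pos G k s c < nn G (own G k s) := by
  unfold pos nn
  rw [List.idxOf_lt_length_iff]
  exact (mem_sl G _ k s c).2 ⟨hk, rfl, hc⟩

theorem CubStar2_vs {k : ℕ} {s : Bool} (hk : k < G.length) : own G k s ∈ vs G := by
  unfold own vs
  rw [List.getElem?_eq_getElem hk, List.mem_dedup, List.mem_append, List.mem_map, List.mem_map]
  cases s
  · left
    exact ⟨_, List.getElem_mem hk, rfl⟩
  · right
    exact ⟨_, List.getElem_mem hk, rfl⟩

theorem CubStar2_end (hN : ∀ v, Even (nn G v)) {k : ℕ} {s c : Bool} (hk : k < G.length)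
    (hc : hvy G k = true ∨ c = false) :
    own G k s ∈ vs G ∧ 2 * 0 + 2 ≤ nn G (own G k s) ∧ 2 * 0 + pos G k s c < nn G (own G k s) := by
  have h1 := CubStar2_pos (s := s) hk hc
  obtain ⟨m, hm⟩ := hN (own G k s)
  exact ⟨CubStar2_vs hk, by omega, by omega⟩

/-- The vertices at which edges end are valid.

(For the output edge `5` of the comparator `(v, r, i)`, which ends at `P v (r+1) (i-1)`: here
`i ≥ 1`, `2 * r + i + 2 ≤ nn G v`, and `nn G v` is even, so `2 * (r + 1) + 2 ≤ nn G v`.) -/
theorem touched2 (hN : ∀ v, Even (nn G v)) {l : Cl} (hl : l ∈ labs2 G) {X : Cx}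
    (h : ends (ep2 G l) X ≠ 0) : Valid2 G X := by
  have h1 := CubStar2_ends h
  cases l with
  | lt k =>
    rw [mem_lt2] at hl
    rcases h1 with rfl | rfl
    · exact CubStar2_end hN hl.1 (Or.inr rfl)
    · exact CubStar2_end hN hl.1 (Or.inr rfl)
  | hv k =>
    rw [mem_hv2] at hl
    rcases h1 with rfl | rfl
    · exact hl
    · exact hl
  | st k s c =>
    rw [mem_st2] at hl
    rcases h1 with rfl | rfl
    · exact hl
    · exact CubStar2_end hN (CubNet_lt_of_hvy G k hl) (Or.inl hl)
  | p v r i h' =>
    rw [mem_p2] at hl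
    rcases h1 with rfl | rfl
    · exact hl
    · exact hl
  | q v r i h' =>
    rw [mem_q2] at hl
    rcases h1 with rfl | rfl
    · exact hl
    · exact hl
  | c v r i j =>
    rw [mem_c2] at hl
    obtain ⟨hv, hi, hn⟩ := hl
    obtain ⟨m, hm⟩ := hN v
    have hC : ∀ m' : Fin 4, Valid2 G (.C v r i m') := fun _ => ⟨hv, hi, hn⟩
    fin_cases j <;> rcases h1 with rfl | rfl
    · exact hC 0
    · exact hC 1
    · exact hC 2
    · exact hC 3
    · exact hC 0
    · exact hC 2
    · exact hC 1
    · exact hC 3
    · exact ⟨hv, by omega, by omega⟩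
    · exact hC 0
    · exact hC 1
    · exact ⟨hv, by omega, by omega⟩
    · exact ⟨hv, by omega, by omega⟩
    · exact hC 3
    · exact hC 2
    · exact ⟨hv, by omega, by omega⟩
  | tail v r =>
    rw [mem_tail2] at hl
    rcases h1 with rfl | rfl
    · exact ⟨hl.1, hl.2, by omega⟩
    · exact ⟨hl.1, by omega, by omega⟩
  | cap v r =>
    rw [mem_cap2] at hl
    rcases h1 with rfl | rfl
    · exact ⟨hl.1, hl.2, by omega⟩
    · exact ⟨hl.1, by omega, by omega⟩

end Pool.Agent.W_c81d44_h82
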