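import Pool.Agent.W_c81d44_h82.CubStar1
import Pool.Agent.W_c81d44_h82.CubStar2
import Pool.Agent.W_c81d44_h82.CubSort

/-!
# Colouring the cubic graph

`σ k c` is the colour of the strand `c` of the edge `k`.
-/

set_option autoImplicit false

namespace Pool.Agent.W_c81d44_h82

variable (G : WG ℕ) (σ : ℕ → Bool → ℕ)

/-- The colours of the wires `P v r i`, `i = 0, 1, …`. -/
def xs (v r : ℕ) : List ℕ := stepL^[r] ((sl G v).map (fun e => σ e.1 e.2.2))

/-- The colour of the wire `P v r i`. -/
def pc (v r i : ℕ) : ℕ := (xs G σ v r).getD i 0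

/-- The colour of the wire `Q v r i`. -/
def qc (v r i : ℕ) : ℕ := carry (pc G σ v r 0) ((xs G σ v r).drop i)

/-- The colours of the edges of a comparator with inputs `x`, `y`; it exchanges them iff `x = t`
and `y ≠ t`. -/
def ccol (t x y : ℕ) (j : Fin 8) : Finset ℕ :=
  if x = t ∧ y ≠ t then
    (match j with
    | 0 => {x, y} | 1 => {x, y} | 2 => {y} | 3 => {x} | 4 => {x} | 5 => {y} | 6 => {y} | 7 => {x})
  else
    (match j with
    | 0 => {x, x + y + 1} | 1 => {y, x + y + 1} | 2 => {x + y + 1} | 3 => {x + y + 1}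
    | 4 => {x} | 5 => {x} | 6 => {y} | 7 => {y})

/-- The colouring of the cubic graph. -/
def colS : Cl → Finset ℕ
  | .lt k => {σ k false}
  | .hv k => if σ k false = σ k true then ∅ else {σ k false, σ k true}
  | .st k _ c => {σ k c}
  | .p v r i h => if h then {pc G σ v r i, pc G σ v r i + 1} else {pc G σ v r i + 1}
  | .q v r i h => if h then {qc G σ v r i, qc G σ v r i + 1} else {qc G σ v r i + 1}
  | .c v r i j => ccol (pc G σ v r 0) (pc G σ v r i) (qc G σ v r (i + 1)) j
  | .tail v r => {pc G σ v r (nn G v - 2 * r - 1)}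
  | .cap v r => {pc G σ v r 0}

variable {G σ}

/-- All colours are even at all vertices of `G`. -/
def SEven (G : WG ℕ) (σ : ℕ → Bool → ℕ) : Prop :=
  ∀ v, EvenL ((sl G v).map (fun e => σ e.1 e.2.2))

theorem CubComplete_even {l : List ℕ} (h : EvenL l) : Even l.length := by
  obtain ⟨n, hn⟩ : ∃ n, n = l.length := ⟨_, rfl⟩
  induction n using Nat.strong_induction_on generalizing l with
  | _ n ih =>
    cases l with
    | nil => exact ⟨0, rfl⟩
    | cons t l =>
      have h1 := mem_of_evenL h
      have h2 : 1 ≤ l.length := List.length_pos_of_mem h1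
      have h3 : (t :: l).length = l.length + 1 := rfl
      have h4 := @stepL_length (t :: l)
      have h5 := ih (n - 2) (by omega) (stepL_evenL h) (by omega)
      rw [h4] at h5
      rw [Nat.even_iff] at h5 ⊢
      omega

theorem CubComplete_evenL (h : SEven G σ) (v r : ℕ) : EvenL (xs G σ v r) := iter_evenL (h v) r

theorem CubComplete_length (G : WG ℕ) (σ : ℕ → Bool → ℕ) (v r : ℕ) :
    (xs G σ v r).length = nn G v - 2 * r := by
  unfold xs
  rw [iter_length, List.length_map]
  rfl

theorem CubComplete_stepL (L : List ℕ) : stepL L = outs (L.getD 0 0) (L.drop 1) := by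
  cases L <;> rfl

theorem CubComplete_xs_succ (G : WG ℕ) (σ : ℕ → Bool → ℕ) (v r : ℕ) :
    xs G σ v (r + 1) = outs (pc G σ v r 0) ((xs G σ v r).drop 1) := by
  unfold pc
  rw [← CubComplete_stepL]
  unfold xs
  rw [Function.iterate_succ_apply']

theorem nn_even (h : SEven G σ) (v : ℕ) : Even (nn G v) := by
  have h1 := CubComplete_even (h v)
  rw [List.length_map] at h1
  exact h1

/-- For `r = 0`: the colour of the `i`-th strand end.  For `r > 0`, comparator
`(v, r - 1, i + 1)`: `outs_getD` for the list `(xs G σ v (r-1)).drop 1`. -/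
theorem col_prevP (h : SEven G σ) {v r i : ℕ} (hv : v ∈ vs G) (h1 : 2 * r + 2 ≤ nn G v)
    (h2 : 2 * r + i < nn G v) : colS G σ (prevP G v r i) = {pc G σ v r i} := by
  unfold prevP
  cases r with
  | zero =>
    rw [if_pos rfl]
    have h3 : i < (sl G v).length := by
      unfold nn at h2
      omega
    rw [List.getElem?_eq_getElem h3]
    have h4 : pc G σ v 0 i = σ ((sl G v)[i]).1 ((sl G v)[i]).2.2 := by
      show ((sl G v).map (fun e => σ e.1 e.2.2)).getD i 0 = _
      rw [List.getD_eq_getElem _ _ (by rw [List.length_map]; exact h3), List.getElem_map]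
    have h5 := (mem_sl G v ((sl G v)[i]).1 ((sl G v)[i]).2.1 ((sl G v)[i]).2.2).1
      (List.getElem_mem h3)
    rw [h4]
    show colS G σ (if hvy G ((sl G v)[i]).1 then Cl.st ((sl G v)[i]).1 ((sl G v)[i]).2.1
      ((sl G v)[i]).2.2 else Cl.lt ((sl G v)[i]).1) = _
    by_cases h6 : hvy G ((sl G v)[i]).1 = true
    · rw [if_pos h6]
      rfl
    · rw [if_neg h6]
      rcases h5.2.2 with h7 | h7
      · exact absurd h7 h6
      · rw [h7]
        rfl
  | succ r =>
    rw [if_neg (Nat.succ_ne_zero r)]
    have h3 := CubComplete_length G σ v r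
    have h4 : pc G σ v (r + 1) i = if pc G σ v r (i + 1) = pc G σ v r 0 then
        qc G σ v r (i + 2) else pc G σ v r (i + 1) := by
      have h5 : pc G σ v (r + 1) i = (xs G σ v (r + 1)).getD i 0 := rfl
      rw [h5, CubComplete_xs_succ, outs_getD _ _ _ (by rw [List.length_drop]; omega),
        List.drop_drop]
      have h6 : ((xs G σ v r).drop 1).getD i 0 = pc G σ v r (i + 1) := by
        unfold pc
        rw [List.getD_eq_getElem?_getD, List.getElem?_drop, List.getD_eq_getElem?_getD,
          Nat.add_comm 1 i]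
      have h7 : 1 + (i + 1) = i + 2 := by omega
      rw [h6, h7]
      rfl
    rw [h4]
    show ccol (pc G σ v r 0) (pc G σ v r (i + 1)) (qc G σ v r (i + 2)) 5 = _
    unfold ccol
    by_cases h5 : pc G σ v r (i + 1) = pc G σ v r 0
    · rw [if_pos h5]
      by_cases h6 : qc G σ v r (i + 2) = pc G σ v r 0
      · rw [if_neg (fun h => h.2 h6)]
        show {pc G σ v r (i + 1)} = _
        rw [h5, h6]
      · rw [if_pos ⟨h5, h6⟩]
    · rw [if_neg h5, if_neg (fun h => h5 h.1)]

theorem col_nextP (h : SEven G σ) {v r i : ℕ} (hv : v ∈ vs G) (h1 : 2 * r + 2 ≤ nn G v)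
    (h2 : 2 * r + i < nn G v) : colS G σ (nextP G v r i) = {pc G σ v r i} := by
  unfold nextP
  by_cases h3 : i = 0
  · rw [if_pos h3, h3]
    rfl
  · rw [if_neg h3]
    by_cases h4 : i = nn G v - 2 * r - 1
    · rw [if_pos h4]
      show {pc G σ v r (nn G v - 2 * r - 1)} = _
      rw [← h4]
    · rw [if_neg h4]
      show ccol _ (pc G σ v r i) _ 4 = _
      unfold ccol
      split_ifs <;> rfl

/-- `i = nn G v - 2 * r - 1`: `carry` of a list with one element.  Otherwise `carry_drop`. -/
theorem col_prevQ (h : SEven G σ) {v r i : ℕ} (hv : v ∈ vs G) (h1 : 1 ≤ i)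
    (h2 : 2 * r + i < nn G v) : colS G σ (prevQ G v r i) = {qc G σ v r i} := by
  have h3 := CubComplete_length G σ v r
  unfold prevQ
  by_cases h4 : i = nn G v - 2 * r - 1
  · rw [if_pos h4]
    show {pc G σ v r (nn G v - 2 * r - 1)} = _
    rw [← h4]
    have h5 : (xs G σ v r).drop i = [pc G σ v r i] := by
      rw [List.drop_eq_getElem_cons (by omega : i < (xs G σ v r).length),
        List.drop_eq_nil_of_le (by omega)]
      unfold pc
      rw [List.getD_eq_getElem _ _ (by omega : i < (xs G σ v r).length)]
    unfold qc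
    rw [h5]
    rfl
  · rw [if_neg h4]
    have h5 : qc G σ v r i = if pc G σ v r i = pc G σ v r 0 then pc G σ v r 0
        else qc G σ v r (i + 1) := carry_drop _ _ _ (by omega)
    rw [h5]
    show ccol (pc G σ v r 0) (pc G σ v r i) (qc G σ v r (i + 1)) 7 = _
    unfold ccol
    by_cases h6 : pc G σ v r i = pc G σ v r 0
    · rw [if_pos h6]
      by_cases h7 : qc G σ v r (i + 1) = pc G σ v r 0
      · rw [if_neg (fun h => h.2 h7)]
        show {qc G σ v r (i + 1)} = _
        rw [h7]
      · rw [if_pos ⟨h6, h7⟩]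
        show {pc G σ v r i} = _
        rw [h6]
    · rw [if_neg h6, if_neg (fun h => h6 h.1)]

/-- `i = 1`: by `mem_of_evenL` and `carry_eq` we have `qc G σ v r 1 = pc G σ v r 0`. -/
theorem col_nextQ (h : SEven G σ) {v r i : ℕ} (hv : v ∈ vs G) (h1 : 1 ≤ i)
    (h2 : 2 * r + i < nn G v) : colS G σ (nextQ v r i) = {qc G σ v r i} := by
  have h3 := CubComplete_length G σ v r
  unfold nextQ
  by_cases h4 : i = 1
  · rw [if_pos h4]
    show {pc G σ v r 0} = _
    have h5 : xs G σ v r = pc G σ v r 0 :: (xs G σ v r).drop 1 := by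
      unfold pc
      cases hL : xs G σ v r with
      | nil =>
        rw [hL] at h3
        simp only [List.length_nil] at h3
        omega
      | cons t L => rfl
    have h6 := CubComplete_evenL h v r
    rw [h5] at h6
    have h7 := mem_of_evenL h6
    unfold qc
    rw [h4, carry_eq _ _ h7]
  · rw [if_neg h4]
    show ccol _ _ (qc G σ v r (i - 1 + 1)) 6 = _
    rw [Nat.sub_add_cancel h1]
    unfold ccol
    split_ifs <;> rfl

theorem CubComplete_pair {a b : ℕ} (hab : a ≠ b) (c : ℕ) :
    Even ((if c ∈ ({a, b} : Finset ℕ) then 1 else 0) + (if c ∈ ({a} : Finset ℕ) then 1 else 0) +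
      (if c ∈ ({b} : Finset ℕ) then 1 else 0)) := by
  simp only [Finset.mem_insert, Finset.mem_singleton]
  by_cases h1 : c = a
  · have h2 : c ≠ b := fun h => hab (h1.symm.trans h)
    rw [if_pos (Or.inl h1), if_pos h1, if_neg h2]
    exact ⟨1, rfl⟩
  · by_cases h2 : c = b
    · rw [if_pos (Or.inr h2), if_neg h1, if_pos h2]
      exact ⟨1, rfl⟩
    · rw [if_neg (fun h => h.elim h1 h2), if_neg h1, if_neg h2]
      exact ⟨0, rfl⟩

theorem CubComplete_pair' {a b : ℕ} (hab : a ≠ b) (c : ℕ) :
    Even ((if c ∈ ({a, b} : Finset ℕ) then 1 else 0) + (if c ∈ ({b} : Finset ℕ) then 1 else 0) +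
      (if c ∈ ({a} : Finset ℕ) then 1 else 0)) := by
  have h := CubComplete_pair hab c
  rwa [add_right_comm] at h

/-- The colouring is even at all vertices.

Proof.  If `X` is not valid no edge ends there (`touched2`) and `cnt2` is `0`.  Otherwise use the
star lemmas and `cnt2_of_star`.  `E k s`: the sets are `{a, b}` (or `∅` if `a = b`), `{a}`, `{b}`
with `a = σ k false`, `b = σ k true`.  Wires: `{x, x + 1}`, `{x + 1}`, `{x}` (`col_prevP`, …).
Comparators: `ccol`, in both cases of the form `{a, b}`, `{a}`, `{b}` with `a ≠ b`. -/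
theorem colS_even (h : SEven G σ) (X : Cx) (c : ℕ) : Even (cnt2 G (colS G σ) X c) := by
  by_cases hX : Valid2 G X
  · cases X with
    | E k s =>
      rw [cnt2_of_star (star_E (s := s) hX)]
      show Even ((if c ∈ (if σ k false = σ k true then (∅ : Finset ℕ)
        else {σ k false, σ k true}) then 1 else 0) +
        (if c ∈ ({σ k false} : Finset ℕ) then 1 else 0) +
        (if c ∈ ({σ k true} : Finset ℕ) then 1 else 0))
      by_cases h1 : σ k false = σ k true
      · rw [if_pos h1, h1, if_neg (Finset.notMem_empty c), zero_add]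
        exact ⟨_, rfl⟩
      · rw [if_neg h1]
        exact CubComplete_pair h1 c
    | P v r i b =>
      obtain ⟨hv, h1, h2⟩ := hX
      cases b with
      | false =>
        rw [cnt2_of_star (star_P1 hv h1 h2), col_prevP h hv h1 h2]
        exact CubComplete_pair' (Nat.succ_ne_self _).symm c
      | true =>
        rw [cnt2_of_star (star_P2 hv h1 h2), col_nextP h hv h1 h2]
        exact CubComplete_pair' (Nat.succ_ne_self _).symm c
    | Q v r i b =>
      obtain ⟨hv, h1, h2⟩ := hX
      cases b with
      | false =>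
        rw [cnt2_of_star (star_Q1 hv h1 h2), col_prevQ h hv h1 h2]
        exact CubComplete_pair' (Nat.succ_ne_self _).symm c
      | true =>
        rw [cnt2_of_star (star_Q2 hv h1 h2), col_nextQ h hv h1 h2]
        exact CubComplete_pair' (Nat.succ_ne_self _).symm c
    | C v r i m =>
      obtain ⟨hv, h1, h2⟩ := hX
      rw [cnt2_of_star (star_C hv h1 h2 m)]
      obtain ⟨t, ht⟩ : ∃ t, t = pc G σ v r 0 := ⟨_, rfl⟩
      obtain ⟨x, hx⟩ : ∃ x, x = pc G σ v r i := ⟨_, rfl⟩
      obtain ⟨y, hy⟩ : ∃ y, y = qc G σ v r (i + 1) := ⟨_, rfl⟩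
      have hc : ∀ j, colS G σ (.c v r i j) = ccol t x y j := by
        intro j
        rw [ht, hx, hy]
        rfl
      have hx1 : x ≠ x + y + 1 := by omega
      have hy1 : y ≠ x + y + 1 := by omega
      match m with
      | 0 =>
        show Even ((if c ∈ colS G σ (.c v r i 0) then 1 else 0) +
          (if c ∈ colS G σ (.c v r i 2) then 1 else 0) +
          (if c ∈ colS G σ (.c v r i 4) then 1 else 0))
        rw [hc, hc, hc]
        unfold ccol
        by_cases h3 : x = t ∧ y ≠ t
        · rw [if_pos h3, if_pos h3, if_pos h3]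
          have h4 : x ≠ y := fun e => h3.2 (e.symm.trans h3.1)
          exact CubComplete_pair' h4 c
        · rw [if_neg h3, if_neg h3, if_neg h3]
          exact CubComplete_pair' hx1 c
      | 1 =>
        show Even ((if c ∈ colS G σ (.c v r i 0) then 1 else 0) +
          (if c ∈ colS G σ (.c v r i 3) then 1 else 0) +
          (if c ∈ colS G σ (.c v r i 5) then 1 else 0))
        rw [hc, hc, hc]
        unfold ccol
        by_cases h3 : x = t ∧ y ≠ t
        · rw [if_pos h3, if_pos h3, if_pos h3]
          have h4 : x ≠ y := fun e => h3.2 (e.symm.trans h3.1)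
          exact CubComplete_pair h4 c
        · rw [if_neg h3, if_neg h3, if_neg h3]
          exact CubComplete_pair' hx1 c
      | 2 =>
        show Even ((if c ∈ colS G σ (.c v r i 1) then 1 else 0) +
          (if c ∈ colS G σ (.c v r i 2) then 1 else 0) +
          (if c ∈ colS G σ (.c v r i 7) then 1 else 0))
        rw [hc, hc, hc]
        unfold ccol
        by_cases h3 : x = t ∧ y ≠ t
        · rw [if_pos h3, if_pos h3, if_pos h3]
          have h4 : x ≠ y := fun e => h3.2 (e.symm.trans h3.1)
          exact CubComplete_pair' h4 c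
        · rw [if_neg h3, if_neg h3, if_neg h3]
          exact CubComplete_pair' hy1 c
      | 3 =>
        show Even ((if c ∈ colS G σ (.c v r i 1) then 1 else 0) +
          (if c ∈ colS G σ (.c v r i 3) then 1 else 0) +
          (if c ∈ colS G σ (.c v r i 6) then 1 else 0))
        rw [hc, hc, hc]
        unfold ccol
        by_cases h3 : x = t ∧ y ≠ t
        · rw [if_pos h3, if_pos h3, if_pos h3]
          have h4 : x ≠ y := fun e => h3.2 (e.symm.trans h3.1)
          exact CubComplete_pair h4 c
        · rw [if_neg h3, if_neg h3, if_neg h3]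
          exact CubComplete_pair' hy1 c
  · have h1 : cnt2 G (colS G σ) X c = 0 := by
      unfold cnt2
      refine Finset.sum_eq_zero fun l hl => ?_
      by_cases h2 : ends (ep2 G l) X = 0
      · rw [h2, ite_self]
      · exact absurd (touched2 (nn_even h) (List.mem_toFinset.1 hl) h2) hX
    rw [h1]
    exact ⟨0, rfl⟩

/-- The numbers of colours. -/
theorem colS_card (G : WG ℕ) (σ : ℕ → Bool → ℕ) (l : Cl) :
    (colS G σ l).card = (if (ep2 G l).2 then 2 else 1) ∨
      (∃ k, l = Cl.hv k ∧ σ k false = σ k true ∧ colS G σ l = ∅) := by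
  have h2 : ∀ {a b : ℕ}, a ≠ b → ({a, b} : Finset ℕ).card = 2 := fun h => Finset.card_pair h
  cases l with
  | lt k => exact Or.inl (Finset.card_singleton _)
  | hv k =>
    by_cases h : σ k false = σ k true
    · exact Or.inr ⟨k, rfl, h, if_pos h⟩
    · left
      show (if σ k false = σ k true then (∅ : Finset ℕ) else {σ k false, σ k true}).card = 2
      rw [if_neg h]
      exact h2 h
  | st k s c => exact Or.inl (Finset.card_singleton _)
  | p v r i b =>
    left
    cases b with
    | false => exact Finset.card_singleton _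
    | true => exact h2 (Nat.succ_ne_self _).symm
  | q v r i b =>
    left
    cases b with
    | false => exact Finset.card_singleton _
    | true => exact h2 (Nat.succ_ne_self _).symm
  | c v r i j =>
    left
    obtain ⟨t, ht⟩ : ∃ t, t = pc G σ v r 0 := ⟨_, rfl⟩
    obtain ⟨x, hx⟩ : ∃ x, x = pc G σ v r i := ⟨_, rfl⟩
    obtain ⟨y, hy⟩ : ∃ y, y = qc G σ v r (i + 1) := ⟨_, rfl⟩
    have hx1 : x ≠ x + y + 1 := by omega
    have hy1 : y ≠ x + y + 1 := by omega
    show (ccol (pc G σ v r 0) (pc G σ v r i) (qc G σ v r (i + 1)) j).card =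
      if (ctbl v r i j).2 then 2 else 1
    rw [← ht, ← hx, ← hy]
    unfold ccol
    by_cases h3 : x = t ∧ y ≠ t
    · rw [if_pos h3]
      have h4 : x ≠ y := fun e => h3.2 (e.symm.trans h3.1)
      match j with
      | 0 => exact h2 h4
      | 1 => exact h2 h4
      | 2 => exact Finset.card_singleton _
      | 3 => exact Finset.card_singleton _
      | 4 => exact Finset.card_singleton _
      | 5 => exact Finset.card_singleton _
      | 6 => exact Finset.card_singleton _
      | 7 => exact Finset.card_singleton _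
    · rw [if_neg h3]
      match j with
      | 0 => exact h2 hx1
      | 1 => exact h2 hy1
      | 2 => exact Finset.card_singleton _
      | 3 => exact Finset.card_singleton _
      | 4 => exact Finset.card_singleton _
      | 5 => exact Finset.card_singleton _
      | 6 => exact Finset.card_singleton _
      | 7 => exact Finset.card_singleton _
  | tail v r => exact Or.inl (Finset.card_singleton _)
  | cap v r => exact Or.inl (Finset.card_singleton _)

end Pool.Agent.W_c81d44_h82
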