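import Pool.Agent.W_c81d44_h82.Colour

/-!
# Graphs whose edges of weight 1 form a connected subgraph meeting all heavy edges
-/

set_option autoImplicit false

namespace Pool.Agent.W_c81d44_h82

variable {V : Type} [DecidableEq V]

lemma weight_eq_one {G : WG V} {i : ℕ} : G.weight i = 1 ↔ ∃ e, G[i]? = some e ∧ e.2 = false := by
  unfold WG.weight
  cases h : G[i]? with
  | none => simp
  | some e =>
    cases h2 : e.2 <;> simp [h2]

lemma weight_eq_two {G : WG V} {i : ℕ} : G.weight i = 2 ↔ ∃ e, G[i]? = some e ∧ e.2 = true := by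
  unfold WG.weight
  cases h : G[i]? with
  | none => simp
  | some e =>
    cases h2 : e.2 <;> simp [h2]

lemma endsAt_some {G : WG V} {i : ℕ} {e : (V × V) × Bool} (h : G[i]? = some e) (v : V) :
    G.endsAt i v = (if e.1.1 = v then 1 else 0) + (if e.1.2 = v then 1 else 0) := by
  unfold WG.endsAt
  rw [h]
  rfl

/-- Degrees in a symmetric difference. -/
lemma even_deg_symmDiff (G : WG V) (J K : Finset ℕ) (v : V) :
    Even (G.deg (symmDiff J K) v + G.deg J v + G.deg K v) := by
  unfold WG.deg
  have h1 := Finset.sum_inter_add_sum_sdiff J K (fun i => G.endsAt i v)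
  have h2 := Finset.sum_inter_add_sum_sdiff K J (fun i => G.endsAt i v)
  have h3 : ∑ i ∈ symmDiff J K, G.endsAt i v =
      ∑ i ∈ J \ K, G.endsAt i v + ∑ i ∈ K \ J, G.endsAt i v := by
    rw [symmDiff_def, Finset.sup_eq_union, Finset.sum_union]
    exact disjoint_sdiff_sdiff
  rw [Finset.inter_comm K J] at h2
  rw [h3, ← h1, ← h2]
  exact ⟨∑ i ∈ J \ K, G.endsAt i v + ∑ i ∈ K \ J, G.endsAt i v + ∑ i ∈ J ∩ K, G.endsAt i v,
    by ring⟩

/-- Paths in the light subgraph.  If `x` and `y` are ends of light edges there is a set `J` of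
light edges in which exactly `x` and `y` have odd degree (none if `x = y`).

Proof.  Let `A` be the set of all `v` for which there is a set `J` of light edges with
`deg J u ≡ [u = x] + [u = v]` (mod 2) for all `u`.  `x ∈ A` (empty `J`).  No light edge crosses
`A`: if `k` is a light edge with ends `v ∈ A` and `w`, then the symmetric difference of `J` and
`{k}` works for `w`.  By `LightConnected` all or none of the light edges have their ends in `A`
(a light edge with one end in `A` has both ends in `A`); the light edge at `x` has an end in `A`,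
so all have, and `y ∈ A`. -/
theorem exists_join_pair (G : WG V) (hL : G.LightConnected) (x y : V)
    (hx : ∃ i, G.weight i = 1 ∧ G.endsAt i x ≠ 0) (hy : ∃ i, G.weight i = 1 ∧ G.endsAt i y ≠ 0) :
    ∃ J : Finset ℕ, (∀ i ∈ J, G.weight i = 1) ∧
      ∀ v, Even (G.deg J v + (if v = x then 1 else 0) + (if v = y then 1 else 0)) := by
  let A : Set V := {z | ∃ J : Finset ℕ, (∀ i ∈ J, G.weight i = 1) ∧
      ∀ v, Even (G.deg J v + (if v = x then 1 else 0) + (if v = z then 1 else 0))}
  have hxA : x ∈ A := by
    refine ⟨∅, by simp, ?_⟩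
    intro v
    have : G.deg ∅ v = 0 := Finset.sum_empty
    rw [this, zero_add]
    exact ⟨_, rfl⟩
  -- one step
  have step : ∀ (i : ℕ) (e : (V × V) × Bool), G[i]? = some e → e.2 = false → ∀ a b : V,
      (∀ v, (if e.1.1 = v then 1 else 0) + (if e.1.2 = v then 1 else 0) =
        (if v = a then 1 else 0) + (if v = b then 1 else 0)) → a ∈ A → b ∈ A := by
    rintro i e he h2 a b hab ⟨J, hJ, hJv⟩
    refine ⟨symmDiff J {i}, ?_, ?_⟩
    · intro j hj
      rcases Finset.mem_symmDiff.1 hj with h | h
      · exact hJ j h.1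
      · rw [Finset.mem_singleton.1 h.1]
        exact weight_eq_one.2 ⟨e, he, h2⟩
    · intro v
      have k1 := even_deg_symmDiff G J {i} v
      have k2 : G.deg {i} v = (if v = a then 1 else 0) + (if v = b then 1 else 0) := by
        unfold WG.deg
        rw [Finset.sum_singleton, endsAt_some he, hab v]
      have k3 := hJv v
      rw [k2] at k1
      rw [Nat.even_iff] at k1 k3 ⊢
      omega
  have hcr : ∀ i, G.weight i = 1 → ¬ G.Crosses A i := by
    intro i hi hc
    obtain ⟨e, he, h2⟩ := weight_eq_one.1 hi
    obtain ⟨e', he', hc⟩ := hc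
    rw [he] at he'
    obtain rfl := Option.some.inj he'
    have c1 : e.1.1 ∈ A → e.1.2 ∈ A := step i e he h2 e.1.1 e.1.2 (by
      intro v
      simp only [eq_comm])
    have c2 : e.1.2 ∈ A → e.1.1 ∈ A := step i e he h2 e.1.2 e.1.1 (by
      intro v
      rw [add_comm]
      simp only [eq_comm])
    rcases hc with hc | hc
    · exact hc.2 (c1 hc.1)
    · exact hc.1 (c2 hc.2)
  have hboth : ∀ (i : ℕ) (e : (V × V) × Bool), G[i]? = some e → e.2 = false →
      (e.1.1 ∈ A ↔ e.1.2 ∈ A) := by
    intro i e he h2
    have h := hcr i (weight_eq_one.2 ⟨e, he, h2⟩)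
    constructor
    · intro h1
      by_contra h3
      exact h ⟨e, he, Or.inl ⟨h1, h3⟩⟩
    · intro h1
      by_contra h3
      exact h ⟨e, he, Or.inr ⟨h3, h1⟩⟩
  have hend : ∀ (i : ℕ) (e : (V × V) × Bool) (z : V), G[i]? = some e → G.endsAt i z ≠ 0 →
      e.1.1 = z ∨ e.1.2 = z := by
    intro i e z he h
    rw [endsAt_some he] at h
    by_contra hcon
    push Not at hcon
    rw [if_neg hcon.1, if_neg hcon.2] at h
    exact h rfl
  have hall : ∀ e ∈ G, e.2 = false → e.1.1 ∈ A := by
    rcases hL A hcr with h | h
    · exact h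
    · exfalso
      obtain ⟨i, hi, hix⟩ := hx
      obtain ⟨e, he, h2⟩ := weight_eq_one.1 hi
      have hmem : e ∈ G := List.mem_of_getElem? he
      apply h e hmem h2
      rcases hend i e x he hix with h3 | h3
      · rw [h3]; exact hxA
      · rw [hboth i e he h2, h3]; exact hxA
  obtain ⟨i, hi, hiy⟩ := hy
  obtain ⟨e, he, h2⟩ := weight_eq_one.1 hi
  have h1 := hall e (List.mem_of_getElem? he) h2
  have hyA : y ∈ A := by
    rcases hend i e y he hiy with h3 | h3
    · rw [← h3]; exact h1
    · rw [← h3]; exact (hboth i e he h2).1 h1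
  exact hyA

/-- There is a set `J` of light edges whose degrees have the same parities as those of the set of
heavy edges.

Proof.  Induction over the set of heavy edges (a finite subset `S` of the set of heavy edges), with
`exists_join_pair` for the two ends of the new edge, and symmetric differences. -/
theorem exists_join (G : WG V) (hL : G.LightConnected)
    (hinc : ∀ i, G.weight i = 2 → ∀ v, G.endsAt i v ≠ 0 →
      ∃ j, G.weight j = 1 ∧ G.endsAt j v ≠ 0) :
    ∃ J : Finset ℕ, (∀ i ∈ J, G.weight i = 1) ∧
      ∀ v, Even (G.deg J v +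
        G.deg ((Finset.range G.length).filter (fun i => G.weight i = 2)) v) := by
  have key : ∀ S : Finset ℕ, (∀ i ∈ S, G.weight i = 2) →
      ∃ J : Finset ℕ, (∀ i ∈ J, G.weight i = 1) ∧ ∀ v, Even (G.deg J v + G.deg S v) := by
    intro S
    induction S using Finset.induction_on with
    | empty =>
      intro _
      refine ⟨∅, by simp, ?_⟩
      intro v
      exact ⟨_, rfl⟩
    | insert k S hk ih =>
      intro hS
      obtain ⟨J, hJ, hJv⟩ := ih fun i hi => hS i (Finset.mem_insert_of_mem hi)
      have hkw := hS k (Finset.mem_insert_self k S)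
      obtain ⟨e, he, -⟩ := weight_eq_two.1 hkw
      have ha : G.endsAt k e.1.1 ≠ 0 := by
        rw [endsAt_some he, if_pos rfl]
        omega
      have hb : G.endsAt k e.1.2 ≠ 0 := by
        rw [endsAt_some he, if_pos (rfl : e.1.2 = e.1.2)]
        omega
      obtain ⟨J1, hJ1, hJ1v⟩ := exists_join_pair G hL e.1.1 e.1.2 (hinc k hkw _ ha)
        (hinc k hkw _ hb)
      refine ⟨symmDiff J J1, ?_, ?_⟩
      · intro j hj
        rcases Finset.mem_symmDiff.1 hj with h | h
        · exact hJ j h.1
        · exact hJ1 j h.1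
      · intro v
        have k1 := even_deg_symmDiff G J J1 v
        have k2 : G.deg (insert k S) v = G.endsAt k v + G.deg S v := Finset.sum_insert hk
        have k3 := hJv v
        have k4 := hJ1v v
        have k5 := endsAt_some he v
        have k6 : (if e.1.1 = v then 1 else 0) = (if v = e.1.1 then 1 else 0) := by
          simp only [eq_comm]
        have k7 : (if e.1.2 = v then 1 else 0) = (if v = e.1.2 then 1 else 0) := by
          simp only [eq_comm]
        rw [k2, k5, k6, k7]
        rw [Nat.even_iff] at k1 k3 k4 ⊢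
        omega
  exact key _ fun i hi => (Finset.mem_filter.1 hi).2

/-- If the light subgraph is connected and every end of a heavy edge is an end of a light edge,
there is a faithful circuit cover.

Proof.  Take `J` from `exists_join`, give the colours `{0, 1}` to the heavy edges, `{0}` to the
edges of `J` and `{1}` to the other light edges.  Colour `0` is even by the choice of `J`; colours
`0` and `1` together occur `2 * (heavy degree) + (light degree)` times at `v`, which is even since
the weight is eulerian, so colour `1` is even as well. -/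
theorem col_of_light (G : WG V) (hE : G.Eulerian) (hL : G.LightConnected)
    (hinc : ∀ i, G.weight i = 2 → ∀ v, G.endsAt i v ≠ 0 →
      ∃ j, G.weight j = 1 ∧ G.endsAt j v ≠ 0) : G.Col := by
  classical
  obtain ⟨J, hJ, hJv⟩ := exists_join G hL hinc
  have hlt : ∀ i, G.weight i = 1 → i < G.length := by
    intro i hi
    obtain ⟨e, he, -⟩ := weight_eq_one.1 hi
    exact (List.getElem?_eq_some_iff.1 he).1
  have hw : ∀ i < G.length, G.weight i = 1 ∨ G.weight i = 2 := by
    intro i hi
    unfold WG.weight
    rw [List.getElem?_eq_getElem hi]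
    cases h : (G[i]).2 <;> simp [h]
  let φ : ℕ → Finset ℕ := fun i => if G.weight i = 2 then {0, 1} else if i ∈ J then {0} else {1}
  have hφ : ∀ i c, c ∈ φ i ↔ (G.weight i = 2 ∧ (c = 0 ∨ c = 1)) ∨
      (G.weight i ≠ 2 ∧ i ∈ J ∧ c = 0) ∨ (G.weight i ≠ 2 ∧ i ∉ J ∧ c = 1) := by
    intro i c
    show c ∈ (if G.weight i = 2 then ({0, 1} : Finset ℕ) else if i ∈ J then {0} else {1}) ↔ _
    by_cases h1 : G.weight i = 2
    · rw [if_pos h1]
      simp [h1]
    · rw [if_neg h1]
      by_cases h2 : i ∈ J
      · rw [if_pos h2]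
        simp [h1, h2]
      · rw [if_neg h2]
        simp [h1, h2]
  set H := (Finset.range G.length).filter (fun i => G.weight i = 2) with hH
  set Lt := (Finset.range G.length).filter (fun i => G.weight i = 1) with hLt
  have hpar : ∀ v c, G.par φ v c =
      ∑ i ∈ (Finset.range G.length).filter (fun i => c ∈ φ i), G.endsAt i v := by
    intro v c
    unfold WG.par
    rw [Finset.sum_filter]
  have hJL : J ⊆ Lt := by
    intro i hi
    exact Finset.mem_filter.2 ⟨Finset.mem_range.2 (hlt i (hJ i hi)), hJ i hi⟩
  have h0 : (Finset.range G.length).filter (fun i => 0 ∈ φ i) = H ∪ J := by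
    ext i
    rw [Finset.mem_filter, Finset.mem_union, hH, Finset.mem_filter, hφ]
    constructor
    · rintro ⟨h1, h2 | h2 | h2⟩
      · exact Or.inl ⟨h1, h2.1⟩
      · exact Or.inr h2.2.1
      · exact absurd h2.2.2 (by omega)
    · rintro (h1 | h1)
      · exact ⟨h1.1, Or.inl ⟨h1.2, Or.inl rfl⟩⟩
      · have := hJ i h1
        exact ⟨Finset.mem_range.2 (hlt i this), Or.inr (Or.inl ⟨by omega, h1, rfl⟩)⟩
  have h1 : (Finset.range G.length).filter (fun i => 1 ∈ φ i) = H ∪ (Lt \ J) := by
    ext i
    rw [Finset.mem_filter, Finset.mem_union, hH, Finset.mem_filter, Finset.mem_sdiff, hLt,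
      Finset.mem_filter, hφ]
    constructor
    · rintro ⟨h1, h2 | h2 | h2⟩
      · exact Or.inl ⟨h1, h2.1⟩
      · exact absurd h2.2.2 (by omega)
      · refine Or.inr ⟨⟨h1, ?_⟩, h2.2.1⟩
        rcases hw i (Finset.mem_range.1 h1) with h3 | h3
        · exact h3
        · exact absurd h3 h2.1
    · rintro (h1 | h1)
      · exact ⟨h1.1, Or.inl ⟨h1.2, Or.inr rfl⟩⟩
      · exact ⟨h1.1.1, Or.inr (Or.inr ⟨by have := h1.1.2; omega, h1.2, rfl⟩)⟩
  have dHL : Disjoint H Lt := by
    rw [Finset.disjoint_left]
    intro i h2 h3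
    have h2' := (Finset.mem_filter.1 h2).2
    have h3' := (Finset.mem_filter.1 h3).2
    omega
  refine ⟨φ, ?_, ?_⟩
  · intro i hi
    show (if G.weight i = 2 then ({0, 1} : Finset ℕ) else if i ∈ J then {0} else {1}).card = _
    rcases hw i hi with h2 | h2
    · rw [if_neg (by omega), h2]
      split_ifs <;> rfl
    · rw [if_pos h2, h2]
      rfl
  · intro v c
    rw [hpar]
    have e0 : Even (∑ i ∈ (Finset.range G.length).filter (fun i => 0 ∈ φ i), G.endsAt i v) := by
      rw [h0, Finset.sum_union (Finset.disjoint_of_subset_right hJL dHL), add_comm]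
      exact hJv v
    rcases Nat.lt_or_ge c 2 with hc | hc
    · interval_cases c
      · exact e0
      · rw [h0, Finset.sum_union (Finset.disjoint_of_subset_right hJL dHL)] at e0
        rw [h1, Finset.sum_union (Finset.disjoint_of_subset_right Finset.sdiff_subset dHL)]
        have e2 : Even (∑ i ∈ Lt, G.endsAt i v) := hE v
        have e3 := Finset.sum_sdiff (f := fun i => G.endsAt i v) hJL
        rw [Nat.even_iff] at e0 e2 ⊢
        omega
    · have : (Finset.range G.length).filter (fun i => c ∈ φ i) = ∅ := by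
        rw [Finset.filter_eq_empty_iff]
        intro i _
        rw [hφ]
        omega
      rw [this]
      exact ⟨0, rfl⟩

end Pool.Agent.W_c81d44_h82
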