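import Pool.Agent.W_c81d44_h82.CubComplete
import Pool.Agent.W_c81d44_h82.TJoin
import Pool.Agent.W_c81d44_h82.Hand

/-!
# Strand colourings from colourings and from even sets
-/

set_option autoImplicit false

namespace Pool.Agent.W_c81d44_h82

theorem sum_map_range (f : ℕ → ℕ) (n : ℕ) :
    ((List.range n).map f).sum = ∑ k ∈ Finset.range n, f k := by
  induction n with
  | zero => simp
  | succ n ih =>
    rw [List.range_succ, List.map_append, List.sum_append, ih, Finset.sum_range_succ]
    simp

theorem strand_get {G : WG ℕ} {k : ℕ} (hk : k < G.length) :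
    G[k]? = some ((own G k false, own G k true), hvy G k) := by
  simp [own, hvy, List.getElem?_eq_getElem hk]

theorem strand_endsAt {G : WG ℕ} {k : ℕ} (hk : k < G.length) (v : ℕ) :
    G.endsAt k v = (if own G k false = v then 1 else 0) + (if own G k true = v then 1 else 0) := by
  simp [WG.endsAt, strand_get hk, ends]

theorem strand_weight {G : WG ℕ} {k : ℕ} (hk : k < G.length) :
    G.weight k = if hvy G k = true then 2 else 1 := by
  simp [WG.weight, strand_get hk]

theorem strand_lt {G : WG ℕ} {k : ℕ} (hk : hvy G k = true) : k < G.length := by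
  by_contra h
  rw [hvy, List.getElem?_eq_none (by omega)] at hk
  simp at hk

/-- The number of strand ends of colour `c` at `v`, as a sum over the edges. -/
theorem count_sl (G : WG ℕ) (σ : ℕ → Bool → ℕ) (v c : ℕ) :
    ((sl G v).map (fun e => σ e.1 e.2.2)).count c =
      ∑ k ∈ Finset.range G.length, G.endsAt k v *
        ((if σ k false = c then 1 else 0) + (if hvy G k = true ∧ σ k true = c then 1 else 0)) := by
  unfold sl
  rw [List.map_flatMap, List.count_flatMap, sum_map_range]
  refine Finset.sum_congr rfl fun k hk => ?_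
  rw [strand_endsAt (Finset.mem_range.1 hk)]
  simp only [Function.comp_def, List.flatMap_cons, List.flatMap_nil, List.append_nil,
    List.map_append, List.count_append]
  by_cases h1 : own G k false = v <;> by_cases h2 : own G k true = v <;>
    by_cases h3 : hvy G k = true <;> by_cases h4 : σ k false = c <;> by_cases h5 : σ k true = c <;>
    simp [h1, h2, h3, h4, h5]

/-- A colouring gives a strand colouring in which the two strands of a heavy edge have different
colours: the colours of the strands of `k` are the elements of `φ k` (`count_sl`). -/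
theorem strand_of_col {G : WG ℕ} (h : G.Col) :
    ∃ σ : ℕ → Bool → ℕ, SEven G σ ∧ ∀ k, hvy G k = true → σ k false ≠ σ k true := by
  obtain ⟨φ, h1, h2⟩ := h
  have key : ∀ k, ∃ p : Bool → ℕ, k < G.length →
      (hvy G k = true → p false ≠ p true) ∧
      ∀ c, (if p false = c then 1 else 0) + (if hvy G k = true ∧ p true = c then 1 else 0) =
        if c ∈ φ k then 1 else 0 := by
    intro k
    by_cases hk : k < G.length
    · have h3 := h1 k hk
      rw [strand_weight hk] at h3
      by_cases h4 : hvy G k = true
      · rw [if_pos h4, Finset.card_eq_two] at h3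
        obtain ⟨x, y, hxy, h3⟩ := h3
        refine ⟨fun b => if b then y else x, fun _ => ⟨fun _ => by simpa using hxy, fun c => ?_⟩⟩
        rw [h3]
        by_cases h5 : x = c
        · have h6 : y ≠ c := fun h => hxy (h5.trans h.symm)
          simp [h4, h5, h6]
        · by_cases h6 : y = c
          · simp [h4, h5, h6]
          · have h5' : ¬ c = x := fun h => h5 h.symm
            have h6' : ¬ c = y := fun h => h6 h.symm
            simp [h4, h5, h6, h5', h6']
      · rw [if_neg h4, Finset.card_eq_one] at h3
        obtain ⟨x, h3⟩ := h3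
        refine ⟨fun _ => x, fun _ => ⟨fun h => absurd h h4, fun c => ?_⟩⟩
        rw [h3]
        by_cases h5 : x = c
        · simp [h4, h5]
        · have h5' : ¬ c = x := fun h => h5 h.symm
          simp [h4, h5, h5']
    · exact ⟨fun _ => 0, fun h => absurd h hk⟩
  choose σ hσ using key
  refine ⟨σ, fun v c => ?_, fun k hk => (hσ k (strand_lt hk)).1 hk⟩
  rw [count_sl]
  have h3 := h2 v c
  unfold WG.par at h3
  convert h3 using 1
  refine Finset.sum_congr rfl fun k hk => ?_
  rw [(hσ k (Finset.mem_range.1 hk)).2 c]
  split_ifs <;> simp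

/-- Every edge of a bridgeless graph lies in an even set of edges.

Proof.  Let `x`, `y` be the ends of the edge `k`; if `x = y` take `{k}`.  Let `A` be the set of all
vertices `v` such that some set `J` of edges with `k ∉ J` satisfies
`deg J u ≡ [u = x] + [u = v]` for all `u`.  `x ∈ A`.  If `y ∈ A` then `insert k J` is as wanted.
If `y ∉ A`, then `k` crosses `A`, and no other edge crosses `A` (an edge `j ≠ k` with ends `v ∈ A`
and `w` shows `w ∈ A`, by the symmetric difference of `J` and `{j}`), contradicting
`Bridgeless`.  (Compare `exists_join_pair` in `TJoin.lean`.) -/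
theorem exists_even_through {G : WG ℕ} (hB : G.Bridgeless) {k : ℕ} (hk : k < G.length) :
    ∃ D : Finset ℕ, k ∈ D ∧ (∀ i ∈ D, i < G.length) ∧ ∀ v, Even (G.deg D v) := by
  classical
  set x := own G k false with hx
  set y := own G k true with hy
  let A : Set ℕ := {z | ∃ J : Finset ℕ, (∀ i ∈ J, i < G.length ∧ i ≠ k) ∧
      ∀ v, Even (G.deg J v + (if v = x then 1 else 0) + (if v = z then 1 else 0))}
  have hxA : x ∈ A := by
    refine ⟨∅, by simp, ?_⟩
    intro v
    have : G.deg ∅ v = 0 := Finset.sum_empty
    rw [this, zero_add]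
    exact ⟨_, rfl⟩
  by_cases hyA : y ∈ A
  · obtain ⟨J, hJ, hJv⟩ := hyA
    have hkJ : k ∉ J := fun h => (hJ k h).2 rfl
    refine ⟨insert k J, Finset.mem_insert_self k J, ?_, fun v => ?_⟩
    · intro i hi
      rcases Finset.mem_insert.1 hi with h | h
      · rw [h]; exact hk
      · exact (hJ i h).1
    · have h1 : G.deg (insert k J) v = G.endsAt k v + G.deg J v := Finset.sum_insert hkJ
      have h2 := hJv v
      rw [h1, strand_endsAt hk, ← hx, ← hy]
      rw [Nat.even_iff] at h2 ⊢
      simp only [eq_comm (a := v)] at h2
      omega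
  · exfalso
    have step : ∀ (i : ℕ), i < G.length → i ≠ k → ∀ a b : ℕ,
        (∀ v, G.endsAt i v = (if v = a then 1 else 0) + (if v = b then 1 else 0)) →
        a ∈ A → b ∈ A := by
      rintro i hi hik a b hab ⟨J, hJ, hJv⟩
      refine ⟨symmDiff J {i}, ?_, ?_⟩
      · intro j hj
        rcases Finset.mem_symmDiff.1 hj with h | h
        · exact hJ j h.1
        · rw [Finset.mem_singleton.1 h.1]
          exact ⟨hi, hik⟩
      · intro v
        have k1 := even_deg_symmDiff G J {i} v
        have k2 : G.deg {i} v = (if v = a then 1 else 0) + (if v = b then 1 else 0) := by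
          unfold WG.deg
          rw [Finset.sum_singleton, hab v]
        have k3 := hJv v
        rw [k2] at k1
        rw [Nat.even_iff] at k1 k3 ⊢
        omega
    refine hB A k fun j => ⟨fun hj => ?_, fun hj => ?_⟩
    · obtain ⟨e, he, hc⟩ := hj
      have hjl : j < G.length := (List.getElem?_eq_some_iff.1 he).1
      by_contra hjk
      have h1 := step j hjl hjk e.1.1 e.1.2 (fun v => by
        rw [endsAt_some he]; simp only [eq_comm])
      have h2 := step j hjl hjk e.1.2 e.1.1 (fun v => by
        rw [endsAt_some he, add_comm]; simp only [eq_comm])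
      rcases hc with hc | hc
      · exact hc.2 (h1 hc.1)
      · exact hc.1 (h2 hc.2)
    · rw [hj]
      exact ⟨_, strand_get hk, Or.inl ⟨hxA, hyA⟩⟩

theorem strand_of_even_aux {G : WG ℕ} (hE : G.Eulerian) {D : Finset ℕ}
    (hD : ∀ i ∈ D, i < G.length) (he : ∀ v, Even (G.deg D v)) (σ : ℕ → Bool → ℕ)
    (hσ : ∀ k c, σ k c = if c = false ∧ k ∈ D then 1 else 2) : SEven G σ := by
  classical
  intro v c
  have h1 : Even (((sl G v).map (fun e => σ e.1 e.2.2)).count 1) := by
    rw [count_sl]
    have h2 := he v
    have h3 : G.deg D v = ∑ k ∈ Finset.range G.length, if k ∈ D then G.endsAt k v else 0 := by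
      unfold WG.deg
      rw [← Finset.sum_filter]
      refine Finset.sum_congr ?_ fun _ _ => rfl
      ext i
      simp only [Finset.mem_filter, Finset.mem_range]
      exact ⟨fun h => ⟨hD i h, h⟩, fun h => h.2⟩
    rw [h3] at h2
    convert h2 using 1
    refine Finset.sum_congr rfl fun k _ => ?_
    rw [hσ, hσ]
    by_cases hk : k ∈ D <;> simp [hk]
  have h2 : Even (((sl G v).map (fun e => σ e.1 e.2.2)).count 1 +
      ((sl G v).map (fun e => σ e.1 e.2.2)).count 2) := by
    rw [count_sl, count_sl, ← Finset.sum_add_distrib]
    have h3 := hE v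
    rw [Finset.sum_filter] at h3
    rw [← ZMod.natCast_eq_zero_iff_even] at h3 ⊢
    rw [← h3, Nat.cast_sum, Nat.cast_sum]
    refine Finset.sum_congr rfl fun k hk => ?_
    rw [strand_weight (Finset.mem_range.1 hk), hσ, hσ]
    have e2 : ∀ n : ZMod 2, n + n = 0 := fun n => CharTwo.add_self_eq_zero n
    have e3 : (2 : ZMod 2) = 0 := rfl
    by_cases hk1 : k ∈ D <;> by_cases hk2 : hvy G k = true <;> simp [hk1, hk2, e2, e3]
  by_cases hc1 : c = 1
  · rw [hc1]; exact h1
  by_cases hc2 : c = 2
  · rw [hc2]
    rw [Nat.even_iff] at h1 h2 ⊢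
    omega
  · rw [List.count_eq_zero_of_not_mem]
    · exact ⟨0, rfl⟩
    · simp only [List.mem_map, not_exists, not_and]
      intro e _
      rw [hσ]
      by_cases h : e.2.2 = false ∧ e.1 ∈ D
      · rw [if_pos h]; exact fun h => hc1 h.symm
      · rw [if_neg h]; exact fun h => hc2 h.symm

/-- A strand colouring from an even set `D`: one strand of every edge of `D` gets colour `1`,
everything else gets colour `2`.

Proof.  `count_sl`: colour `1` occurs `deg D v` times at `v`; the total number of strand ends at `v`
is `(light degree) + 2 * (heavy degree)`, which is even since the weight is eulerian. -/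
theorem strand_of_even {G : WG ℕ} (hE : G.Eulerian) {D : Finset ℕ}
    (hD : ∀ i ∈ D, i < G.length) (he : ∀ v, Even (G.deg D v)) :
    SEven G (fun k c => if c = false ∧ k ∈ D then 1 else 2) :=
  strand_of_even_aux hE hD he _ fun _ _ => rfl

end Pool.Agent.W_c81d44_h82
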