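import Pool.Agent.W_c81d44_h82.Colour

/-!
# Renaming and identifying vertices
-/

set_option autoImplicit false

namespace Pool.Agent.W_c81d44_h82

variable {V W : Type} [DecidableEq V] [DecidableEq W]

namespace WG

/-- Rename (or identify) the vertices of `G` by means of `f`. -/
def mapV (f : V → W) (G : WG V) : WG W := G.map (fun e => ((f e.1.1, f e.1.2), e.2))

@[simp] theorem length_mapV (f : V → W) (G : WG V) : (mapV f G).length = G.length := by
  simp [mapV]

theorem weight_mapV (f : V → W) (G : WG V) (i : ℕ) : (mapV f G).weight i = G.weight i := by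
  unfold weight mapV
  rw [List.getElem?_map]
  cases G[i]? <;> simp

theorem crosses_mapV (f : V → W) (G : WG V) (A : Set W) (i : ℕ) :
    (mapV f G).Crosses A i ↔ G.Crosses (f ⁻¹' A) i := by
  unfold Crosses mapV
  rw [List.getElem?_map]
  cases G[i]? <;> simp

/-- `endsAt` of the image as a sum over preimages. -/
theorem endsAt_mapV_sum (f : V → W) (G : WG V) (S : Finset V)
    (hS : ∀ e ∈ G, e.1.1 ∈ S ∧ e.1.2 ∈ S) (i : ℕ) (w : W) :
    (mapV f G).endsAt i w = ∑ v ∈ S.filter (fun v => f v = w), G.endsAt i v := by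
  unfold endsAt mapV
  rw [List.getElem?_map]
  cases h : G[i]? with
  | none => simp
  | some e =>
    have hmem : e ∈ G := List.mem_of_getElem? h
    obtain ⟨h1, h2⟩ := hS e hmem
    simp only [Option.map_some, Option.elim_some, ends, Finset.sum_add_distrib,
      Finset.sum_ite_eq, Finset.mem_filter, h1, h2, true_and]

/-- `par` of the image as a sum over preimages. -/
theorem par_mapV_sum (f : V → W) (G : WG V) (S : Finset V)
    (hS : ∀ e ∈ G, e.1.1 ∈ S ∧ e.1.2 ∈ S) (ψ : ℕ → Finset ℕ) (w : W) (c : ℕ) :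
    (mapV f G).par ψ w c = ∑ v ∈ S.filter (fun v => f v = w), G.par ψ v c := by
  unfold par
  rw [Finset.sum_comm, length_mapV]
  refine Finset.sum_congr rfl fun i _ => ?_
  by_cases hc : c ∈ ψ i
  · simp only [hc, if_true]
    exact endsAt_mapV_sum f G S hS i w
  · simp [hc]

/-- The set of ends of the edges of `G`. -/
theorem exists_endSet (G : WG V) : ∃ S : Finset V,
    ∀ v, v ∈ S ↔ ∃ e ∈ G, v = e.1.1 ∨ v = e.1.2 := by
  refine ⟨(G.map (fun e => e.1.1)).toFinset ∪ (G.map (fun e => e.1.2)).toFinset, fun v => ?_⟩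
  simp only [Finset.mem_union, List.mem_toFinset, List.mem_map]
  constructor
  · rintro (⟨e, he, rfl⟩ | ⟨e, he, rfl⟩)
    · exact ⟨e, he, Or.inl rfl⟩
    · exact ⟨e, he, Or.inr rfl⟩
  · rintro ⟨e, he, rfl | rfl⟩
    · exact Or.inl ⟨e, he, rfl⟩
    · exact Or.inr ⟨e, he, rfl⟩

theorem endsAt_eq_zero_of_not_end (G : WG V) (v : V)
    (hv : ¬ ∃ e ∈ G, v = e.1.1 ∨ v = e.1.2) (i : ℕ) : G.endsAt i v = 0 := by
  unfold endsAt
  cases h : G[i]? with
  | none => simp
  | some e =>
    have hmem : e ∈ G := List.mem_of_getElem? h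
    have h1 : e.1.1 ≠ v := fun h' => hv ⟨e, hmem, Or.inl h'.symm⟩
    have h2 : e.1.2 ≠ v := fun h' => hv ⟨e, hmem, Or.inr h'.symm⟩
    simp [ends, h1, h2]

theorem par_eq_zero_of_not_end (G : WG V) (v : V)
    (hv : ¬ ∃ e ∈ G, v = e.1.1 ∨ v = e.1.2) (ψ : ℕ → Finset ℕ) (c : ℕ) :
    G.par ψ v c = 0 := by
  unfold par
  refine Finset.sum_eq_zero fun i _ => ?_
  rw [endsAt_eq_zero_of_not_end G v hv i]
  simp

/-- If `f` is injective on the ends of the edges of `G`, then evenness of all colours at all
vertices is the same for `G` and `mapV f G`.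

Proof.  For an end `v` of an edge of `G`, `(mapV f G).endsAt i (f v) = G.endsAt i v` for all `i`
by injectivity, so `par (mapV f G) ψ (f v) c = par G ψ v c`.  If `v` is not an end of an edge of
`G` then `par G ψ v c = 0`; if `w` is not of the form `f v` for an end `v`, then
`par (mapV f G) ψ w c = 0`. -/
theorem even_mapV (f : V → W) (G : WG V)
    (hf : ∀ v w, (∃ e ∈ G, v = e.1.1 ∨ v = e.1.2) → (∃ e ∈ G, w = e.1.1 ∨ w = e.1.2) →
      f v = f w → v = w) (ψ : ℕ → Finset ℕ) :
    (∀ w c, Even ((mapV f G).par ψ w c)) ↔ ∀ v c, Even (G.par ψ v c) := by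
  obtain ⟨S, hS⟩ := exists_endSet G
  have hS' : ∀ e ∈ G, e.1.1 ∈ S ∧ e.1.2 ∈ S := fun e he =>
    ⟨(hS _).2 ⟨e, he, Or.inl rfl⟩, (hS _).2 ⟨e, he, Or.inr rfl⟩⟩
  constructor
  · intro h v c
    by_cases hv : v ∈ S
    · have h1 := h (f v) c
      rw [par_mapV_sum f G S hS'] at h1
      have h2 : S.filter (fun v' => f v' = f v) = {v} := by
        ext v'
        simp only [Finset.mem_filter, Finset.mem_singleton]
        constructor
        · rintro ⟨hv', hf'⟩
          exact hf v' v ((hS v').1 hv') ((hS v).1 hv) hf'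
        · rintro rfl
          exact ⟨hv, rfl⟩
      rw [h2, Finset.sum_singleton] at h1
      exact h1
    · rw [par_eq_zero_of_not_end G v (fun h' => hv ((hS v).2 h'))]
      exact Even.zero
  · intro h w c
    rw [par_mapV_sum f G S hS']
    exact Finset.even_sum _ fun v _ => h v c

/-- Identification of `y` with `x`: `par` adds up.

Proof.  `endsAt (mapV r G) i x = endsAt G i x + endsAt G i y`, where `r v = if v = y then x else v`,
and `endsAt (mapV r G) i v = endsAt G i v` for `v ∉ {x, y}`. -/
theorem par_ident (G : WG V) (x y : V) (hxy : x ≠ y) (ψ : ℕ → Finset ℕ) (c : ℕ) :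
    (mapV (fun v => if v = y then x else v) G).par ψ x c = G.par ψ x c + G.par ψ y c ∧
    ∀ v, v ≠ x → v ≠ y →
      (mapV (fun v => if v = y then x else v) G).par ψ v c = G.par ψ v c := by
  obtain ⟨S, hS⟩ := exists_endSet G
  constructor
  · have hS' : ∀ e ∈ G, e.1.1 ∈ S ∪ {x, y} ∧ e.1.2 ∈ S ∪ {x, y} := fun e he =>
      ⟨Finset.mem_union_left _ ((hS _).2 ⟨e, he, Or.inl rfl⟩),
        Finset.mem_union_left _ ((hS _).2 ⟨e, he, Or.inr rfl⟩)⟩
    rw [par_mapV_sum _ G (S ∪ {x, y}) hS']
    have h2 : (S ∪ {x, y}).filter (fun v => (if v = y then x else v) = x) = {x, y} := by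
      ext v
      simp only [Finset.mem_filter, Finset.mem_union, Finset.mem_insert, Finset.mem_singleton]
      constructor
      · rintro ⟨_, h⟩
        by_cases hv : v = y
        · exact Or.inr hv
        · rw [if_neg hv] at h
          exact Or.inl h
      · rintro (rfl | rfl)
        · exact ⟨Or.inr (Or.inl rfl), by simp⟩
        · exact ⟨Or.inr (Or.inr rfl), by simp⟩
    rw [h2, Finset.sum_pair hxy]
  · intro v hvx hvy
    have hS' : ∀ e ∈ G, e.1.1 ∈ S ∪ {v} ∧ e.1.2 ∈ S ∪ {v} := fun e he =>
      ⟨Finset.mem_union_left _ ((hS _).2 ⟨e, he, Or.inl rfl⟩),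
        Finset.mem_union_left _ ((hS _).2 ⟨e, he, Or.inr rfl⟩)⟩
    rw [par_mapV_sum _ G (S ∪ {v}) hS']
    have h2 : (S ∪ {v}).filter (fun v' => (if v' = y then x else v') = v) = {v} := by
      ext v'
      simp only [Finset.mem_filter, Finset.mem_union, Finset.mem_singleton]
      constructor
      · rintro ⟨_, h⟩
        by_cases hv : v' = y
        · rw [if_pos hv] at h
          exact absurd h.symm hvx
        · rw [if_neg hv] at h
          exact h
      · rintro rfl
        exact ⟨Or.inr rfl, by rw [if_neg hvy]⟩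
    rw [h2, Finset.sum_singleton]

/-- The number of heavy edges does not change. -/
theorem countP_mapV (f : V → W) (G : WG V) :
    (mapV f G).countP (fun e => e.2) = G.countP (fun e => e.2) := by
  unfold mapV
  rw [List.countP_map]
  rfl

/-- Identifying vertices keeps the weight eulerian (degrees add up; for an arbitrary map `f` the
degree of `w` in `mapV f G` is the sum of the degrees of the ends `v` with `f v = w`). -/
theorem eulerian_mapV (f : V → W) (G : WG V) (hE : G.Eulerian) : (mapV f G).Eulerian := by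
  obtain ⟨S, hS⟩ := exists_endSet G
  have hS' : ∀ e ∈ G, e.1.1 ∈ S ∧ e.1.2 ∈ S := fun e he =>
    ⟨(hS _).2 ⟨e, he, Or.inl rfl⟩, (hS _).2 ⟨e, he, Or.inr rfl⟩⟩
  intro w
  have h1 : ∑ i ∈ (Finset.range (mapV f G).length).filter (fun i => (mapV f G).weight i = 1),
      (mapV f G).endsAt i w = ∑ v ∈ S.filter (fun v => f v = w),
        ∑ i ∈ (Finset.range G.length).filter (fun i => G.weight i = 1), G.endsAt i v := by
    rw [Finset.sum_comm]
    simp only [length_mapV, weight_mapV]
    exact Finset.sum_congr rfl fun i _ => endsAt_mapV_sum f G S hS' i w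
  rw [h1]
  exact Finset.even_sum _ fun v _ => hE v

/-- Identifying vertices keeps graphs bridgeless (take preimages of cuts). -/
theorem bridgeless_mapV (f : V → W) (G : WG V) (hB : G.Bridgeless) : (mapV f G).Bridgeless := by
  intro A i h
  exact hB (f ⁻¹' A) i fun j => by rw [← crosses_mapV]; exact h j

/-- Identifying vertices keeps the light subgraph connected (take preimages of cuts). -/
theorem lightConnected_mapV (f : V → W) (G : WG V) (hL : G.LightConnected) :
    (mapV f G).LightConnected := by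
  intro A hA
  have h1 := hL (f ⁻¹' A) (fun i hi => by
    rw [← crosses_mapV]
    exact hA i (by rw [weight_mapV]; exact hi))
  unfold mapV
  rcases h1 with h1 | h1
  · left
    intro e he he2
    obtain ⟨e', he', rfl⟩ := List.mem_map.1 he
    exact h1 e' he' he2
  · right
    intro e he he2
    obtain ⟨e', he', rfl⟩ := List.mem_map.1 he
    exact h1 e' he' he2

end WG
end Pool.Agent.W_c81d44_h82
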