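import Pool.Agent.W_c81d44_h82.Hand
import Pool.Agent.W_c81d44_h82.MapV

/-!
# Bridgeless graphs and eulerian weights from partial colourings; labelled edges
-/

set_option autoImplicit false

namespace Pool.Agent.W_c81d44_h82

variable {V : Type} [DecidableEq V]

open WG

/-- If every edge carries a colour in some even assignment of colours, there is no cut-edge
(`even_cut`: exactly one edge of colour `c` would cross the cut). -/
theorem bridgeless_of_partial (G : WG V)
    (h : ∀ i < G.length, ∃ ψ : ℕ → Finset ℕ, (∀ v c, Even (G.par ψ v c)) ∧ (ψ i).Nonempty) :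
    G.Bridgeless := by
  classical
  intro A i hcon
  obtain ⟨e, he, _⟩ := (hcon i).2 rfl
  have hi : i < G.length := by
    by_contra hcon2
    rw [List.getElem?_eq_none (by omega)] at he
    cases he
  obtain ⟨ψ, hψ, c, hc⟩ := h i hi
  have h1 := even_cut G ψ c A (fun v _ => hψ v c)
  have h2 : (Finset.range G.length).filter (fun j => c ∈ ψ j ∧ G.Crosses A j) = {i} := by
    ext j
    rw [Finset.mem_filter, Finset.mem_range, Finset.mem_singleton, hcon j]
    constructor
    · rintro ⟨_, _, h3⟩
      exact h3
    · rintro rfl
      exact ⟨hi, hc, rfl⟩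
  have h3 : ((Finset.range G.length).filter (fun j => c ∈ ψ j ∧ G.Crosses A j)).card = 1 := by
    rw [h2]; rfl
  have h4 : Even 1 := by
    rw [← h3]
    convert h1
  exact absurd h4 (by decide)

/-- If there is an even assignment in which edges of weight `1` have one colour and edges of weight
`2` have two or no colours, then the weight is eulerian.

Proof.  `∑_c par G ψ v c = ∑_i (ψ i).card * endsAt i v` (sum over a finite set of colours
containing all `ψ i`), which has the parity of the degree of `v` in the subgraph of edges of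
weight `1`. -/
theorem eulerian_of_partial (G : WG V) (ψ : ℕ → Finset ℕ) (h : ∀ v c, Even (G.par ψ v c))
    (h1 : ∀ i, G.weight i = 1 → (ψ i).card = 1)
    (h2 : ∀ i, G.weight i = 2 → (ψ i).card = 2 ∨ ψ i = ∅) : G.Eulerian := by
  intro v
  have e1 : ∑ c ∈ (Finset.range G.length).biUnion ψ, G.par ψ v c =
      ∑ i ∈ Finset.range G.length, (ψ i).card * G.endsAt i v := by
    unfold WG.par
    rw [Finset.sum_comm]
    refine Finset.sum_congr rfl fun i hi => ?_
    rw [← Finset.sum_filter]
    have e2 : ((Finset.range G.length).biUnion ψ).filter (fun c => c ∈ ψ i) = ψ i := by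
      ext c
      rw [Finset.mem_filter, Finset.mem_biUnion]
      constructor
      · rintro ⟨_, h3⟩
        exact h3
      · intro h3
        exact ⟨⟨i, hi, h3⟩, h3⟩
    rw [e2, Finset.sum_const, smul_eq_mul]
  have e3 : Even (∑ i ∈ Finset.range G.length, (ψ i).card * G.endsAt i v) := by
    rw [← e1]
    exact Finset.even_sum _ fun c _ => h v c
  rw [← ZMod.natCast_eq_zero_iff_even] at e3 ⊢
  rw [Finset.sum_filter, ← e3, Nat.cast_sum, Nat.cast_sum]
  refine Finset.sum_congr rfl fun i hi => ?_
  have hi' := Finset.mem_range.1 hi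
  by_cases hw : G.weight i = 1
  · rw [if_pos hw, h1 i hw, one_mul]
  · rw [if_neg hw]
    have hw2 : G.weight i = 2 := by
      unfold WG.weight at hw ⊢
      rw [List.getElem?_eq_getElem hi'] at hw ⊢
      change (if G[i].2 = true then 2 else 1) = 2
      change ¬ (if G[i].2 = true then 2 else 1) = 1 at hw
      by_cases hb : G[i].2 = true
      · rw [if_pos hb]
      · rw [if_neg hb] at hw
        exact absurd rfl hw
    have h2z : (2 : ZMod 2) = 0 := rfl
    rcases h2 i hw2 with h3 | h3
    · rw [h3]
      push_cast
      rw [h2z, zero_mul]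
    · rw [h3]
      simp

section labels

variable {Λ : Type} [DecidableEq Λ]

/-- A graph whose edges have names: `par` as a sum over the names. -/
theorem par_label (L : List Λ) (hL : L.Nodup) (ep : Λ → (V × V) × Bool) (col : Λ → Finset ℕ)
    (v : V) (c : ℕ) :
    WG.par (L.map ep) (fun k => (L[k]?).elim ∅ col) v c =
      ∑ l ∈ L.toFinset, if c ∈ col l then ends (ep l) v else 0 := by
  rw [List.sum_toFinset _ hL, ← Fin.sum_univ_fun_getElem]
  unfold WG.par
  rw [List.length_map, Finset.sum_range]
  refine Finset.sum_congr rfl fun i _ => ?_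
  have hi : i.val < L.length := i.isLt
  have e1 : WG.endsAt (L.map ep) i.val v = ends (ep L[i.val]) v := by
    unfold WG.endsAt
    rw [List.getElem?_map, List.getElem?_eq_getElem hi]
    rfl
  have e2 : (L[i.val]?).elim ∅ col = col L[i.val] := by
    rw [List.getElem?_eq_getElem hi]
    rfl
  by_cases hc : c ∈ col L[i.val]
  · rw [if_pos hc, if_pos (by show c ∈ (L[i.val]?).elim ∅ col; rw [e2]; exact hc), e1]
  · rw [if_neg hc, if_neg (by show c ∉ (L[i.val]?).elim ∅ col; rw [e2]; exact hc)]

/-- From a colouring by positions to a colouring by names: take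
`col l = ψ (L.idxOf l)`. -/
theorem label_of_col (L : List Λ) (hL : L.Nodup) (ep : Λ → (V × V) × Bool)
    (h : WG.Col (L.map ep)) :
    ∃ col : Λ → Finset ℕ, (∀ l ∈ L, (col l).card = if (ep l).2 then 2 else 1) ∧
      ∀ v c, Even (∑ l ∈ L.toFinset, if c ∈ col l then ends (ep l) v else 0) := by
  obtain ⟨ψ, h1, h2⟩ := h
  refine ⟨fun l => ψ (L.idxOf l), ?_, ?_⟩
  · intro l hl
    have hi : L.idxOf l < L.length := List.idxOf_lt_length_iff.2 hl
    rw [h1 (L.idxOf l) (by rw [List.length_map]; exact hi)]
    unfold WG.weight
    rw [List.getElem?_map, List.getElem?_eq_getElem hi, List.getElem_idxOf]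
    rfl
  · intro v c
    rw [← par_label L hL ep (fun l => ψ (L.idxOf l)) v c]
    have e : WG.par (L.map ep) (fun k => (L[k]?).elim ∅ (fun l => ψ (L.idxOf l))) v c =
        WG.par (L.map ep) ψ v c := by
      unfold WG.par
      refine Finset.sum_congr rfl fun i hi => ?_
      have hi' : i < L.length := by
        have := Finset.mem_range.1 hi
        rwa [List.length_map] at this
      simp only [List.getElem?_eq_getElem hi', Option.elim_some]
      rw [List.Nodup.idxOf_getElem hL]
    rw [e]
    exact h2 v c

/-- From a colouring by names to a colouring by positions. -/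
theorem col_of_label (L : List Λ) (hL : L.Nodup) (ep : Λ → (V × V) × Bool) (col : Λ → Finset ℕ)
    (h1 : ∀ l ∈ L, (col l).card = if (ep l).2 then 2 else 1)
    (h2 : ∀ v c, Even (∑ l ∈ L.toFinset, if c ∈ col l then ends (ep l) v else 0)) :
    WG.Col (L.map ep) := by
  refine ⟨fun k => (L[k]?).elim ∅ col, ?_, ?_⟩
  · intro i hi
    have hi' : i < L.length := by rwa [List.length_map] at hi
    unfold WG.weight
    simp only [List.getElem?_eq_getElem hi', Option.elim_some, List.getElem?_map, Option.map_some]
    exact h1 _ (List.getElem_mem hi')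
  · intro v c
    rw [par_label L hL ep col v c]
    exact h2 v c

end labels

end Pool.Agent.W_c81d44_h82
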