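import Pool.Agent.W_c81d44_h82.CubSound
import Pool.Agent.W_c81d44_h82.CubStrand
import Pool.Agent.W_c81d44_h82.Valid
import Pool.Agent.W_c81d44_h82.Circ2

/-!
# The cubic graph as a graph with vertices in `ℕ`
-/

set_option autoImplicit false

namespace Pool.Agent.W_c81d44_h82

/-- The names of the vertices, with repetitions. -/
def names2 (G : WG Cx) : List Cx := G.map (fun e => e.1.1) ++ G.map (fun e => e.1.2)

/-- Number the vertices. -/
def numb2 (G : WG Cx) : WG ℕ := WG.mapV (fun v => (names2 G).idxOf v) G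

/-- The cubic graph. -/
def cub (G : WG ℕ) : WG ℕ := numb2 ((labs2 G).map (ep2 G))

theorem CubInst_inj (G : WG Cx) : ∀ v w, (∃ e ∈ G, v = e.1.1 ∨ v = e.1.2) →
    (∃ e ∈ G, w = e.1.1 ∨ w = e.1.2) →
      (names2 G).idxOf v = (names2 G).idxOf w → v = w := by
  have hmem : ∀ v, (∃ e ∈ G, v = e.1.1 ∨ v = e.1.2) → v ∈ names2 G := by
    rintro v ⟨e, he, h | h⟩
    · exact List.mem_append_left _ (List.mem_map.2 ⟨e, he, h.symm⟩)
    · exact List.mem_append_right _ (List.mem_map.2 ⟨e, he, h.symm⟩)
  intro v w hv hw h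
  exact (List.idxOf_inj (hmem v hv)).1 h

/-- `even_mapV`; `idxOf` is injective on the members of `names2 G`. -/
theorem numb2_even (G : WG Cx) (ψ : ℕ → Finset ℕ) :
    (∀ w c, Even ((numb2 G).par ψ w c)) ↔ ∀ v c, Even (G.par ψ v c) :=
  WG.even_mapV _ G (CubInst_inj G) ψ

theorem numb2_col (G : WG Cx) : (numb2 G).Col ↔ G.Col := by
  constructor
  · rintro ⟨ψ, h1, h2⟩
    refine ⟨ψ, fun i hi => ?_, (numb2_even G ψ).1 h2⟩
    have h3 := h1 i (by unfold numb2; rw [WG.length_mapV]; exact hi)
    unfold numb2 at h3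
    rw [WG.weight_mapV] at h3
    exact h3
  · rintro ⟨ψ, h1, h2⟩
    refine ⟨ψ, fun i hi => ?_, (numb2_even G ψ).2 h2⟩
    unfold numb2 at hi ⊢
    rw [WG.length_mapV] at hi
    rw [WG.weight_mapV]
    exact h1 i hi

/-- Numbering keeps the cubic structure (`idxOf` is injective on the ends of edges). -/
theorem numb2_cubic (G : WG Cx) (h : CubicPM G) : CubicPM (numb2 G) := by
  obtain ⟨S, hS⟩ := WG.exists_endSet G
  have hS' : ∀ e ∈ G, e.1.1 ∈ S ∧ e.1.2 ∈ S := fun e he =>
    ⟨(hS _).2 ⟨e, he, Or.inl rfl⟩, (hS _).2 ⟨e, he, Or.inr rfl⟩⟩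
  rintro w ⟨i, hi⟩
  have key : ∀ j, (numb2 G).endsAt j w =
      ∑ v ∈ S.filter (fun v => (names2 G).idxOf v = w), G.endsAt j v :=
    fun j => WG.endsAt_mapV_sum _ G S hS' j w
  rw [key] at hi
  obtain ⟨v, hv, hvi⟩ := Finset.exists_ne_zero_of_sum_ne_zero hi
  rw [Finset.mem_filter] at hv
  have hf : S.filter (fun v => (names2 G).idxOf v = w) = {v} := by
    ext v'
    rw [Finset.mem_filter, Finset.mem_singleton]
    constructor
    · rintro ⟨h1, h2⟩
      exact CubInst_inj G v' v ((hS _).1 h1) ((hS _).1 hv.1) (h2.trans hv.2.symm)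
    · rintro rfl
      exact hv
  have key2 : ∀ j, (numb2 G).endsAt j w = G.endsAt j v := fun j => by
    rw [key, hf, Finset.sum_singleton]
  have hl : (numb2 G).length = G.length := WG.length_mapV _ G
  have hw : ∀ j, (numb2 G).weight j = G.weight j := fun j => WG.weight_mapV _ G j
  have h1 := h v ⟨i, hvi⟩
  unfold WG.deg at h1 ⊢
  simp only [hl, hw, key2]
  exact h1

/-- positions and names -/
theorem CubInst_deg (G : WG ℕ) (b : Bool) (X : Cx) :
    WG.deg ((labs2 G).map (ep2 G))
      ((Finset.range ((labs2 G).map (ep2 G)).length).filter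
        (fun i => WG.weight ((labs2 G).map (ep2 G)) i = if b then 2 else 1)) X =
    cnt2 G (fun l => if (ep2 G l).2 = b then {0} else ∅) X 0 := by
  have h1 := par_label (labs2 G) (nodup_labs2 G) (ep2 G)
    (fun l => if (ep2 G l).2 = b then {0} else ∅) X 0
  unfold cnt2
  rw [← h1]
  unfold WG.par WG.deg
  rw [Finset.sum_filter]
  refine Finset.sum_congr rfl (fun i hi => ?_)
  have hi' : i < (labs2 G).length := by
    rw [Finset.mem_range, List.length_map] at hi
    exact hi
  congr 1
  unfold WG.weight
  beta_reduce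
  rw [List.getElem?_map, List.getElem?_eq_getElem hi']
  simp only [Option.map_some, Option.elim_some, eq_iff_iff]
  cases (ep2 G (labs2 G)[i]).2 <;> cases b <;> simp

theorem CubInst_star {G : WG ℕ} {X : Cx} (h : Valid2 G X) : ∃ a b d, Star3 G X a b d := by
  cases X with
  | E k s => exact ⟨_, _, _, star_E h⟩
  | P v r i b =>
    cases b
    · exact ⟨_, _, _, star_P1 h.1 h.2.1 h.2.2⟩
    · exact ⟨_, _, _, star_P2 h.1 h.2.1 h.2.2⟩
  | Q v r i b =>
    cases b
    · exact ⟨_, _, _, star_Q1 h.1 h.2.1 h.2.2⟩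
    · exact ⟨_, _, _, star_Q2 h.1 h.2.1 h.2.2⟩
  | C v r i m => exact ⟨_, _, _, star_C h.1 h.2.1 h.2.2 m⟩

/-- The star lemmas: every vertex at which an edge ends is valid (`touched2`) and has exactly three
edge ends, one heavy and two light. -/
theorem cubic_net (G : WG ℕ) (hN : ∀ v, Even (nn G v)) : CubicPM ((labs2 G).map (ep2 G)) := by
  rintro X ⟨i, hi⟩
  have hV : Valid2 G X := by
    unfold WG.endsAt at hi
    rw [List.getElem?_map] at hi
    cases hl : (labs2 G)[i]? with
    | none => rw [hl] at hi; exact absurd rfl hi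
    | some l =>
      rw [hl] at hi
      exact touched2 hN (List.mem_of_getElem? hl) hi
  obtain ⟨a, b, d, hs⟩ := CubInst_star hV
  have e1 := CubInst_deg G false X
  have e2 := CubInst_deg G true X
  rw [cnt2_of_star hs] at e1 e2
  obtain ⟨_, _, _, _, _, _, ha, hb, hd, _⟩ := hs
  simp only [ha, hb, hd] at e1 e2
  constructor
  · simpa using e1
  · simpa using e2

theorem CubInst_SE {G : WG ℕ} (hE : G.Eulerian) :
    SEven G (fun k c => if c = false ∧ k ∈ (∅ : Finset ℕ) then 1 else 2) :=
  strand_of_even hE (D := ∅) (fun i hi => absurd hi (Finset.notMem_empty i))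
    (fun v => by simp [WG.deg])

/-- The number of strand ends at `v` is even if the weight is eulerian. -/
theorem nn_even_of_eulerian (G : WG ℕ) (hE : G.Eulerian) (v : ℕ) : Even (nn G v) :=
  nn_even (CubInst_SE hE) v

/-- The cubic graph has a faithful circuit cover iff `G` has one.

Proof.  `hasFCC_iff_col`, `numb2_col`.  (→) `label_of_col` (with `nodup_labs2`), `sound2`.
(←) `strand_of_col`, `colS_even`, `colS_card` (the exceptional case is excluded),
`col_of_label`. -/
theorem cub_iff (G : WG ℕ) : (cub G).HasFCC ↔ G.HasFCC := by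
  rw [hasFCC_iff_col, hasFCC_iff_col]
  unfold cub
  rw [numb2_col]
  constructor
  · intro h
    obtain ⟨col, h1, h2⟩ := label_of_col _ (nodup_labs2 G) (ep2 G) h
    exact sound2 h1 h2
  · intro h
    obtain ⟨σ, h1, h2⟩ := strand_of_col h
    refine col_of_label _ (nodup_labs2 G) (ep2 G) (colS G σ) (fun l hl => ?_)
      (fun v c => colS_even h1 v c)
    rcases colS_card G σ l with h3 | ⟨k, rfl, h3, _⟩
    · exact h3
    · rw [mem_hv2] at hl
      exact absurd h3 (h2 k hl)

theorem CubInst_even (G : WG ℕ) (σ : ℕ → Bool → ℕ) (h : SEven G σ) :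
    ∀ w c, Even ((cub G).par (fun k => ((labs2 G)[k]?).elim ∅ (colS G σ)) w c) := by
  unfold cub
  rw [numb2_even]
  intro v c
  rw [par_label _ (nodup_labs2 G)]
  exact colS_even h v c

theorem CubInst_weight (G : WG ℕ) (i : ℕ) :
    (cub G).weight i =
      ((labs2 G)[i]?).elim 0 (fun l => if (ep2 G l).2 then 2 else 1) := by
  unfold cub numb2
  rw [WG.weight_mapV]
  unfold WG.weight
  rw [List.getElem?_map]
  cases (labs2 G)[i]? with
  | none => rfl
  | some l => rfl

/-- The cubic graph is bridgeless and its weight is eulerian if this is so for `G`.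

Proof.  For a strand colouring `σ` (`strand_of_even`) the assignment `colS G σ` is even
(`colS_even`), hence so is the assignment `k ↦ ((labs2 G)[k]?).elim ∅ (colS G σ)` for `cub G`
(`par_label`, `numb2_even`).  Eulerian: `eulerian_of_partial` with `D = ∅` and `colS_card`.
Bridgeless: `bridgeless_of_partial`; for a position whose name is not of the form `hv k` take
`D = ∅`; for `hv k` take `D ∋ k` from `exists_even_through`, so that the strands of `k` have the
colours `1` and `2`. -/
theorem cub_valid (G : WG ℕ) (hB : G.Bridgeless) (hE : G.Eulerian) :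
    (cub G).Bridgeless ∧ (cub G).Eulerian ∧ CubicPM (cub G) := by
  refine ⟨?_, ?_, numb2_cubic _ (cubic_net G (nn_even_of_eulerian G hE))⟩
  · refine bridgeless_of_partial _ fun k hk => ?_
    have hk' : k < (labs2 G).length := by
      unfold cub numb2 at hk
      rw [WG.length_mapV, List.length_map] at hk
      exact hk
    have hkl : (labs2 G)[k]? = some ((labs2 G)[k]) := List.getElem?_eq_getElem hk'
    have hmem : (labs2 G)[k] ∈ labs2 G := List.getElem_mem hk'
    by_cases h : ∃ k0, (labs2 G)[k] = Cl.hv k0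
    · obtain ⟨k0, hl⟩ := h
      have hh : hvy G k0 = true := by
        rw [hl, mem_hv2] at hmem
        exact hmem
      obtain ⟨D, hD1, hD2, hD3⟩ := exists_even_through hB (CubNet_lt_of_hvy G k0 hh)
      refine ⟨_, CubInst_even G _ (strand_of_even hE hD2 hD3), ?_⟩
      show (((labs2 G)[k]?).elim ∅ (colS G _)).Nonempty
      rw [hkl, hl, Option.elim_some]
      unfold colS
      simp [hD1]
    · refine ⟨_, CubInst_even G _ (CubInst_SE hE), ?_⟩
      show (((labs2 G)[k]?).elim ∅ (colS G _)).Nonempty
      rw [hkl, Option.elim_some]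
      rcases colS_card G (fun k c => if c = false ∧ k ∈ (∅ : Finset ℕ) then 1 else 2)
        ((labs2 G)[k]) with h1 | ⟨k0, h1, _⟩
      · rw [← Finset.card_pos, h1]
        split_ifs <;> norm_num
      · exact absurd ⟨k0, h1⟩ h
  · refine eulerian_of_partial _ _ (CubInst_even G _ (CubInst_SE hE)) (fun i hi => ?_)
      (fun i hi => ?_)
    · rw [CubInst_weight] at hi
      show (((labs2 G)[i]?).elim ∅ (colS G _)).card = 1
      cases hl : (labs2 G)[i]? with
      | none =>
        rw [hl] at hi
        exact absurd hi (by simp)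
      | some l =>
        rw [hl] at hi
        have hi' : (if (ep2 G l).2 = true then 2 else 1) = 1 := hi
        rw [Option.elim_some]
        rcases colS_card G (fun k c => if c = false ∧ k ∈ (∅ : Finset ℕ) then 1 else 2)
          l with h | ⟨k0, rfl, _⟩
        · rw [h, hi']
        · exact absurd hi' (by simp [ep2])
    · rw [CubInst_weight] at hi
      show (((labs2 G)[i]?).elim ∅ (colS G _)).card = 2 ∨
        ((labs2 G)[i]?).elim ∅ (colS G _) = ∅
      cases hl : (labs2 G)[i]? with
      | none =>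
        right
        rfl
      | some l =>
        rw [hl] at hi
        have hi' : (if (ep2 G l).2 = true then 2 else 1) = 2 := hi
        rw [Option.elim_some]
        rcases colS_card G (fun k c => if c = false ∧ k ∈ (∅ : Finset ℕ) then 1 else 2)
          l with h | ⟨k0, _, _, h⟩
        · left
          rw [h, hi']
        · right
          exact h

end Pool.Agent.W_c81d44_h82
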