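import Pool.Agent.W_c81d44_h82.Contract
import Pool.Agent.W_c81d44_h82.TJoin
import Pool.Agent.W_c81d44_h82.Circ2

/-!
# The exchange property implies the strong cycle double cover conjecture
-/

set_option autoImplicit false

namespace Pool.Agent.W_c81d44_h82

open WG

theorem Strong_get {G : WG ℕ} {i : ℕ} (hi : G.weight i = 2) :
    ∃ x y, G[i]? = some ((x, y), true) := by
  unfold WG.weight at hi
  cases he : G[i]? with
  | none => rw [he] at hi; simp at hi
  | some e =>
    rw [he] at hi
    obtain ⟨⟨x, y⟩, b⟩ := e
    cases b with
    | true => exact ⟨x, y, rfl⟩
    | false => simp at hi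

theorem Strong_lt {G : WG ℕ} {i : ℕ} {e : (ℕ × ℕ) × Bool} (h : G[i]? = some e) :
    i < G.length := by
  by_contra hcon
  rw [List.getElem?_eq_none (by omega)] at h
  cases h

theorem Strong_main (h : Exchange) : ∀ (n : ℕ) (G : WG ℕ), heavy G = n → G.Bridgeless →
    G.Eulerian → G.LightConnected → G.Col := by
  intro n
  induction n using Nat.strong_induction_on with
  | _ n ih =>
    intro G hn hB hE hL
    by_cases hcut : ∃ (i j : ℕ) (A : Set ℕ), G.weight i = 2 ∧ j ≠ i ∧
        ∀ k, G.Crosses A k ↔ (k = i ∨ k = j)
    · obtain ⟨i, j, A, hi, hji, hA⟩ := hcut
      have hw := weight_eq_of_cut G hE i j (Ne.symm hji) A hA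
      have hj : G.weight j = 2 := by rw [← hw]; exact hi
      obtain ⟨x, y, hxy⟩ := Strong_get hj
      refine col_of_contract G i j (Ne.symm hji) A hA hw x y ⟨_, hxy⟩ ?_
      have hhe := heavy_erase G j hj
      have hc : heavy (contract G j x y) = heavy (G.eraseIdx j) :=
        countP_mapV _ (G.eraseIdx j)
      exact ih (heavy (contract G j x y)) (by omega) _ rfl
        (contract_bridgeless G j x y ⟨_, hxy⟩ hB) (contract_eulerian G j x y hj hE)
        (contract_lightConnected G j x y hj hL)
    · push Not at hcut
      have her : ∀ i, G.weight i = 2 → WG.Col (G.eraseIdx i) := by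
        intro i hi
        obtain ⟨x, y, hxy⟩ := Strong_get hi
        have hhe := heavy_erase G i hi
        refine ih (heavy (G.eraseIdx i)) (by omega) _ rfl ?_ (erase_eulerian G i hi hE)
          (erase_lightConnected G i hi hL)
        refine erase_bridgeless G i (Strong_lt hxy) hB ?_
        intro A j hji hcon
        obtain ⟨k, hk⟩ := hcut i j A hi hji
        rcases hk with hk | hk
        · exact (not_or.2 hk.2) ((hcon k).1 hk.1)
        · exact hk.1 ((hcon k).2 hk.2)
      by_cases hloop : ∃ (i v : ℕ), G[i]? = some ((v, v), true)
      · obtain ⟨i, v, hv⟩ := hloop
        have hi : G.weight i = 2 := by unfold WG.weight; rw [hv]; rfl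
        exact col_of_loop G i v hv (her i hi)
      · by_cases hadj : ∃ i j, i ≠ j ∧ G.weight i = 2 ∧ G.weight j = 2 ∧ G.Adjacent i j
        · obtain ⟨i, j, hij, hi, hj, had⟩ := hadj
          rw [← hasFCC_iff_col]
          exact h G i j hij hi hj had ((hasFCC_iff_col _).2 (her i hi))
            ((hasFCC_iff_col _).2 (her j hj))
        · refine col_of_light G hE hL ?_
          intro i hi v hv
          obtain ⟨x, y, hxy⟩ := Strong_get hi
          have hne : x ≠ y := by
            rintro rfl
            exact hloop ⟨i, x, hxy⟩
          have hends : (if x = v then 1 else 0) + (if y = v then 1 else 0) ≠ 0 := by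
            unfold WG.endsAt at hv
            rw [hxy] at hv
            exact hv
          have hcr : G.Crosses {v} i := by
            refine ⟨_, hxy, ?_⟩
            simp only [Set.mem_singleton_iff]
            by_cases h1 : x = v
            · left
              exact ⟨h1, fun h2 => hne (h1.trans h2.symm)⟩
            · by_cases h2 : y = v
              · right
                exact ⟨h1, h2⟩
              · rw [if_neg h1, if_neg h2] at hends
                exact absurd rfl hends
          have hb := hB {v} i
          push Not at hb
          obtain ⟨j, hj⟩ := hb
          have hj' : G.Crosses {v} j ∧ j ≠ i := by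
            rcases hj with hj | hj
            · exact hj
            · exfalso
              apply hj.1
              rw [hj.2]
              exact hcr
          obtain ⟨⟨e, hej, hcj⟩, hji⟩ := hj'
          have hej' : G.endsAt j v ≠ 0 := by
            unfold WG.endsAt
            rw [hej]
            change (if e.1.1 = v then 1 else 0) + (if e.1.2 = v then 1 else 0) ≠ 0
            simp only [Set.mem_singleton_iff] at hcj
            rcases hcj with hcj | hcj
            · rw [if_pos hcj.1]; omega
            · rw [if_pos hcj.2]; omega
          refine ⟨j, ?_, hej'⟩
          have hnot : G.weight j ≠ 2 := by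
            intro hj2
            exact hadj ⟨i, j, Ne.symm hji, hi, hj2, v, hv, hej'⟩
          unfold WG.weight at hnot ⊢
          rw [hej] at hnot ⊢
          change (if e.2 = true then 2 else 1) ≠ 2 at hnot
          change (if e.2 = true then 2 else 1) = 1
          by_cases he2 : e.2 = true
          · rw [if_pos he2] at hnot
            exact absurd rfl hnot
          · rw [if_neg he2]

/-- The exchange property implies the strong cycle double cover conjecture.

Proof.  By induction on the number of heavy edges (`WG.heavy`), for all graphs `G : WG ℕ` which are
bridgeless, eulerian and light-connected; work with `Col` (`hasFCC_iff_col`).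
Case 1: there are a heavy edge `i`, an edge `j ≠ i` and a set `A` such that exactly `i` and `j`
cross `A`.  Then `j` is heavy (`weight_eq_of_cut`).  Let `x`, `y` be the ends of `j` (distinct, but
this is not needed here).  `contract G j x y` is bridgeless, eulerian, light-connected and has one
heavy edge less, so it has a colouring by induction, and so has `G` (`col_of_contract`).
Case 2: otherwise.  For every heavy edge `i` the graph `G.eraseIdx i` is bridgeless
(`erase_bridgeless`), eulerian and light-connected, so by induction it has a faithful circuit cover.
If some heavy edge `i` is a loop, use `col_of_loop`.  If two different heavy edges are adjacent, use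
the exchange property.  Otherwise every end `v` of a heavy edge `i` is an end of a light edge:
`i` crosses the set `{v}` as it is not a loop; since `G` is bridgeless another edge `j` crosses
`{v}`; it has the end `v`, is not heavy since no two heavy edges are adjacent, so it is light.
Now `col_of_light` applies. -/
theorem strongCDC_of_exchange (h : Exchange) : StrongCDC := by
  intro G hB hE hL
  rw [hasFCC_iff_col]
  exact Strong_main h (heavy G) G rfl hB hE hL

end Pool.Agent.W_c81d44_h82
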