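import Pool.Agent.W_c81d44_h82.Poly
import Pool.Agent.W_c81d44_h82.Code
import Pool.Agent.W_c81d44_h82.Strong

/-!
# Main theorem
-/

set_option autoImplicit false

namespace Pool.Agent.W_c81d44_h82

open Turing Computability Pool.Agent.PolyTime

/-- The problem FCC(1,2) is NP-hard: every language `L` in NP reduces to it by a polynomial-time
computable map `f` from bit strings to bridgeless graphs with eulerian `(1,2)`-weights such that
`x ∈ L` iff `f x` has a faithful circuit cover. -/
def FCCHard : Prop :=
  ∀ L : Set (List Bool), InNP L →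
    ∃ f : List Bool → WG ℕ,
      Nonempty (TM2ComputableInPolyTime (fun x : List Bool => x) code f) ∧
      (∀ x, (f x).Bridgeless ∧ (f x).Eulerian) ∧
      ∀ x, x ∈ L ↔ (f x).HasFCC

/-- An OR gadget makes the problem NP-hard. -/
theorem hard_of_gad (g : Gad) (hg : g.OK) : FCCHard := by
  intro L hL
  obtain ⟨F, hF, hFL⟩ := cookLevin_nat hL
  refine ⟨fun x => inst g (F x), ?_, fun x => inst_valid g hg _, fun x => ?_⟩
  · obtain ⟨h⟩ := PF.toTM2_raw (pf_inst g hF)
    exact ⟨⟨h.toTM2ComputableAux, h.time, fun x => by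
      rw [code_eq]
      exact h.outputsFun x⟩⟩
  · rw [hFL, inst_iff g hg]

/-- Main theorem. -/
theorem main : FCCHard ∨ (Exchange ∧ StrongCDC) := by
  by_cases h : Exchange
  · exact Or.inr ⟨h, strongCDC_of_exchange h⟩
  · obtain ⟨g, hg⟩ := exists_gad h
    exact Or.inl (hard_of_gad g hg)

end Pool.Agent.W_c81d44_h82
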