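import Pool.Agent.W_c81d44_h82.CubPoly
import Pool.Agent.W_c81d44_h82.Main

/-!
# Main theorems for cubic graphs
-/

set_option autoImplicit false

namespace Pool.Agent.W_c81d44_h82

open Turing Computability Pool.Agent.PolyTime

/-- FCC(1,2) reduces in polynomial time to its restriction to cubic graphs in which the edges of
weight `2` form a perfect matching. -/
theorem cubic_reduction :
    ∃ f : WG ℕ → WG ℕ, Nonempty (TM2ComputableInPolyTime code code f) ∧
      ∀ G : WG ℕ, G.Bridgeless → G.Eulerian →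
        (f G).Bridgeless ∧ (f G).Eulerian ∧ CubicPM (f G) ∧ ((f G).HasFCC ↔ G.HasFCC) := by
  refine ⟨cub, ?_, fun G hB hE => ?_⟩
  · obtain ⟨h⟩ := PF.toTM2 (pf_cub (F := fun G : WG ℕ => G) PF.id)
    have e : code = fun G => bits G := funext code_eq
    rw [e]
    exact ⟨h⟩
  · obtain ⟨h1, h2, h3⟩ := cub_valid G hB hE
    exact ⟨h1, h2, h3, cub_iff G⟩

/-- NP-hardness for cubic graphs in which the edges of weight `2` form a perfect matching. -/
def FCCHardCubic : Prop :=
  ∀ L : Set (List Bool), InNP L →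
    ∃ f : List Bool → WG ℕ,
      Nonempty (TM2ComputableInPolyTime (fun x : List Bool => x) code f) ∧
      (∀ x, (f x).Bridgeless ∧ (f x).Eulerian ∧ CubicPM (f x)) ∧
      ∀ x, x ∈ L ↔ (f x).HasFCC

theorem hardCubic_of_gad (g : Gad) (hg : g.OK) : FCCHardCubic := by
  intro L hL
  obtain ⟨F, hF, hFL⟩ := cookLevin_nat hL
  refine ⟨fun x => cub (inst g (F x)), ?_, fun x => ?_, fun x => ?_⟩
  · obtain ⟨h⟩ := PF.toTM2_raw (pf_cub (pf_inst g hF))
    have e : code = fun G => bits G := funext code_eq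
    rw [e]
    exact ⟨h⟩
  · exact cub_valid _ (inst_valid g hg _).1 (inst_valid g hg _).2
  · rw [hFL, cub_iff, inst_iff g hg]

/-- Main theorem for cubic graphs. -/
theorem main_cubic : FCCHardCubic ∨ (Exchange ∧ StrongCDC) := by
  by_cases h : Exchange
  · exact Or.inr ⟨h, strongCDC_of_exchange h⟩
  · obtain ⟨g, hg⟩ := exists_gad h
    exact Or.inl (hardCubic_of_gad g hg)

end Pool.Agent.W_c81d44_h82
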