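import Pool.Agent.W_c81d44_h82.Colour

/-!
# The cubic graph associated with a weighted graph

Every edge of weight `1` is written as one strand, every edge of weight `2` (heavy edge) as two
strands.
-/

set_option autoImplicit false

namespace Pool.Agent.W_c81d44_h82

/-- Every vertex (that is an end of some edge) is incident with exactly two ends of edges of weight
`1` and with exactly one end of an edge of weight `2`.  So the graph is cubic, the edges of weight
`2` form a perfect matching and the edges of weight `1` form a 2-factor. -/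
def CubicPM {V : Type} [DecidableEq V] (G : WG V) : Prop :=
  ∀ v, (∃ i, G.endsAt i v ≠ 0) →
    G.deg ((Finset.range G.length).filter (fun i => G.weight i = 1)) v = 2 ∧
    G.deg ((Finset.range G.length).filter (fun i => G.weight i = 2)) v = 1

/-- The end number `s` of the edge `k`. -/
def own (G : WG ℕ) (k : ℕ) (s : Bool) : ℕ := (G[k]?).elim 0 (fun e => if s then e.1.2 else e.1.1)

/-- Is the edge `k` heavy? -/
def hvy (G : WG ℕ) (k : ℕ) : Bool := (G[k]?).elim false (fun e => e.2)

/-- The strand ends `(k, s, c)` at the vertex `v`: end `s` of the strand `c` of the edge `k`. -/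
def sl (G : WG ℕ) (v : ℕ) : List (ℕ × Bool × Bool) :=
  (List.range G.length).flatMap (fun k => [false, true].flatMap (fun s =>
    if own G k s = v then (if hvy G k then [(k, s, false), (k, s, true)] else [(k, s, false)])
    else []))

/-- The number of strand ends at `v`. -/
def nn (G : WG ℕ) (v : ℕ) : ℕ := (sl G v).length

/-- The position of a strand end in the list of its vertex. -/
def pos (G : WG ℕ) (k : ℕ) (s c : Bool) : ℕ := (sl G (own G k s)).idxOf (k, s, c)

/-- The vertices of `G`. -/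
def vs (G : WG ℕ) : List ℕ := (G.map (fun e => e.1.1) ++ G.map (fun e => e.1.2)).dedup

/-- The vertices of the cubic graph: ends of heavy edges, two vertices for every wire `P v r i` and
`Q v r i`, four vertices for every comparator `(v, r, i)`. -/
inductive Cx
  | E (k : ℕ) (s : Bool)
  | P (v r i : ℕ) (b : Bool)
  | Q (v r i : ℕ) (b : Bool)
  | C (v r i : ℕ) (m : Fin 4)
  deriving DecidableEq

/-- The edges of the cubic graph: light edges, heavy edges, strands of heavy edges, the two edges
of a wire (the flag `true` for the heavy one), the eight edges of a comparator, tails, caps. -/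
inductive Cl
  | lt (k : ℕ)
  | hv (k : ℕ)
  | st (k : ℕ) (s c : Bool)
  | p (v r i : ℕ) (h : Bool)
  | q (v r i : ℕ) (h : Bool)
  | c (v r i : ℕ) (j : Fin 8)
  | tail (v r : ℕ)
  | cap (v r : ℕ)
  deriving DecidableEq

/-- The edges of a comparator: vertices `0 = A1`, `1 = A2`, `2 = B1`, `3 = B2`; inputs
`P v r i` (edge `4` at `A1`) and `Q v r (i+1)` (edge `6` at `B2`), outputs `P v (r+1) (i-1)`
(edge `5` at `A2`) and `Q v r i` (edge `7` at `B1`). -/
def ctbl (v r i : ℕ) (j : Fin 8) : (Cx × Cx) × Bool :=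
  match j with
  | 0 => ((.C v r i 0, .C v r i 1), true)
  | 1 => ((.C v r i 2, .C v r i 3), true)
  | 2 => ((.C v r i 0, .C v r i 2), false)
  | 3 => ((.C v r i 1, .C v r i 3), false)
  | 4 => ((.P v r i true, .C v r i 0), false)
  | 5 => ((.C v r i 1, .P v (r + 1) (i - 1) false), false)
  | 6 => ((.Q v r (i + 1) true, .C v r i 3), false)
  | 7 => ((.C v r i 2, .Q v r i false), false)

/-- The edge with a given name. -/
def ep2 (G : WG ℕ) : Cl → (Cx × Cx) × Bool
  | .lt k => ((.P (own G k false) 0 (pos G k false false) false,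
      .P (own G k true) 0 (pos G k true false) false), false)
  | .hv k => ((.E k false, .E k true), true)
  | .st k s c => ((.E k s, .P (own G k s) 0 (pos G k s c) false), false)
  | .p v r i h => ((.P v r i false, .P v r i true), h)
  | .q v r i h => ((.Q v r i false, .Q v r i true), h)
  | .c v r i j => ctbl v r i j
  | .tail v r => ((.P v r (nn G v - 2 * r - 1) true, .Q v r (nn G v - 2 * r - 1) false), false)
  | .cap v r => ((.P v r 0 true, .Q v r 1 true), false)

/-- The names of the edges of level `r` of the network of `v`. -/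
def lvlLabs (G : WG ℕ) (v r : ℕ) : List Cl :=
  (List.range (nn G v - 2 * r)).flatMap (fun i => [Cl.p v r i true, Cl.p v r i false]) ++
  (List.range (nn G v - 2 * r - 1)).flatMap
    (fun i => [Cl.q v r (i + 1) true, Cl.q v r (i + 1) false]) ++
  (List.range (nn G v - 2 * r - 2)).flatMap
    (fun i => (List.finRange 8).map (fun j => Cl.c v r (i + 1) j)) ++
  [Cl.tail v r, Cl.cap v r]

/-- The names of all edges. -/
def labs2 (G : WG ℕ) : List Cl :=
  (List.range G.length).flatMap (fun k => if hvy G k then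
    [Cl.hv k, Cl.st k false false, Cl.st k false true, Cl.st k true false, Cl.st k true true]
    else [Cl.lt k]) ++
  (vs G).flatMap (fun v => (List.range (nn G v / 2)).flatMap (fun r => lvlLabs G v r))

theorem CubNet_nodup {α β : Type} [DecidableEq α] (l : List α) (f : α → List β) (hl : l.Nodup)
    (h1 : ∀ a ∈ l, (f a).Nodup) (key : β → α) (h2 : ∀ a ∈ l, ∀ b ∈ f a, key b = a) :
    (l.flatMap f).Nodup := by
  refine List.nodup_flatMap.2 ⟨h1, ?_⟩
  refine List.Pairwise.imp_of_mem ?_ hl
  intro a b ha hb hab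
  simp only [Function.onFun, List.disjoint_left]
  intro x hx hx'
  exact hab ((h2 a ha x hx).symm.trans (h2 b hb x hx'))

/-- group, edge, vertex, level and position of a name -/
def CubNet_kk : Cl → ℕ
  | .lt k => k
  | .hv k => k
  | .st k _ _ => k
  | _ => 0

def CubNet_kg : Cl → ℕ
  | .lt _ => 0
  | .hv _ => 0
  | .st _ _ _ => 0
  | _ => 1

def CubNet_kh : Cl → ℕ
  | .p _ _ _ _ => 0
  | .q _ _ _ _ => 1
  | .c _ _ _ _ => 2
  | _ => 3

def CubNet_kv : Cl → ℕ
  | .p v _ _ _ => v
  | .q v _ _ _ => v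
  | .c v _ _ _ => v
  | .tail v _ => v
  | .cap v _ => v
  | _ => 0

def CubNet_kr : Cl → ℕ
  | .p _ r _ _ => r
  | .q _ r _ _ => r
  | .c _ r _ _ => r
  | .tail _ r => r
  | .cap _ r => r
  | _ => 0

def CubNet_ki : Cl → ℕ
  | .p _ _ i _ => i
  | .q _ _ i _ => i - 1
  | .c _ _ i _ => i - 1
  | _ => 0

theorem CubNet_append {β : Type} {l m : List β} (hl : l.Nodup) (hm : m.Nodup) (key : β → ℕ)
    (n : ℕ) (h1 : ∀ b ∈ l, key b < n) (h2 : ∀ b ∈ m, n ≤ key b) : (l ++ m).Nodup := by
  refine List.Nodup.append hl hm ?_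
  simp only [List.disjoint_left]
  intro x hx hx'
  exact absurd (h1 x hx) (Nat.not_lt.mpr (h2 x hx'))

theorem CubNet_lvl (G : WG ℕ) (v r : ℕ) : (lvlLabs G v r).Nodup := by
  unfold lvlLabs
  refine CubNet_append (CubNet_append (CubNet_append ?_ ?_ CubNet_kh 1 ?_ ?_) ?_ CubNet_kh 2
    ?_ ?_) ?_ CubNet_kh 3 ?_ ?_
  · refine CubNet_nodup _ _ List.nodup_range (fun i _ => by simp) CubNet_ki ?_
    intro i _ b hb
    simp only [List.mem_cons, List.not_mem_nil, or_false] at hb
    rcases hb with rfl | rfl <;> rfl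
  · refine CubNet_nodup _ _ List.nodup_range (fun i _ => by simp) CubNet_ki ?_
    intro i _ b hb
    simp only [List.mem_cons, List.not_mem_nil, or_false] at hb
    rcases hb with rfl | rfl <;> rfl
  · intro b hb
    simp only [List.mem_flatMap, List.mem_cons, List.not_mem_nil, or_false] at hb
    rcases hb with ⟨i, _, rfl | rfl⟩ <;> simp [CubNet_kh]
  · intro b hb
    simp only [List.mem_flatMap, List.mem_cons, List.not_mem_nil, or_false] at hb
    rcases hb with ⟨i, _, rfl | rfl⟩ <;> simp [CubNet_kh]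
  · refine CubNet_nodup _ _ List.nodup_range (fun i _ => ?_) CubNet_ki ?_
    · exact (List.nodup_finRange 8).map (fun a b h => by simpa using h)
    · intro i _ b hb
      simp only [List.mem_map] at hb
      rcases hb with ⟨j, _, rfl⟩
      rfl
  · intro b hb
    simp only [List.mem_append, List.mem_flatMap, List.mem_cons, List.not_mem_nil, or_false] at hb
    rcases hb with ⟨i, _, rfl | rfl⟩ | ⟨i, _, rfl | rfl⟩ <;> simp [CubNet_kh]
  · intro b hb
    simp only [List.mem_flatMap, List.mem_map] at hb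
    rcases hb with ⟨i, _, j, _, rfl⟩
    simp [CubNet_kh]
  · simp
  · intro b hb
    simp only [List.mem_append, List.mem_flatMap, List.mem_map, List.mem_cons, List.not_mem_nil,
      or_false] at hb
    rcases hb with (⟨i, _, rfl | rfl⟩ | ⟨i, _, rfl | rfl⟩) | ⟨i, _, j, _, rfl⟩ <;>
      simp [CubNet_kh]
  · intro b hb
    simp only [List.mem_cons, List.not_mem_nil, or_false] at hb
    rcases hb with rfl | rfl <;> simp [CubNet_kh]

theorem CubNet_lvl_key (G : WG ℕ) (v r : ℕ) (b : Cl) (hb : b ∈ lvlLabs G v r) :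
    CubNet_kv b = v ∧ CubNet_kr b = r ∧ CubNet_kg b = 1 := by
  simp only [lvlLabs, List.mem_append, List.mem_flatMap, List.mem_map, List.mem_cons,
    List.not_mem_nil, or_false] at hb
  rcases hb with ((⟨i, _, rfl | rfl⟩ | ⟨i, _, rfl | rfl⟩) | ⟨i, _, j, _, rfl⟩) | rfl | rfl <;>
    simp [CubNet_kv, CubNet_kr, CubNet_kg]

theorem CubNet_lt_of_hvy (G : WG ℕ) (k : ℕ) (h : hvy G k = true) : k < G.length := by
  by_contra hk
  rw [hvy, List.getElem?_eq_none (Nat.not_lt.mp hk)] at h
  simp at h

theorem nodup_labs2 (G : WG ℕ) : (labs2 G).Nodup := by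
  unfold labs2
  refine CubNet_append ?_ ?_ CubNet_kg 1 ?_ ?_
  · refine CubNet_nodup _ _ List.nodup_range (fun k _ => ?_) CubNet_kk ?_
    · split <;> simp
    · intro k _ b hb
      split at hb
      · simp only [List.mem_cons, List.not_mem_nil, or_false] at hb
        rcases hb with rfl | rfl | rfl | rfl | rfl <;> rfl
      · simp only [List.mem_cons, List.not_mem_nil, or_false] at hb
        subst hb
        rfl
  · refine CubNet_nodup _ _ (List.nodup_dedup _) (fun v _ => ?_) CubNet_kv ?_
    · refine CubNet_nodup _ _ List.nodup_range (fun r _ => CubNet_lvl G v r) CubNet_kr ?_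
      intro r _ b hb
      exact (CubNet_lvl_key G v r b hb).2.1
    · intro v _ b hb
      simp only [List.mem_flatMap] at hb
      obtain ⟨r, _, hb⟩ := hb
      exact (CubNet_lvl_key G v r b hb).1
  · intro b hb
    simp only [List.mem_flatMap] at hb
    obtain ⟨k, _, hb⟩ := hb
    split at hb
    · simp only [List.mem_cons, List.not_mem_nil, or_false] at hb
      rcases hb with rfl | rfl | rfl | rfl | rfl <;> simp [CubNet_kg]
    · simp only [List.mem_cons, List.not_mem_nil, or_false] at hb
      subst hb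
      simp [CubNet_kg]
  · intro b hb
    simp only [List.mem_flatMap] at hb
    obtain ⟨v, _, r, _, hb⟩ := hb
    exact (CubNet_lvl_key G v r b hb).2.2.ge

theorem CubNet_mem (G : WG ℕ) (l : Cl) : l ∈ labs2 G ↔
    (∃ k < G.length, l ∈ (if hvy G k then
      [Cl.hv k, Cl.st k false false, Cl.st k false true, Cl.st k true false, Cl.st k true true]
      else [Cl.lt k])) ∨
    (∃ v ∈ vs G, ∃ r < nn G v / 2, l ∈ lvlLabs G v r) := by
  simp only [labs2, List.mem_append, List.mem_flatMap, List.mem_range]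

theorem CubNet_mem1 (G : WG ℕ) (l : Cl) (h : CubNet_kg l = 0) : l ∈ labs2 G ↔
    (∃ k < G.length, l ∈ (if hvy G k then
      [Cl.hv k, Cl.st k false false, Cl.st k false true, Cl.st k true false, Cl.st k true true]
      else [Cl.lt k])) := by
  rw [CubNet_mem]
  constructor
  · rintro (h1 | ⟨v, _, r, _, h1⟩)
    · exact h1
    · have := (CubNet_lvl_key G v r l h1).2.2
      omega
  · exact Or.inl

theorem CubNet_mem2 (G : WG ℕ) (l : Cl) (h : CubNet_kg l = 1) : l ∈ labs2 G ↔
    (CubNet_kv l ∈ vs G ∧ CubNet_kr l < nn G (CubNet_kv l) / 2 ∧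
      l ∈ lvlLabs G (CubNet_kv l) (CubNet_kr l)) := by
  rw [CubNet_mem]
  constructor
  · rintro (⟨k, _, h1⟩ | ⟨v, hv, r, hr, h1⟩)
    · exfalso
      split at h1
      · simp only [List.mem_cons, List.not_mem_nil, or_false] at h1
        rcases h1 with rfl | rfl | rfl | rfl | rfl <;> simp [CubNet_kg] at h
      · simp only [List.mem_cons, List.not_mem_nil, or_false] at h1
        subst h1
        simp [CubNet_kg] at h
    · obtain ⟨e1, e2, _⟩ := CubNet_lvl_key G v r l h1
      rw [e1, e2]
      exact ⟨hv, hr, h1⟩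
  · rintro ⟨h1, h2, h3⟩
    exact Or.inr ⟨_, h1, _, h2, h3⟩

@[simp] theorem mem_lt2 (G : WG ℕ) (k : ℕ) :
    Cl.lt k ∈ labs2 G ↔ k < G.length ∧ hvy G k = false := by
  rw [CubNet_mem1 G _ rfl]
  constructor
  · rintro ⟨k', hk, h⟩
    split at h
    · simp at h
    · rename_i hh
      simp only [List.mem_cons, List.not_mem_nil, or_false, Cl.lt.injEq] at h
      subst h
      exact ⟨hk, by simpa using hh⟩
  · rintro ⟨h1, h2⟩
    exact ⟨k, h1, by simp [h2]⟩

@[simp] theorem mem_hv2 (G : WG ℕ) (k : ℕ) : Cl.hv k ∈ labs2 G ↔ hvy G k = true := by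
  rw [CubNet_mem1 G _ rfl]
  constructor
  · rintro ⟨k', hk, h⟩
    split at h
    · rename_i hh
      simp only [List.mem_cons, List.not_mem_nil, or_false, Cl.hv.injEq, reduceCtorEq] at h
      subst h
      exact hh
    · simp at h
  · intro h
    exact ⟨k, CubNet_lt_of_hvy G k h, by simp [h]⟩

@[simp] theorem mem_st2 (G : WG ℕ) (k : ℕ) (s c : Bool) :
    Cl.st k s c ∈ labs2 G ↔ hvy G k = true := by
  rw [CubNet_mem1 G _ rfl]
  constructor
  · rintro ⟨k', hk, h⟩
    split at h
    · rename_i hh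
      simp only [List.mem_cons, List.not_mem_nil, or_false, Cl.st.injEq, reduceCtorEq,
        false_or] at h
      have : k = k' := by tauto
      subst this
      exact hh
    · simp at h
  · intro h
    exact ⟨k, CubNet_lt_of_hvy G k h, by cases s <;> cases c <;> simp [h]⟩

@[simp] theorem mem_p2 (G : WG ℕ) (v r i : ℕ) (h : Bool) :
    Cl.p v r i h ∈ labs2 G ↔ v ∈ vs G ∧ 2 * r + 2 ≤ nn G v ∧ 2 * r + i < nn G v := by
  rw [CubNet_mem2 G _ rfl]
  simp only [CubNet_kv, CubNet_kr]
  cases h <;> simp [lvlLabs] <;> omega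

@[simp] theorem mem_q2 (G : WG ℕ) (v r i : ℕ) (h : Bool) :
    Cl.q v r i h ∈ labs2 G ↔ v ∈ vs G ∧ 1 ≤ i ∧ 2 * r + i < nn G v := by
  rw [CubNet_mem2 G _ rfl]
  simp only [CubNet_kv, CubNet_kr]
  cases h <;> simp [lvlLabs] <;> intro _ <;> constructor <;>
    first
      | (rintro ⟨h1, a, h2, rfl⟩; omega)
      | (rintro ⟨h1, h2⟩; exact ⟨by omega, i - 1, by omega, by omega⟩)

@[simp] theorem mem_c2 (G : WG ℕ) (v r i : ℕ) (j : Fin 8) :
    Cl.c v r i j ∈ labs2 G ↔ v ∈ vs G ∧ 1 ≤ i ∧ 2 * r + i + 2 ≤ nn G v := by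
  rw [CubNet_mem2 G _ rfl]
  simp only [CubNet_kv, CubNet_kr]
  simp [lvlLabs]
  intro _
  constructor
  · rintro ⟨h1, a, h2, rfl⟩; omega
  · rintro ⟨h1, h2⟩; exact ⟨by omega, i - 1, by omega, by omega⟩

@[simp] theorem mem_tail2 (G : WG ℕ) (v r : ℕ) :
    Cl.tail v r ∈ labs2 G ↔ v ∈ vs G ∧ 2 * r + 2 ≤ nn G v := by
  rw [CubNet_mem2 G _ rfl]
  simp only [CubNet_kv, CubNet_kr]
  simp [lvlLabs]
  intro _
  omega

@[simp] theorem mem_cap2 (G : WG ℕ) (v r : ℕ) :
    Cl.cap v r ∈ labs2 G ↔ v ∈ vs G ∧ 2 * r + 2 ≤ nn G v := by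
  rw [CubNet_mem2 G _ rfl]
  simp only [CubNet_kv, CubNet_kr]
  simp [lvlLabs]
  intro _
  omega

/-- The vertices that occur. -/
def Valid2 (G : WG ℕ) : Cx → Prop
  | .E k _ => hvy G k = true
  | .P v r i _ => v ∈ vs G ∧ 2 * r + 2 ≤ nn G v ∧ 2 * r + i < nn G v
  | .Q v r i _ => v ∈ vs G ∧ 1 ≤ i ∧ 2 * r + i < nn G v
  | .C v r i _ => v ∈ vs G ∧ 1 ≤ i ∧ 2 * r + i + 2 ≤ nn G v

/-- The outer edge at the first vertex of the wire `P v r i`. -/
def prevP (G : WG ℕ) (v r i : ℕ) : Cl :=
  if r = 0 then ((sl G v)[i]?).elim (Cl.lt 0)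
    (fun e => if hvy G e.1 then Cl.st e.1 e.2.1 e.2.2 else Cl.lt e.1)
  else Cl.c v (r - 1) (i + 1) 5

/-- The outer edge at the second vertex of the wire `P v r i`. -/
def nextP (G : WG ℕ) (v r i : ℕ) : Cl :=
  if i = 0 then Cl.cap v r else if i = nn G v - 2 * r - 1 then Cl.tail v r else Cl.c v r i 4

/-- The outer edge at the first vertex of the wire `Q v r i`. -/
def prevQ (G : WG ℕ) (v r i : ℕ) : Cl :=
  if i = nn G v - 2 * r - 1 then Cl.tail v r else Cl.c v r i 7

/-- The outer edge at the second vertex of the wire `Q v r i`. -/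
def nextQ (v r i : ℕ) : Cl := if i = 1 then Cl.cap v r else Cl.c v r (i - 1) 6

/-- The three edges at a vertex, the heavy one first. -/
def st3 (G : WG ℕ) : Cx → Cl × Cl × Cl
  | .E k s => (.hv k, .st k s false, .st k s true)
  | .P v r i false => (.p v r i true, .p v r i false, prevP G v r i)
  | .P v r i true => (.p v r i true, .p v r i false, nextP G v r i)
  | .Q v r i false => (.q v r i true, .q v r i false, prevQ G v r i)
  | .Q v r i true => (.q v r i true, .q v r i false, nextQ v r i)
  | .C v r i 0 => (.c v r i 0, .c v r i 2, .c v r i 4)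
  | .C v r i 1 => (.c v r i 0, .c v r i 3, .c v r i 5)
  | .C v r i 2 => (.c v r i 1, .c v r i 2, .c v r i 7)
  | .C v r i 3 => (.c v r i 1, .c v r i 3, .c v r i 6)

/-- What `st3` is supposed to be: three different edges, the first heavy, the other two light,
which are exactly the edges at `X`, each with one end. -/
def Star3 (G : WG ℕ) (X : Cx) (a b d : Cl) : Prop :=
  a ∈ labs2 G ∧ b ∈ labs2 G ∧ d ∈ labs2 G ∧ a ≠ b ∧ a ≠ d ∧ b ≠ d ∧
  (ep2 G a).2 = true ∧ (ep2 G b).2 = false ∧ (ep2 G d).2 = false ∧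
  ∀ l ∈ labs2 G, ends (ep2 G l) X =
    (if l = a then 1 else 0) + (if l = b then 1 else 0) + (if l = d then 1 else 0)

/-- The number of edge ends of colour `c` at `X`. -/
def cnt2 (G : WG ℕ) (col : Cl → Finset ℕ) (X : Cx) (c : ℕ) : ℕ :=
  ∑ l ∈ (labs2 G).toFinset, if c ∈ col l then ends (ep2 G l) X else 0

theorem cnt2_of_star {G : WG ℕ} {X : Cx} {a b d : Cl} (h : Star3 G X a b d)
    (col : Cl → Finset ℕ) (c : ℕ) :
    cnt2 G col X c =
      (if c ∈ col a then 1 else 0) + (if c ∈ col b then 1 else 0) + (if c ∈ col d then 1 else 0) := by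
  obtain ⟨ha, hb, hd, hab, had, hbd, _, _, _, h⟩ := h
  have key : cnt2 G col X c = ∑ l ∈ (labs2 G).toFinset,
      ((if l = a then (if c ∈ col a then 1 else 0) else 0) +
        (if l = b then (if c ∈ col b then 1 else 0) else 0) +
        (if l = d then (if c ∈ col d then 1 else 0) else 0)) := by
    unfold cnt2
    refine Finset.sum_congr rfl (fun l hl => ?_)
    rw [List.mem_toFinset] at hl
    rw [h l hl]
    by_cases h1 : l = a
    · subst h1
      simp [hab, had]
    · by_cases h2 : l = b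
      · subst h2
        simp [h1, hbd]
      · by_cases h3 : l = d
        · subst h3
          simp [h1, h2]
        · simp [h1, h2, h3]
  rw [key, Finset.sum_add_distrib, Finset.sum_add_distrib, Finset.sum_ite_eq', Finset.sum_ite_eq',
    Finset.sum_ite_eq']
  simp [ha, hb, hd]

end Pool.Agent.W_c81d44_h82
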