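import Pool.Agent.W_c81d44_h82.CubInst
import Pool.Agent.PolyTimeCL.CookLevin

/-!
# The cubic graph is computable in polynomial time
-/

set_option autoImplicit false

namespace Pool.Agent.W_c81d44_h82

open Pool.Agent.PolyTime

/-- The code of a vertex. -/
def Cx.toS : Cx → ℕ × ℕ × ℕ × ℕ × ℕ × Bool
  | .E k s => (0, k, 0, 0, 0, s)
  | .P v r i b => (1, v, r, i, 0, b)
  | .Q v r i b => (2, v, r, i, 0, b)
  | .C v r i m => (3, v, r, i, m.val, false)

theorem Cx.toS_inj {a b : Cx} (h : a.toS = b.toS) : a = b := by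
  cases a <;> cases b <;> simp only [Cx.toS, Prod.mk.injEq] at h <;>
    (obtain ⟨h0, h1, h2, h3, h4, h5⟩ := h
     first
     | (exact absurd h0 (by decide))
     | (subst h1 h5; rfl)
     | (subst h1 h2 h3 h5; rfl)
     | (subst h1 h2 h3; rw [Fin.ext h4]))

instance : TEnc Cx := ⟨fun c => TEnc.enc c.toS, fun _ _ h => Cx.toS_inj (TEnc.inj h)⟩

section

variable {α : Type*} [TEnc α]

@[fun_prop]
theorem pf_cE {k : α → ℕ} {s : α → Bool} (hk : PF k) (hs : PF s) : PF (fun a => Cx.E (k a) (s a)) :=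
  show PF (fun a => (Cx.E (k a) (s a)).toS) by simp only [Cx.toS]; fun_prop

@[fun_prop]
theorem pf_cP {v r i : α → ℕ} {b : α → Bool} (hv : PF v) (hr : PF r) (hi : PF i) (hb : PF b) :
    PF (fun a => Cx.P (v a) (r a) (i a) (b a)) :=
  show PF (fun a => (Cx.P (v a) (r a) (i a) (b a)).toS) by simp only [Cx.toS]; fun_prop

@[fun_prop]
theorem pf_cQ {v r i : α → ℕ} {b : α → Bool} (hv : PF v) (hr : PF r) (hi : PF i) (hb : PF b) :
    PF (fun a => Cx.Q (v a) (r a) (i a) (b a)) :=
  show PF (fun a => (Cx.Q (v a) (r a) (i a) (b a)).toS) by simp only [Cx.toS]; fun_prop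

@[fun_prop]
theorem pf_cC (m : Fin 4) {v r i : α → ℕ} (hv : PF v) (hr : PF r) (hi : PF i) :
    PF (fun a => Cx.C (v a) (r a) (i a) m) :=
  show PF (fun a => (Cx.C (v a) (r a) (i a) m).toS) by simp only [Cx.toS]; fun_prop

@[fun_prop]
theorem pf_own {G : α → WG ℕ} {k : α → ℕ} {s : α → Bool} (hG : PF G) (hk : PF k) (hs : PF s) :
    PF (fun a => own (G a) (k a) (s a)) := by
  refine PF.optionCases (o := fun a => (G a)[k a]?) (f := fun _ => 0)
    (g := fun a (e : (ℕ × ℕ) × Bool) => if s a = true then e.1.2 else e.1.1) (by fun_prop)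
    (by fun_prop) ?_ (fun a h => ?_) (fun a b h => ?_)
  · exact PF.ite (p := fun p : α × ((ℕ × ℕ) × Bool) => s p.1 = true)
      (PF.decide_bool (by fun_prop)) (by fun_prop) (by fun_prop)
  · simp [own, h]
  · simp [own, h]

@[fun_prop]
theorem pf_hvy {G : α → WG ℕ} {k : α → ℕ} (hG : PF G) (hk : PF k) :
    PF (fun a => hvy (G a) (k a)) := by
  refine PF.optionCases (o := fun a => (G a)[k a]?) (f := fun _ => false)
    (g := fun a (e : (ℕ × ℕ) × Bool) => e.2) (by fun_prop)
    (by fun_prop) (by fun_prop) (fun a h => ?_) (fun a b h => ?_)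
  · simp [hvy, h]
  · simp [hvy, h]

@[fun_prop]
theorem pf_sl {G : α → WG ℕ} {v : α → ℕ} (hG : PF G) (hv : PF v) : PF (fun a => sl (G a) (v a)) := by
  unfold sl
  refine PF.flatMap (f := fun a k => [false, true].flatMap (fun s =>
    if own (G a) k s = v a then
      (if hvy (G a) k then [(k, s, false), (k, s, true)] else [(k, s, false)]) else []))
    ?_ (by fun_prop)
  refine PF.constFlatMap _ (fun s => ?_)
  refine PF.ite (p := fun p : α × ℕ => own (G p.1) p.2 s = v p.1)
    (PF.eq (by fun_prop) (by fun_prop)) ?_ (by fun_prop)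
  exact PF.ite (p := fun p : α × ℕ => hvy (G p.1) p.2 = true)
    (PF.decide_bool (by fun_prop)) (by fun_prop) (by fun_prop)

@[fun_prop]
theorem pf_nn {G : α → WG ℕ} {v : α → ℕ} (hG : PF G) (hv : PF v) : PF (fun a => nn (G a) (v a)) := by
  unfold nn
  fun_prop

theorem idxOf_inst {β : Type*} (i1 i2 : BEq β) [h1 : @LawfulBEq β i1] [h2 : @LawfulBEq β i2] (a : β)
    (l : List β) : @List.idxOf β i1 a l = @List.idxOf β i2 a l := by
  have e : i1 = i2 := by
    rcases i1 with ⟨b1⟩
    rcases i2 with ⟨b2⟩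
    congr
    funext x y
    rw [Bool.eq_iff_iff]
    exact ⟨fun h => by
      have : x = y := @LawfulBEq.eq_of_beq β ⟨b1⟩ h1 x y h
      subst this
      exact @ReflBEq.rfl β ⟨b2⟩ _ x, fun h => by
      have : x = y := @LawfulBEq.eq_of_beq β ⟨b2⟩ h2 x y h
      subst this
      exact @ReflBEq.rfl β ⟨b1⟩ _ x⟩
  subst e
  rfl

@[fun_prop]
theorem pf_pos {G : α → WG ℕ} {k : α → ℕ} {s c : α → Bool} (hG : PF G) (hk : PF k) (hs : PF s)
    (hc : PF c) : PF (fun a => pos (G a) (k a) (s a) (c a)) := by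
  have e : ∀ a, pos (G a) (k a) (s a) (c a) =
      @List.idxOf _ instBEqOfDecidableEq (k a, s a, c a) (sl (G a) (own (G a) (k a) (s a))) :=
    fun a => by unfold pos; exact idxOf_inst _ _ _ _
  refine PF.congr ?_ (fun a => (e a).symm)
  exact PF.idxOf (by fun_prop) (by fun_prop)

@[fun_prop]
theorem pf_vs {G : α → WG ℕ} (hG : PF G) : PF (fun a => vs (G a)) := by
  unfold vs
  fun_prop

theorem half_eq (n : ℕ) :
    n / 2 = ((List.range n).filter (fun i => decide (2 * i + 2 ≤ n))).length := by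
  have h : ∀ m k : ℕ, ((List.range (m + k)).filter (fun i => decide (i < m))).length = m := by
    intro m k
    rw [List.range_add, List.filter_append, List.length_append]
    rw [List.filter_eq_self.2 (by simp), List.filter_eq_nil_iff.2 (by simp)]
    simp
  have h1 := h (n / 2) (n - n / 2)
  rw [show n / 2 + (n - n / 2) = n by omega] at h1
  conv_lhs => rw [← h1]
  congr 1
  apply List.filter_congr
  intro i hi
  congr 1
  exact propext (by omega)

@[fun_prop]
theorem pf_half {n : α → ℕ} (hn : PF n) : PF (fun a => n a / 2) := by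
  refine PF.congr ?_ (fun a => (half_eq (n a)).symm)
  refine PF.length (PF.filter (f := fun a i => decide (2 * i + 2 ≤ n a)) ?_ (by fun_prop))
  exact PF.le (by fun_prop) (by fun_prop)

theorem pf_ctbl (j : Fin 8) {v r i : α → ℕ} (hv : PF v) (hr : PF r) (hi : PF i) :
    PF (fun a => ctbl (v a) (r a) (i a) j) := by
  fin_cases j <;> simp only [ctbl] <;> fun_prop

theorem pf_ep2_lt {G : α → WG ℕ} {k : α → ℕ} (hG : PF G) (hk : PF k) :
    PF (fun a => ep2 (G a) (.lt (k a))) := by
  simp only [ep2]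
  fun_prop

theorem pf_ep2_hv {G : α → WG ℕ} {k : α → ℕ} (hk : PF k) :
    PF (fun a => ep2 (G a) (.hv (k a))) := by
  simp only [ep2]
  fun_prop

theorem pf_ep2_st (s c : Bool) {G : α → WG ℕ} {k : α → ℕ} (hG : PF G) (hk : PF k) :
    PF (fun a => ep2 (G a) (.st (k a) s c)) := by
  simp only [ep2]
  fun_prop

theorem pf_ep2_p (h : Bool) {G : α → WG ℕ} {v r i : α → ℕ} (hv : PF v) (hr : PF r) (hi : PF i) :
    PF (fun a => ep2 (G a) (.p (v a) (r a) (i a) h)) := by
  simp only [ep2]
  fun_prop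

theorem pf_ep2_q (h : Bool) {G : α → WG ℕ} {v r i : α → ℕ} (hv : PF v) (hr : PF r) (hi : PF i) :
    PF (fun a => ep2 (G a) (.q (v a) (r a) (i a) h)) := by
  simp only [ep2]
  fun_prop

theorem pf_ep2_tail {G : α → WG ℕ} {v r : α → ℕ} (hG : PF G) (hv : PF v) (hr : PF r) :
    PF (fun a => ep2 (G a) (.tail (v a) (r a))) := by
  simp only [ep2]
  fun_prop

theorem pf_ep2_cap {G : α → WG ℕ} {v r : α → ℕ} (hv : PF v) (hr : PF r) :
    PF (fun a => ep2 (G a) (.cap (v a) (r a))) := by
  simp only [ep2]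
  fun_prop

/-- The edges of level `r`. -/
theorem lvl_eq (G : WG ℕ) (v r : ℕ) : (lvlLabs G v r).map (ep2 G) =
    (List.range (nn G v - 2 * r)).flatMap (fun i => [ep2 G (.p v r i true), ep2 G (.p v r i false)])
    ++ (List.range (nn G v - 2 * r - 1)).flatMap
      (fun i => [ep2 G (.q v r (i + 1) true), ep2 G (.q v r (i + 1) false)]) ++
    (List.range (nn G v - 2 * r - 2)).flatMap
      (fun i => (List.finRange 8).map (fun j => ctbl v r (i + 1) j)) ++
    [ep2 G (.tail v r), ep2 G (.cap v r)] := by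
  unfold lvlLabs
  simp only [List.map_append, List.map_flatMap, List.map_map, List.map_cons, List.map_nil,
    Function.comp_def]
  rfl

theorem pf_lvl {G : α → WG ℕ} {v r : α → ℕ} (hG : PF G) (hv : PF v) (hr : PF r) :
    PF (fun a => (lvlLabs (G a) (v a) (r a)).map (ep2 (G a))) := by
  refine PF.congr ?_ (fun a => (lvl_eq (G a) (v a) (r a)).symm)
  have hv' : PF (fun p : α × ℕ => v p.1) := by fun_prop
  have hr' : PF (fun p : α × ℕ => r p.1) := by fun_prop
  refine PF.append (PF.append (PF.append ?_ ?_) ?_) ?_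
  · refine PF.flatMap (f := fun a i => [ep2 (G a) (.p (v a) (r a) i true),
      ep2 (G a) (.p (v a) (r a) i false)]) ?_ (by fun_prop)
    exact (pf_ep2_p _ hv' hr' PF.snd).cons ((pf_ep2_p _ hv' hr' PF.snd).cons (PF.const _))
  · refine PF.flatMap (f := fun a i => [ep2 (G a) (.q (v a) (r a) (i + 1) true),
      ep2 (G a) (.q (v a) (r a) (i + 1) false)]) ?_ (by fun_prop)
    have h1 : PF (fun p : α × ℕ => p.2 + 1) := by fun_prop
    exact (pf_ep2_q _ hv' hr' h1).cons ((pf_ep2_q _ hv' hr' h1).cons (PF.const _))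
  · refine PF.flatMap (f := fun a i => (List.finRange 8).map
      (fun j => ctbl (v a) (r a) (i + 1) j)) ?_ (by fun_prop)
    refine PF.constMap _ (fun j => ?_)
    exact pf_ctbl j (v := fun p : α × ℕ => v p.1) (r := fun p : α × ℕ => r p.1)
      (i := fun p : α × ℕ => p.2 + 1) hv' hr' (by fun_prop)
  · exact (pf_ep2_tail hG hv hr).cons ((pf_ep2_cap hv hr).cons (PF.const _))

theorem net2_eq (G : WG ℕ) : (labs2 G).map (ep2 G) =
    (List.range G.length).flatMap (fun k => if hvy G k = true then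
      [ep2 G (.hv k), ep2 G (.st k false false), ep2 G (.st k false true),
        ep2 G (.st k true false), ep2 G (.st k true true)] else [ep2 G (.lt k)]) ++
    (vs G).flatMap (fun v => (List.range (nn G v / 2)).flatMap
      (fun r => (lvlLabs G v r).map (ep2 G))) := by
  unfold labs2
  simp only [List.map_append, List.map_flatMap, apply_ite (List.map (ep2 G)), List.map_cons,
    List.map_nil]

theorem pf_net2 {G : α → WG ℕ} (hG : PF G) : PF (fun a => (labs2 (G a)).map (ep2 (G a))) := by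
  refine PF.congr ?_ (fun a => (net2_eq (G a)).symm)
  have hG' : PF (fun p : α × ℕ => G p.1) := by fun_prop
  refine PF.append ?_ ?_
  · refine PF.flatMap (f := fun a k => if hvy (G a) k = true then
      [ep2 (G a) (.hv k), ep2 (G a) (.st k false false), ep2 (G a) (.st k false true),
        ep2 (G a) (.st k true false), ep2 (G a) (.st k true true)] else [ep2 (G a) (.lt k)])
      ?_ (by fun_prop)
    refine PF.ite (p := fun p : α × ℕ => hvy (G p.1) p.2 = true)
      (PF.decide_bool (by fun_prop)) ?_ ((pf_ep2_lt hG' PF.snd).cons (PF.const _))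
    have h1 := fun s c => pf_ep2_st s c hG' PF.snd
    exact (pf_ep2_hv PF.snd).cons ((h1 _ _).cons ((h1 _ _).cons ((h1 _ _).cons
      ((h1 _ _).cons (PF.const _)))))
  · refine PF.flatMap (f := fun a v => (List.range (nn (G a) v / 2)).flatMap
      (fun r => (lvlLabs (G a) v r).map (ep2 (G a)))) ?_ (by fun_prop)
    refine PF.flatMap (f := fun (p : α × ℕ) r => (lvlLabs (G p.1) p.2 r).map (ep2 (G p.1))) ?_
      (by fun_prop)
    exact pf_lvl (G := fun p : (α × ℕ) × ℕ => G p.1.1) (v := fun p : (α × ℕ) × ℕ => p.1.2)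
      (r := fun p : (α × ℕ) × ℕ => p.2) (by fun_prop) (by fun_prop) (by fun_prop)

theorem pf_numb2 {G : α → WG Cx} (hG : PF G) : PF (fun x => numb2 (G x)) := by
  unfold numb2 WG.mapV
  have hn : PF (fun x => names2 (G x)) := by
    unfold names2
    fun_prop
  refine PF.map (f := fun x (e : (Cx × Cx) × Bool) =>
    (((names2 (G x)).idxOf e.1.1, (names2 (G x)).idxOf e.1.2), e.2)) ?_ hG
  have hn' : PF (fun p : α × ((Cx × Cx) × Bool) => names2 (G p.1)) :=
    hn.comp (f := fun p : α × ((Cx × Cx) × Bool) => p.1) PF.fst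
  exact ((PF.idxOf (by fun_prop) hn').pair (PF.idxOf (by fun_prop) hn')).pair (by fun_prop)

end

/-- The map `cub` is computable in polynomial time.

Proof.  Model: `Poly.lean` in this folder (`pf_inst`).  `own`, `hvy`, `sl`, `nn`, `pos`, `vs` are
compositions of `getElem?`, `filter`/`ite`, `flatMap`, `range`, `idxOf`, `length`, `dedup`.  Write
`(labs2 G).map (ep2 G)` as a concatenation of `flatMap`s of explicit lists of edges. -/
theorem pf_cub {α : Type*} [TEnc α] {F : α → WG ℕ} (hF : PF F) : PF (fun x => cub (F x)) :=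
  pf_numb2 (pf_net2 hF)

end Pool.Agent.W_c81d44_h82
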