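import Pool.Agent.W_c81d44_h82.CubStar2

/-!
# From a colouring of the cubic graph to a colouring of the original graph
-/

set_option autoImplicit false

namespace Pool.Agent.W_c81d44_h82

variable {G : WG ℕ}

/-- The vertex of `G` to which a vertex of the cubic graph belongs. -/
def home (G : WG ℕ) : Cx → ℕ
  | .E k s => own G k s
  | .P v _ _ _ => v
  | .Q v _ _ _ => v
  | .C v _ _ _ => v

/-- An edge of the cubic graph other than `lt k`, `hv k` has both ends at vertices with the same
home. -/
theorem home_inner {l : Cl} (hl : ∀ k, l ≠ .lt k ∧ l ≠ .hv k) :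
    home G (ep2 G l).1.1 = home G (ep2 G l).1.2 := by
  cases l with
  | lt k => exact absurd rfl (hl k).1
  | hv k => exact absurd rfl (hl k).2
  | st k s c => rfl
  | p v r i h => rfl
  | q v r i h => rfl
  | c v r i j => fin_cases j <;> rfl
  | tail v r => rfl
  | cap v r => rfl

/-- The ends of `lt k` and `hv k` are at home at the ends of `k`. -/
theorem home_outer (k : ℕ) :
    home G (ep2 G (.lt k)).1.1 = own G k false ∧ home G (ep2 G (.lt k)).1.2 = own G k true ∧
    home G (ep2 G (.hv k)).1.1 = own G k false ∧ home G (ep2 G (.hv k)).1.2 = own G k true :=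
  ⟨rfl, rfl, rfl, rfl⟩

/-- the outer edge of the edge `k` -/
def CubSound_f (G : WG ℕ) (k : ℕ) : Cl := if hvy G k then .hv k else .lt k

/-- number of ends at home `v` -/
def CubSound_h (G : WG ℕ) (v : ℕ) (l : Cl) : ℕ :=
  (if home G (ep2 G l).1.1 = v then 1 else 0) + (if home G (ep2 G l).1.2 = v then 1 else 0)

theorem CubSound_f_inj : Function.Injective (CubSound_f G) := by
  intro a b h
  unfold CubSound_f at h
  split_ifs at h <;> simpa using h

theorem CubSound_f_mem {k : ℕ} (hk : k < G.length) : CubSound_f G k ∈ labs2 G := by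
  unfold CubSound_f
  by_cases h : hvy G k = true
  · simp [h]
  · simp [h, hk]

theorem CubSound_f_h {k : ℕ} (hk : k < G.length) (v : ℕ) :
    CubSound_h G v (CubSound_f G k) = G.endsAt k v := by
  have h1 : CubSound_h G v (CubSound_f G k) =
      (if own G k false = v then 1 else 0) + (if own G k true = v then 1 else 0) := by
    unfold CubSound_h CubSound_f
    cases hvy G k <;> rfl
  rw [h1]
  unfold own WG.endsAt ends
  rw [List.getElem?_eq_getElem hk]
  simp

theorem CubSound_even {l : Cl} (hl : l ∈ labs2 G) (hf : ∀ k < G.length, l ≠ CubSound_f G k)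
    (v : ℕ) : Even (CubSound_h G v l) := by
  have h1 : ∀ k, l ≠ .lt k ∧ l ≠ .hv k := by
    intro k
    constructor
    · rintro rfl
      rw [mem_lt2] at hl
      exact hf k hl.1 (by simp [CubSound_f, hl.2])
    · rintro rfl
      rw [mem_hv2] at hl
      exact hf k (CubNet_lt_of_hvy G k hl) (by simp [CubSound_f, hl])
  unfold CubSound_h
  rw [home_inner h1]
  split_ifs
  · exact ⟨1, rfl⟩
  · exact ⟨0, rfl⟩

/-- If the cubic graph has a colouring so has `G`.

Proof.  Put `φ k = col (hv k)` if `k` is heavy and `col (lt k)` otherwise.  The cardinalities are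
right.  Fix `v` and a colour `c`.  Let `B` be the finite set of all ends `X` of edges
`ep2 G l`, `l ∈ labs2 G`, with `home G X = v`.  Then `∑_{X ∈ B} cnt2 G col X c` is even and equals
`∑_{l ∈ labs2 G, c ∈ col l} (number of ends X of l with home X = v)`.  For `l ≠ lt k, hv k` this
number is `0` or `2` (`home_inner`), for `l = lt k` (`k < G.length` light) and `l = hv k` (`k`
heavy) it is `G.endsAt k v` (`home_outer`).  So `par G φ v c` is even. -/
theorem sound2 {col : Cl → Finset ℕ}
    (hc : ∀ l ∈ labs2 G, (col l).card = if (ep2 G l).2 then 2 else 1)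
    (he : ∀ X c, Even (cnt2 G col X c)) : G.Col := by
  refine ⟨fun k => col (CubSound_f G k), ?_, ?_⟩
  · intro i hi
    show (col (CubSound_f G i)).card = G.weight i
    rw [hc _ (CubSound_f_mem hi)]
    unfold CubSound_f WG.weight hvy
    rw [List.getElem?_eq_getElem hi]
    simp only [Option.elim]
    by_cases h : (G[i]).2 = true <;> simp [h, ep2]
  · intro v c
    classical
    set L := (labs2 G).toFinset with hL
    set B := (L.image (fun l => (ep2 G l).1.1) ∪ L.image (fun l => (ep2 G l).1.2)).filter
      (fun X => home G X = v) with hB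
    have h1 : Even (∑ X ∈ B, cnt2 G col X c) := Finset.even_sum _ (fun X _ => he X c)
    have h2 : ∑ X ∈ B, cnt2 G col X c = ∑ l ∈ L, if c ∈ col l then CubSound_h G v l else 0 := by
      unfold cnt2
      rw [Finset.sum_comm]
      refine Finset.sum_congr rfl (fun l hl => ?_)
      by_cases hcl : c ∈ col l
      · simp only [hcl, if_true]
        unfold ends CubSound_h
        rw [Finset.sum_add_distrib, Finset.sum_ite_eq, Finset.sum_ite_eq]
        have m1 : (ep2 G l).1.1 ∈ B ↔ home G (ep2 G l).1.1 = v := by
          rw [hB, Finset.mem_filter]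
          refine ⟨fun h => h.2, fun h => ⟨?_, h⟩⟩
          exact Finset.mem_union_left _ (Finset.mem_image_of_mem _ hl)
        have m2 : (ep2 G l).1.2 ∈ B ↔ home G (ep2 G l).1.2 = v := by
          rw [hB, Finset.mem_filter]
          refine ⟨fun h => h.2, fun h => ⟨?_, h⟩⟩
          exact Finset.mem_union_right _ (Finset.mem_image_of_mem _ hl)
        simp only [m1, m2]
      · simp [hcl]
    set R := (Finset.range G.length).image (CubSound_f G) with hR
    have hRL : R ⊆ L := by
      intro l hl
      rw [hR, Finset.mem_image] at hl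
      obtain ⟨k, hk, rfl⟩ := hl
      rw [hL, List.mem_toFinset]
      exact CubSound_f_mem (Finset.mem_range.1 hk)
    have h3 : Even (∑ l ∈ L \ R, if c ∈ col l then CubSound_h G v l else 0) := by
      refine Finset.even_sum _ (fun l hl => ?_)
      rw [Finset.mem_sdiff] at hl
      split_ifs
      · refine CubSound_even (List.mem_toFinset.1 hl.1) (fun k hk e => hl.2 ?_) v
        rw [hR, Finset.mem_image]
        exact ⟨k, Finset.mem_range.2 hk, e.symm⟩
      · exact ⟨0, rfl⟩
    have h4 : ∑ l ∈ R, (if c ∈ col l then CubSound_h G v l else 0) =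
        G.par (fun k => col (CubSound_f G k)) v c := by
      rw [hR, Finset.sum_image (fun a _ b _ h => CubSound_f_inj h)]
      unfold WG.par
      refine Finset.sum_congr rfl (fun k hk => ?_)
      rw [CubSound_f_h (Finset.mem_range.1 hk)]
    rw [h2, ← Finset.sum_sdiff hRL, h4] at h1
    exact (Nat.even_add.1 h1).1 h3

end Pool.Agent.W_c81d44_h82
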