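import Pool.Agent.W_c81d44_h82.CubNet

/-!
# The edges at the vertices `E`, `Q`, `C` of the cubic graph
-/

set_option autoImplicit false

namespace Pool.Agent.W_c81d44_h82

variable {G : WG ℕ}

/-- The edges at `E k s` are `hv k` and the two strands `st k s c`. -/
theorem star_E {k : ℕ} {s : Bool} (hk : hvy G k = true) :
    Star3 G (.E k s) (.hv k) (.st k s false) (.st k s true) := by
  refine ⟨by simpa, by simpa, by simpa, by simp, by simp, by simp, rfl, rfl, rfl, ?_⟩
  intro l hl
  cases l with
  | lt k' => simp [ends, ep2]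
  | hv k' =>
    by_cases h : k' = k
    · subst h; cases s <;> simp [ends, ep2]
    · simp [ends, ep2, h]
  | st k' s' c' =>
    by_cases h : k' = k
    · subst h
      cases s <;> cases s' <;> cases c' <;> simp [ends, ep2]
    · simp [ends, ep2, h]
  | p v r i h => simp [ends, ep2]
  | q v r i h => simp [ends, ep2]
  | c v r i j => fin_cases j <;> simp [ends, ep2, ctbl]
  | tail v r => simp [ends, ep2]
  | cap v r => simp [ends, ep2]

/-- First vertex of a wire `Q v r i`: the two edges of the wire and `prevQ` (the tail if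
`i = nn G v - 2 * r - 1`, otherwise the output edge `7` of the comparator `(v, r, i)`). -/
theorem star_Q1 {v r i : ℕ} (hv : v ∈ vs G) (h1 : 1 ≤ i) (h2 : 2 * r + i < nn G v) :
    Star3 G (.Q v r i false) (.q v r i true) (.q v r i false) (prevQ G v r i) := by
  by_cases h3 : i = nn G v - 2 * r - 1
  · have hp : prevQ G v r i = Cl.tail v r := by simp [prevQ, h3]
    rw [hp]
    refine ⟨by simp [hv]; omega, by simp [hv]; omega, by simp [hv]; omega, by simp, by simp,
      by simp, rfl, rfl, rfl, ?_⟩
    intro l hl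
    cases l with
    | lt k' => simp [ends, ep2]
    | hv k' => simp [ends, ep2]
    | st k' s' c' => simp [ends, ep2]
    | p v' r' i' h => simp [ends, ep2]
    | q v' r' i' h =>
      by_cases h4 : v' = v ∧ r' = r ∧ i' = i
      · obtain ⟨rfl, rfl, rfl⟩ := h4
        cases h <;> simp [ends, ep2]
      · cases h <;> simp [ends, ep2, h4]
    | c v' r' i' j =>
      rw [mem_c2] at hl
      fin_cases j <;> simp [ends, ep2, ctbl]
      intro e1 e2 e3
      subst e1 e2 e3
      omega
    | tail v' r' =>
      by_cases h4 : v' = v ∧ r' = r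
      · obtain ⟨rfl, rfl⟩ := h4
        simp [ends, ep2, h3]
      · simp [ends, ep2, h4]
        tauto
    | cap v' r' => simp [ends, ep2]
  · have hp : prevQ G v r i = Cl.c v r i 7 := by simp [prevQ, h3]
    rw [hp]
    refine ⟨by simp [hv]; omega, by simp [hv]; omega, by simp [hv]; omega, by simp, by simp,
      by simp, rfl, rfl, rfl, ?_⟩
    intro l hl
    cases l with
    | lt k' => simp [ends, ep2]
    | hv k' => simp [ends, ep2]
    | st k' s' c' => simp [ends, ep2]
    | p v' r' i' h => simp [ends, ep2]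
    | q v' r' i' h =>
      by_cases h4 : v' = v ∧ r' = r ∧ i' = i
      · obtain ⟨rfl, rfl, rfl⟩ := h4
        cases h <;> simp [ends, ep2]
      · cases h <;> simp [ends, ep2, h4]
    | c v' r' i' j =>
      by_cases h4 : v' = v ∧ r' = r ∧ i' = i
      · obtain ⟨rfl, rfl, rfl⟩ := h4
        fin_cases j <;> simp [ends, ep2, ctbl]
      · fin_cases j <;> simp [ends, ep2, ctbl, h4]
    | tail v' r' =>
      simp only [ends, ep2]
      simp
      intro e1 e2 e3
      subst e1 e2
      omega
    | cap v' r' => simp [ends, ep2]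

/-- Second vertex of a wire `Q v r i`: the two edges of the wire and `nextQ` (the cap if `i = 1`,
otherwise the input edge `6` of the comparator `(v, r, i - 1)`). -/
theorem star_Q2 {v r i : ℕ} (hv : v ∈ vs G) (h1 : 1 ≤ i) (h2 : 2 * r + i < nn G v) :
    Star3 G (.Q v r i true) (.q v r i true) (.q v r i false) (nextQ v r i) := by
  by_cases h3 : i = 1
  · have hp : nextQ v r i = Cl.cap v r := by simp [nextQ, h3]
    rw [hp]
    refine ⟨by simp [hv]; omega, by simp [hv]; omega, by simp [hv]; omega, by simp, by simp,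
      by simp, rfl, rfl, rfl, ?_⟩
    intro l hl
    cases l with
    | lt k' => simp [ends, ep2]
    | hv k' => simp [ends, ep2]
    | st k' s' c' => simp [ends, ep2]
    | p v' r' i' h => simp [ends, ep2]
    | q v' r' i' h =>
      by_cases h4 : v' = v ∧ r' = r ∧ i' = i
      · obtain ⟨rfl, rfl, rfl⟩ := h4
        cases h <;> simp [ends, ep2]
      · cases h <;> simp [ends, ep2, h4]
    | c v' r' i' j =>
      rw [mem_c2] at hl
      fin_cases j <;> simp [ends, ep2, ctbl]
      intro e1 e2 e3
      subst e1 e2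
      omega
    | tail v' r' => simp [ends, ep2]
    | cap v' r' =>
      by_cases h4 : v' = v ∧ r' = r
      · obtain ⟨rfl, rfl⟩ := h4
        simp [ends, ep2, h3]
      · simp [ends, ep2, h4]
        tauto
  · have hp : nextQ v r i = Cl.c v r (i - 1) 6 := by simp [nextQ, h3]
    rw [hp]
    refine ⟨by simp [hv]; omega, by simp [hv]; omega, by simp [hv]; omega, by simp, by simp,
      by simp, rfl, rfl, rfl, ?_⟩
    intro l hl
    cases l with
    | lt k' => simp [ends, ep2]
    | hv k' => simp [ends, ep2]
    | st k' s' c' => simp [ends, ep2]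
    | p v' r' i' h => simp [ends, ep2]
    | q v' r' i' h =>
      by_cases h4 : v' = v ∧ r' = r ∧ i' = i
      · obtain ⟨rfl, rfl, rfl⟩ := h4
        cases h <;> simp [ends, ep2]
      · cases h <;> simp [ends, ep2, h4]
    | c v' r' i' j =>
      by_cases h4 : v' = v ∧ r' = r ∧ i' + 1 = i
      · obtain ⟨rfl, rfl, rfl⟩ := h4
        fin_cases j <;> simp [ends, ep2, ctbl]
      · have h5 : ¬ (v' = v ∧ r' = r ∧ i' = i - 1) := by
          rintro ⟨e1, e2, e3⟩
          exact h4 ⟨e1, e2, by omega⟩
        fin_cases j <;> simp [ends, ep2, ctbl, h4, h5]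
    | tail v' r' => simp [ends, ep2]
    | cap v' r' =>
      simp only [ends, ep2]
      simp
      intro e1 e2 e3
      omega

/-- The vertices of a comparator (read off from `ctbl`). -/
theorem star_C {v r i : ℕ} (hv : v ∈ vs G) (h1 : 1 ≤ i) (h2 : 2 * r + i + 2 ≤ nn G v)
    (m : Fin 4) :
    Star3 G (.C v r i m) (st3 G (.C v r i m)).1 (st3 G (.C v r i m)).2.1
      (st3 G (.C v r i m)).2.2 := by
  have key : ∀ j : Fin 8, Cl.c v r i j ∈ labs2 G := fun j => by
    rw [mem_c2]; exact ⟨hv, h1, h2⟩
  have main : (Star3 G (.C v r i 0) (.c v r i 0) (.c v r i 2) (.c v r i 4)) ∧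
      (Star3 G (.C v r i 1) (.c v r i 0) (.c v r i 3) (.c v r i 5)) ∧
      (Star3 G (.C v r i 2) (.c v r i 1) (.c v r i 2) (.c v r i 7)) ∧
      (Star3 G (.C v r i 3) (.c v r i 1) (.c v r i 3) (.c v r i 6)) := by
    refine ⟨?_, ?_, ?_, ?_⟩ <;>
    · refine ⟨key _, key _, key _, by simp, by simp, by simp, rfl, rfl, rfl, ?_⟩
      intro l hl
      cases l with
      | lt k' => simp [ends, ep2]
      | hv k' => simp [ends, ep2]
      | st k' s' c' => simp [ends, ep2]
      | p v' r' i' h => simp [ends, ep2]
      | q v' r' i' h => simp [ends, ep2]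
      | c v' r' i' j =>
        by_cases h4 : v' = v ∧ r' = r ∧ i' = i
        · obtain ⟨rfl, rfl, rfl⟩ := h4
          fin_cases j <;> simp [ends, ep2, ctbl]
        · fin_cases j <;> simp [ends, ep2, ctbl, h4]
      | tail v' r' => simp [ends, ep2]
      | cap v' r' => simp [ends, ep2]
  fin_cases m
  · exact main.1
  · exact main.2.1
  · exact main.2.2.1
  · exact main.2.2.2

end Pool.Agent.W_c81d44_h82
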