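import Mathlib

/-!
# Faithful circuit covers of graphs with edge weights 1 and 2: definitions
-/

set_option autoImplicit false

namespace Pool.Agent.W_c81d44_h82

/-- A finite multigraph with edge weights in `{1, 2}`, given as the list of its edges.  An edge is
a pair of ends (equal for a loop) together with a flag which is `true` iff the edge has weight
`2`.  Parallel edges are allowed.  (Isolated vertices play no role and are not listed.)  The edges
are `0, …, G.length - 1`. -/
abbrev WG (V : Type) := List ((V × V) × Bool)

variable {V : Type} [DecidableEq V]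

/-- The number of ends (`0`, `1`, or `2` for a loop) of an edge at the vertex `v`. -/
def ends (e : (V × V) × Bool) (v : V) : ℕ :=
  (if e.1.1 = v then 1 else 0) + (if e.1.2 = v then 1 else 0)

namespace WG

/-- The number of ends of the edge `i` at the vertex `v`. -/
def endsAt (G : WG V) (i : ℕ) (v : V) : ℕ := (G[i]?).elim 0 (fun e => ends e v)

/-- The weight of the edge `i`. -/
def weight (G : WG V) (i : ℕ) : ℕ := (G[i]?).elim 0 (fun e => if e.2 then 2 else 1)

/-- The degree of the vertex `v` in the subgraph with edge set `C`. -/
def deg (G : WG V) (C : Finset ℕ) (v : V) : ℕ := ∑ i ∈ C, G.endsAt i v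

/-- `C` is the edge set of a circuit: a connected 2-regular subgraph. -/
structure IsCircuit (G : WG V) (C : Finset ℕ) : Prop where
  edges : ∀ i ∈ C, i < G.length
  nonempty : C.Nonempty
  regular : ∀ v, G.deg C v = 0 ∨ G.deg C v = 2
  connected : ∀ A B : Finset ℕ, A ∪ B = C → Disjoint A B → A.Nonempty → B.Nonempty →
    ∃ v, G.deg A v ≠ 0 ∧ G.deg B v ≠ 0

/-- `(G, w)` has a faithful circuit cover: a family of circuits (repetitions allowed) such that
every edge lies in exactly as many members of the family as its weight says. -/
def HasFCC (G : WG V) : Prop :=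
  ∃ F : List (Finset ℕ), (∀ C ∈ F, G.IsCircuit C) ∧
    ∀ i < G.length, F.countP (fun C => decide (i ∈ C)) = G.weight i

/-- The edge `i` joins the vertex set `A` to its complement. -/
def Crosses (G : WG V) (A : Set V) (i : ℕ) : Prop :=
  ∃ e, G[i]? = some e ∧ ((e.1.1 ∈ A ∧ e.1.2 ∉ A) ∨ (e.1.1 ∉ A ∧ e.1.2 ∈ A))

/-- There is no cut-edge: no edge cut consists of exactly one edge. -/
def Bridgeless (G : WG V) : Prop :=
  ∀ (A : Set V) (i : ℕ), ¬ ∀ j, G.Crosses A j ↔ j = i

/-- The edges of weight `1` form an even subgraph. -/
def Eulerian (G : WG V) : Prop :=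
  ∀ v, Even (∑ i ∈ (Finset.range G.length).filter (fun i => G.weight i = 1), G.endsAt i v)

/-- The subgraph formed by the edges of weight `1` is connected or has no edges: if no edge of
weight `1` leaves the vertex set `A`, then all or none of the edges of weight `1` have their ends
in `A`. -/
def LightConnected (G : WG V) : Prop :=
  ∀ A : Set V, (∀ i, G.weight i = 1 → ¬ G.Crosses A i) →
    (∀ e ∈ G, e.2 = false → e.1.1 ∈ A) ∨ (∀ e ∈ G, e.2 = false → e.1.1 ∉ A)

/-- The edges `i` and `j` have a common end. -/
def Adjacent (G : WG V) (i j : ℕ) : Prop := ∃ v, G.endsAt i v ≠ 0 ∧ G.endsAt j v ≠ 0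

end WG

/-- The exchange property: whenever `i` and `j` are two adjacent edges of weight `2` and both
`G - i` and `G - j` have faithful circuit covers, `G` has one as well. -/
def Exchange : Prop :=
  ∀ (G : WG ℕ) (i j : ℕ), i ≠ j → G.weight i = 2 → G.weight j = 2 → G.Adjacent i j →
    WG.HasFCC (G.eraseIdx i) → WG.HasFCC (G.eraseIdx j) → G.HasFCC

/-- The strong cycle double cover conjecture (in a general form): every bridgeless graph with an
eulerian `(1,2)`-weight whose edges of weight `1` form a connected subgraph (for example a single
circuit) or have none at all has a faithful circuit cover. -/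
def StrongCDC : Prop :=
  ∀ G : WG ℕ, G.Bridgeless → G.Eulerian → G.LightConnected → G.HasFCC

end Pool.Agent.W_c81d44_h82
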