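import Pool.Agent.W_c81d44_h82.Erase
import Pool.Agent.W_c81d44_h82.Hand
import Pool.Agent.W_c81d44_h82.Circ2

/-!
# The OR gadget obtained from a violation of the exchange property
-/

set_option autoImplicit false

namespace Pool.Agent.W_c81d44_h82

open WG

/-- The data of an OR gadget: a graph `G` with two heavy edges `e true`, `e false`, both having the
end `h`; the other end of `e b` is `z b`. -/
structure Gad where
  G : WG ℕ
  e : Bool → ℕ
  h : ℕ
  z : Bool → ℕ

/-- `G` has no colouring, but if one of the two edges is deleted there is a colouring. -/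
structure Gad.OK (g : Gad) : Prop where
  ne : g.e true ≠ g.e false
  wt : ∀ b, g.G.weight (g.e b) = 2
  hz : ∀ b x, x ≠ g.h → g.G.endsAt (g.e b) x = if g.z b = x then 1 else 0
  st : ∀ b, ∃ α : ℕ → Finset ℕ, (∀ v c, Even (g.G.par α v c)) ∧ α (g.e b) = {1, 2} ∧
    α (g.e !b) = ∅ ∧
    ∀ k < g.G.length, k ≠ g.e b → k ≠ g.e !b → (α k).card = g.G.weight k
  no : ¬ g.G.Col

theorem Gad_get {G : WG ℕ} {i : ℕ} (h : G.weight i = 2) :
    ∃ x y : ℕ, G[i]? = some ((x, y), true) := by
  unfold WG.weight at h
  cases hi : G[i]? with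
  | none => rw [hi] at h; simp at h
  | some e =>
    rw [hi] at h
    obtain ⟨⟨x, y⟩, b⟩ := e
    cases b
    · simp at h
    · exact ⟨x, y, rfl⟩

theorem Gad_lt {G : WG ℕ} {i : ℕ} (h : G.weight i = 2) : i < G.length := by
  obtain ⟨x, y, hxy⟩ := Gad_get h
  by_contra hcon
  rw [List.getElem?_eq_none (by omega)] at hxy
  cases hxy

theorem Gad_z {G : WG ℕ} {i h : ℕ} (hw : G.weight i = 2) (hh : G.endsAt i h ≠ 0) :
    ∃ z : ℕ, ∀ x, x ≠ h → G.endsAt i x = if z = x then 1 else 0 := by
  obtain ⟨x, y, hxy⟩ := Gad_get hw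
  have he : ∀ v, G.endsAt i v = (if x = v then 1 else 0) + (if y = v then 1 else 0) := by
    intro v
    unfold WG.endsAt
    rw [hxy]
    rfl
  by_cases hx : x = h
  · refine ⟨y, fun v hv => ?_⟩
    rw [he, if_neg (fun h' => hv (h'.symm.trans hx)), zero_add]
  · have hy : y = h := by
      by_contra hy
      apply hh
      rw [he, if_neg hx, if_neg hy]
    refine ⟨x, fun v hv => ?_⟩
    rw [he, if_neg (fun h' : y = v => hv (h'.symm.trans hy)), add_zero]

theorem Gad_perm {p q : ℕ} (hpq : p ≠ q) : ∃ π : Equiv.Perm ℕ, π p = 1 ∧ π q = 2 := by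
  refine ⟨(Equiv.swap p 1).trans (Equiv.swap (Equiv.swap p 1 q) 2), ?_, ?_⟩
  · rw [Equiv.trans_apply, Equiv.swap_apply_left]
    apply Equiv.swap_apply_of_ne_of_ne
    · intro h
      apply hpq
      apply (Equiv.swap p 1).injective
      rw [Equiv.swap_apply_left]
      exact h
    · decide
  · rw [Equiv.trans_apply, Equiv.swap_apply_left]

theorem Gad_image {G : WG ℕ} (ψ : ℕ → Finset ℕ) (π : Equiv.Perm ℕ) (v c : ℕ) :
    G.par (fun k => (ψ k).image π) v c = G.par ψ v (π.symm c) := by
  unfold WG.par
  refine Finset.sum_congr rfl fun k _ => ?_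
  have h : c ∈ (ψ k).image π ↔ π.symm c ∈ ψ k := by
    rw [Finset.mem_image]
    constructor
    · rintro ⟨a, ha, rfl⟩
      rwa [Equiv.symm_apply_apply]
    · intro h
      exact ⟨_, h, Equiv.apply_symm_apply _ _⟩
  simp only [h]

theorem Gad_st {G : WG ℕ} {i j : ℕ} (hij : i ≠ j) (hi : G.weight i = 2) (hj : G.weight j = 2)
    (hc : WG.Col (G.eraseIdx j)) :
    ∃ α : ℕ → Finset ℕ, (∀ v c, Even (G.par α v c)) ∧ α i = {1, 2} ∧ α j = ∅ ∧
      ∀ k < G.length, k ≠ i → k ≠ j → (α k).card = G.weight k := by
  obtain ⟨ψ, hψ1, hψ2⟩ := hc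
  have hil := Gad_lt hi
  have hjl := Gad_lt hj
  have hlen : (G.eraseIdx j).length = G.length - 1 := List.length_eraseIdx_of_lt hjl
  -- cardinalities
  have hcard : ∀ k < G.length, k ≠ j → ∀ k', (k' = if k < j then k else k - 1) →
      (ψ k').card = G.weight k := by
    intro k hk hkj k' hk'
    have h1 : up j k' = k := by
      unfold up
      by_cases h : k < j
      · rw [if_pos h] at hk'
        subst hk'
        rw [if_pos h]
      · rw [if_neg h] at hk'
        rw [if_neg (by omega)]
        omega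
    have h2 : k' < (G.eraseIdx j).length := by
      rw [hlen]
      by_cases h : k < j
      · rw [if_pos h] at hk'
        omega
      · rw [if_neg h] at hk'
        omega
    rw [hψ1 k' h2, erase_weight, h1]
  obtain ⟨p, q, hpq, hpq2⟩ := Finset.card_eq_two.1 ((hcard i hil hij _ rfl).trans hi)
  obtain ⟨π, hπp, hπq⟩ := Gad_perm hpq
  refine ⟨ins j ∅ (fun k => (ψ k).image π), ?_, ?_, ?_, ?_⟩
  · intro v c
    rw [ins_par G j hjl, if_neg (Finset.notMem_empty c), add_zero, Gad_image]
    exact hψ2 v _
  · have h1 : ins j ∅ (fun k => (ψ k).image π) i =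
        (ψ (if i < j then i else i - 1)).image π := by
      unfold ins
      by_cases h : i < j
      · rw [if_pos h, if_pos h]
      · rw [if_neg h, if_neg hij, if_neg h]
    rw [h1, hpq2, Finset.image_insert, Finset.image_singleton, hπp, hπq]
  · unfold ins
    rw [if_neg (lt_irrefl j), if_pos rfl]
  · intro k hk _ hkj
    have h1 : ins j ∅ (fun k => (ψ k).image π) k =
        (ψ (if k < j then k else k - 1)).image π := by
      unfold ins
      by_cases h : k < j
      · rw [if_pos h, if_pos h]
      · rw [if_neg h, if_neg hkj, if_neg h]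
    rw [h1, Finset.card_image_of_injective _ π.injective]
    exact hcard k hk hkj _ rfl

/-- If the exchange property fails, there is an OR gadget.

Proof.  Let `G`, `i`, `j` violate the exchange property and let `h` be a common end.  Put
`e true = i`, `e false = j`, and let `z b` be the other end of the edge `e b` (if
`G[e b]? = some ((x, y), true)` then `z b = y` if `x = h` and `z b = x` otherwise, in which case
`y = h`).  `hz` is clear.  `st b`: by `hasFCC_iff_col` the graph `G.eraseIdx (e !b)` has a colouring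
`ψ`; let `k'` be the index with `up (e !b) k' = e b`.  `ψ k'` has two elements, so there is a
permutation `π` of `ℕ` mapping `ψ k'` onto `{1, 2}`.  `k ↦ (ψ k).image π` is again a colouring of
`G.eraseIdx (e !b)` (the number `par` for the colour `π c` is the old one for `c`).  Take
`α = ins (e !b) ∅ (fun k => (ψ k).image π)` and use `ins_par`.  `no`: `hasFCC_iff_col`. -/
theorem exists_gad (h : ¬ Exchange) : ∃ g : Gad, g.OK := by
  unfold Exchange at h
  push Not at h
  obtain ⟨G, i, j, hij, hi, hj, ⟨v, hvi, hvj⟩, h1, h2, h3⟩ := h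
  obtain ⟨zi, hzi⟩ := Gad_z hi hvi
  obtain ⟨zj, hzj⟩ := Gad_z hj hvj
  refine ⟨⟨G, fun b => if b then i else j, v, fun b => if b then zi else zj⟩, ?_, ?_, ?_, ?_, ?_⟩
  · simpa using hij
  · intro b
    cases b
    · simpa using hj
    · simpa using hi
  · intro b x hx
    cases b
    · simpa using hzj x hx
    · simpa using hzi x hx
  · intro b
    cases b
    · obtain ⟨α, ha, hb, hc, hd⟩ := Gad_st hij.symm hj hi ((hasFCC_iff_col _).1 h1)
      exact ⟨α, ha, by simpa using hb, by simpa using hc, by simpa using hd⟩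
    · obtain ⟨α, ha, hb, hc, hd⟩ := Gad_st hij hi hj ((hasFCC_iff_col _).1 h2)
      exact ⟨α, ha, by simpa using hb, by simpa using hc, by simpa using hd⟩
  · intro hc
    exact h3 ((hasFCC_iff_col _).2 hc)

end Pool.Agent.W_c81d44_h82
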