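import Pool.Agent.W_c81d44_h82.Sound
import Pool.Agent.W_c81d44_h82.Complete
import Pool.Agent.W_c81d44_h82.Valid
import Pool.Agent.PolyTimeCL.CookLevin

/-!
# The instance of the reduction
-/

set_option autoImplicit false

namespace Pool.Agent.W_c81d44_h82

open Pool.Agent.PolyTime

/-- The names of the vertices of a graph, with repetitions. -/
def names (G : WG Vx) : List Vx := G.map (fun e => e.1.1) ++ G.map (fun e => e.1.2)

/-- Number the vertices of a graph. -/
def numb (G : WG Vx) : WG ℕ := WG.mapV (fun v => (names G).idxOf v) G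

/-- Make all clauses nonempty: replace a clause `c` by the two clauses `c ∨ x₀` and `c ∨ ¬x₀`. -/
def prep (φ : CNF ℕ) : CNF ℕ := φ.flatMap (fun c => [c ++ [(0, true)], c ++ [(0, false)]])

theorem prep_sat (φ : CNF ℕ) : (prep φ).Sat ↔ φ.Sat := by
  constructor
  · rintro ⟨a, ha⟩
    refine ⟨a, fun c hc => ?_⟩
    have h1 : c ++ [(0, true)] ∈ prep φ := by
      unfold prep
      rw [List.mem_flatMap]
      exact ⟨c, hc, by simp⟩
    have h2 : c ++ [(0, false)] ∈ prep φ := by
      unfold prep
      rw [List.mem_flatMap]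
      exact ⟨c, hc, by simp⟩
    obtain ⟨l, hl, hal⟩ := ha _ h1
    obtain ⟨l', hl', hal'⟩ := ha _ h2
    rw [List.mem_append, List.mem_singleton] at hl hl'
    rcases hl with hl | hl
    · exact ⟨l, hl, hal⟩
    · rcases hl' with hl' | hl'
      · exact ⟨l', hl', hal'⟩
      · subst hl
        subst hl'
        simp only at hal hal'
        rw [hal] at hal'
        exact absurd hal' (by decide)
  · rintro ⟨a, ha⟩
    refine ⟨a, fun c hc => ?_⟩
    unfold prep at hc
    rw [List.mem_flatMap] at hc
    obtain ⟨c', hc', h⟩ := hc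
    obtain ⟨l, hl, hal⟩ := ha c' hc'
    simp only [List.mem_cons, List.not_mem_nil, or_false] at h
    rcases h with rfl | rfl
    · exact ⟨l, List.mem_append_left _ hl, hal⟩
    · exact ⟨l, List.mem_append_left _ hl, hal⟩

theorem prep_ne (φ : CNF ℕ) : ∀ c ∈ prep φ, c ≠ [] := by
  intro c hc
  unfold prep at hc
  rw [List.mem_flatMap] at hc
  obtain ⟨c', hc', h⟩ := hc
  simp only [List.mem_cons, List.not_mem_nil, or_false] at h
  rcases h with rfl | rfl
  · simp
  · simp

/-- The graph of the reduction for the formula `ψ` with `n` variables. -/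
def net (g : Gad) (ψ : CNF ℕ) (n : ℕ) : WG Vx := (labs g ψ n).map (ep g ψ)

/-- The instance for the formula `φ`. -/
def inst (g : Gad) (φ : CNF ℕ) : WG ℕ :=
  numb (net g (prep φ).toNat (prep φ).toNat.flatten.length)

/-- Variables of `φ.toNat` are smaller than the number of occurrences of literals. -/
theorem toNat_lt (φ : CNF ℕ) : ∀ r ∈ φ.toNat, ∀ l ∈ r, l.1 < φ.toNat.flatten.length := by
  intro r hr l hl
  have hlen : φ.toNat.flatten.length = φ.vars.length := by
    unfold CNF.toNat CNF.vars
    rw [← List.map_flatten, List.length_map, List.length_map]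
  rw [hlen]
  obtain ⟨c, hc, rfl⟩ := List.mem_map.1 hr
  obtain ⟨l', hl', rfl⟩ := List.mem_map.1 hl
  exact List.idxOf_lt_length_iff.2 (CNF.mem_vars hc hl')

theorem toNat_ne (φ : CNF ℕ) (h : ∀ c ∈ φ, c ≠ []) : ∀ c ∈ φ.toNat, c ≠ [] := by
  intro c hc
  obtain ⟨c', hc', rfl⟩ := List.mem_map.1 hc
  intro h'
  exact h c' hc' (List.map_eq_nil_iff.1 h')

/-- Numbering the vertices does not change evenness: `even_mapV`, the map `idxOf` is injective on
the members of the list `names G`. -/
theorem numb_even (G : WG Vx) (ψ : ℕ → Finset ℕ) :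
    (∀ w c, Even ((numb G).par ψ w c)) ↔ ∀ v c, Even (G.par ψ v c) := by
  refine WG.even_mapV _ G ?_ ψ
  have hmem : ∀ v, (∃ e ∈ G, v = e.1.1 ∨ v = e.1.2) → v ∈ names G := by
    rintro v ⟨e, he, h | h⟩
    · exact List.mem_append_left _ (List.mem_map.2 ⟨e, he, h.symm⟩)
    · exact List.mem_append_right _ (List.mem_map.2 ⟨e, he, h.symm⟩)
  intro v w hv hw h
  exact (List.idxOf_inj (hmem v hv)).1 h

theorem numb_col (G : WG Vx) : (numb G).Col ↔ G.Col := by
  constructor
  · rintro ⟨ψ, h1, h2⟩
    refine ⟨ψ, fun i hi => ?_, (numb_even G ψ).1 h2⟩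
    have h3 := h1 i (by unfold numb; rw [WG.length_mapV]; exact hi)
    unfold numb at h3
    rw [WG.weight_mapV] at h3
    exact h3
  · rintro ⟨ψ, h1, h2⟩
    refine ⟨ψ, fun i hi => ?_, (numb_even G ψ).2 h2⟩
    unfold numb at hi ⊢
    rw [WG.length_mapV] at hi
    rw [WG.weight_mapV]
    exact h1 i hi

theorem Inst_row_mem {ψ : CNF ℕ} {i : ℕ} (hi : i < ψ.length) : row ψ i ∈ ψ := by
  unfold row
  rw [List.getElem?_eq_getElem hi, Option.getD_some]
  exact List.getElem_mem hi

/-- The instance has a faithful circuit cover iff the formula is satisfiable.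

Proof.  `hasFCC_iff_col`, `numb_col`.  (→) `label_of_col` (with `nodup_labs`) gives a colouring by
names; `sound`; `CNF.toNat_sat`, `prep_sat`.  (←) a satisfying assignment of `(prep φ).toNat`,
`complete` (the exceptional case is impossible), `col_of_label`. -/
theorem inst_iff (g : Gad) (hg : g.OK) (φ : CNF ℕ) : (inst g φ).HasFCC ↔ φ.Sat := by
  rw [hasFCC_iff_col]
  unfold inst
  rw [numb_col, ← prep_sat φ, ← CNF.toNat_sat (prep φ)]
  constructor
  · intro h
    obtain ⟨col, h1, h2⟩ := label_of_col _ (nodup_labs g _ _) (ep g (prep φ).toNat) h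
    exact sound hg ⟨h1, h2⟩ (toNat_lt (prep φ))
  · rintro ⟨a, ha⟩
    obtain ⟨col, h1, h2⟩ := complete g (prep φ).toNat (prep φ).toNat.flatten.length hg
      (toNat_lt (prep φ)) a
    refine col_of_label _ (nodup_labs g _ _) (ep g (prep φ).toNat) col (fun l hl => ?_) h1
    rcases h2 l hl with h | ⟨_, _, i, hi, _, h⟩
    · exact h
    · obtain ⟨q, hq, haq⟩ := ha _ (Inst_row_mem hi)
      exact absurd haq (h q hq)

theorem Inst_even (g : Gad) (ψ : CNF ℕ) (n : ℕ) (col : Lab → Finset ℕ)
    (h : ∀ X c, Even (cnt g ψ n col X c)) :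
    ∀ w c, Even ((numb (net g ψ n)).par (fun k => ((labs g ψ n)[k]?).elim ∅ col) w c) := by
  rw [numb_even]
  intro v c
  unfold net
  rw [par_label _ (nodup_labs g ψ n)]
  exact h v c

theorem Inst_weight (g : Gad) (ψ : CNF ℕ) (n i : ℕ) :
    (numb (net g ψ n)).weight i =
      ((labs g ψ n)[i]?).elim 0 (fun l => if (ep g ψ l).2 then 2 else 1) := by
  unfold numb
  rw [WG.weight_mapV]
  unfold WG.weight net
  rw [List.getElem?_map]
  cases (labs g ψ n)[i]? with
  | none => rfl
  | some l => rfl

/-- The instance is always a bridgeless graph with an eulerian weight.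

Proof.  Let `ψ = (prep φ).toNat`, `n` as in `inst`.  For every assignment `a` take the colouring
from `complete` and the corresponding assignment of colours to positions
`k ↦ ((labs g ψ n)[k]?).elim ∅ col`; by `par_label` and `numb_even` it is even for `inst g φ`.
Eulerian: `eulerian_of_partial`.  Bridgeless: `bridgeless_of_partial`; for a position `k` with name
`l ≠ cl i 2` any `a` works (the set of colours of `l` is nonempty since its cardinality is `1` or
`2`), for `l = cl i 2` with `i < ψ.length` take an assignment making the first literal of the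
nonempty clause `i` true. -/
theorem inst_valid (g : Gad) (hg : g.OK) (φ : CNF ℕ) :
    (inst g φ).Bridgeless ∧ (inst g φ).Eulerian := by
  have hlt := toNat_lt (prep φ)
  have hne := toNat_ne (prep φ) (prep_ne φ)
  unfold inst
  set ψ : CNF ℕ := (prep φ).toNat with hψ
  set n : ℕ := ψ.flatten.length with hn
  constructor
  · refine bridgeless_of_partial _ fun k hk => ?_
    have hk' : k < (labs g ψ n).length := by
      unfold numb net at hk
      rw [WG.length_mapV, List.length_map] at hk
      exact hk
    have hkl : (labs g ψ n)[k]? = some ((labs g ψ n)[k]) := List.getElem?_eq_getElem hk'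
    have hmem : (labs g ψ n)[k] ∈ labs g ψ n := List.getElem_mem hk'
    -- the assignment
    have ha : ∃ a : ℕ → Bool, ∀ i < ψ.length, (labs g ψ n)[k] = Lab.cl i 2 →
        ∃ q ∈ row ψ i, a q.1 = q.2 := by
      by_cases h : ∃ i < ψ.length, (labs g ψ n)[k] = Lab.cl i 2
      · obtain ⟨i, hi, hl⟩ := h
        have h1 : row ψ i ≠ [] := hne _ (Inst_row_mem hi)
        obtain ⟨q, hq⟩ := List.exists_mem_of_ne_nil _ h1
        refine ⟨fun _ => q.2, fun i' _ hl' => ?_⟩
        rw [hl] at hl'
        have h2 : i = i' := by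
          simp only [Lab.cl.injEq] at hl'
          exact hl'.1
        subst h2
        exact ⟨q, hq, rfl⟩
      · exact ⟨fun _ => true, fun i hi hl => absurd ⟨i, hi, hl⟩ h⟩
    obtain ⟨a, ha⟩ := ha
    obtain ⟨col, h1, h2⟩ := complete g ψ n hg hlt a
    refine ⟨fun k => ((labs g ψ n)[k]?).elim ∅ col, Inst_even g ψ n col h1, ?_⟩
    show (((labs g ψ n)[k]?).elim ∅ col).Nonempty
    rw [hkl]
    show (col ((labs g ψ n)[k])).Nonempty
    rcases h2 _ hmem with h | ⟨_, _, i, hi, hl, h⟩
    · rw [← Finset.card_pos, h]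
      split_ifs <;> norm_num
    · obtain ⟨q, hq, haq⟩ := ha i hi hl
      exact absurd haq (h q hq)
  · obtain ⟨col, h1, h2⟩ := complete g ψ n hg hlt (fun _ => true)
    refine eulerian_of_partial _ (fun k => ((labs g ψ n)[k]?).elim ∅ col)
      (Inst_even g ψ n col h1) (fun i hi => ?_) (fun i hi => ?_)
    · rw [Inst_weight] at hi
      show (((labs g ψ n)[i]?).elim ∅ col).card = 1
      cases hl : (labs g ψ n)[i]? with
      | none =>
        rw [hl] at hi
        exact absurd hi (by simp)
      | some l =>
        rw [hl] at hi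
        have hi' : (if (ep g ψ l).2 = true then 2 else 1) = 1 := hi
        have hlm : l ∈ labs g ψ n := List.mem_of_getElem? hl
        show (col l).card = 1
        rcases h2 l hlm with h | ⟨_, h, _⟩
        · rw [h, hi']
        · rw [if_pos h] at hi'
          exact absurd hi' (by norm_num)
    · rw [Inst_weight] at hi
      show (((labs g ψ n)[i]?).elim ∅ col).card = 2 ∨ ((labs g ψ n)[i]?).elim ∅ col = ∅
      cases hl : (labs g ψ n)[i]? with
      | none =>
        right
        rfl
      | some l =>
        rw [hl] at hi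
        have hi' : (if (ep g ψ l).2 = true then 2 else 1) = 2 := hi
        have hlm : l ∈ labs g ψ n := List.mem_of_getElem? hl
        show (col l).card = 2 ∨ col l = ∅
        rcases h2 l hlm with h | ⟨h, _⟩
        · left
          rw [h, hi']
        · right
          exact h

end Pool.Agent.W_c81d44_h82
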