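import Mathlib

/-!
# The link: two copies of a piece of the Petersen graph in series
-/

set_option autoImplicit false

namespace Pool.Agent.W_c81d44_h82

/-- The 28 edges of the link.  The numbers `0, …, 15` are the inner vertices, the numbers
`16, …, 22` stand for attachment points outside: `16`, `17` the entrance, `18`, `19` the exit,
`20`, `21` the tap, `22` the hub.  The flag `true` marks the heavy edges. -/
def tbl : Fin 28 → ℕ × ℕ × Bool := ![
  (0, 1, true), (2, 3, true), (4, 5, true), (6, 7, true),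
  (0, 2, false), (2, 4, false), (1, 5, false), (3, 7, false), (5, 7, false),
  (8, 9, true), (10, 11, true), (12, 13, true), (14, 15, true),
  (8, 10, false), (10, 12, false), (9, 13, false), (11, 15, false), (13, 15, false),
  (16, 0, false), (17, 6, false), (1, 22, false), (3, 22, false),
  (4, 8, false), (6, 14, false),
  (9, 20, false), (11, 21, false), (12, 18, false), (14, 19, false)]

/-- The number of ends of the edge `k` of the link at the point `m`. -/
def tends (k : Fin 28) (m : ℕ) : ℕ :=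
  (if (tbl k).1 = m then 1 else 0) + (if (tbl k).2.1 = m then 1 else 0)

/-- One heavy edge: if the heavy edge with colour set `L` joins a vertex whose other two edges have
the colours `x`, `y` to a vertex whose other two edges have the colours `z`, `w`, then `x ≠ y`
and `{x, y} = {z, w}`.

Proof.  Evenness at the first vertex says `[c ∈ L] ≡ [c = x] + [c = y]` for all `c`, so `x ≠ y`
(otherwise `L = ∅`) and `L = {x, y}`. -/
theorem node {L : Finset ℕ} {x y z w : ℕ} (hL : L.card = 2)
    (h1 : ∀ c, Even ((if c ∈ L then 1 else 0) + (if c = x then 1 else 0) +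
      (if c = y then 1 else 0)))
    (h2 : ∀ c, Even ((if c ∈ L then 1 else 0) + (if c = z then 1 else 0) +
      (if c = w then 1 else 0))) :
    x ≠ y ∧ ((x = z ∧ y = w) ∨ (x = w ∧ y = z)) := by
  have key : ∀ u v : ℕ, (∀ c, Even ((if c ∈ L then 1 else 0) + (if c = u then 1 else 0) +
      (if c = v then 1 else 0))) → u ≠ v ∧ L = {u, v} := by
    intro u v h
    have huv : u ≠ v := by
      rintro rfl
      have hL0 : L = ∅ := by
        refine Finset.eq_empty_of_forall_notMem fun c hc => ?_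
        have := h c
        by_cases hcu : c = u
        · simp [hcu] at this
          rw [hcu] at hc
          simp [hc] at this
          exact absurd this (by decide)
        · simp [hc, hcu] at this
      rw [hL0] at hL
      simp at hL
    refine ⟨huv, ?_⟩
    ext c
    have := h c
    simp only [Finset.mem_insert, Finset.mem_singleton]
    by_cases hc : c ∈ L
    · simp only [hc, true_iff]
      by_contra hn
      push Not at hn
      simp [hc, hn.1, hn.2] at this
    · simp only [hc, false_iff]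
      intro hn
      rcases hn with rfl | rfl
      · simp [hc, huv] at this
      · simp [hc, huv.symm] at this
  obtain ⟨hxy, h3⟩ := key x y h1
  obtain ⟨hzw, h4⟩ := key z w h2
  refine ⟨hxy, ?_⟩
  rw [h3] at h4
  have hx : x ∈ ({z, w} : Finset ℕ) := by rw [← h4]; simp
  have hy : y ∈ ({z, w} : Finset ℕ) := by rw [← h4]; simp
  simp only [Finset.mem_insert, Finset.mem_singleton] at hx hy
  rcases hx with hx | hx <;> rcases hy with hy | hy
  · exact absurd (hx.trans hy.symm) hxy
  · exact Or.inl ⟨hx, hy⟩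
  · exact Or.inr ⟨hx, hy⟩
  · exact absurd (hx.trans hy.symm) hxy

/-- The Petersen piece: with four heavy edges `A(c,s|a,t)`, `B(s,r|b,q)`, `C(r,e|t,p)`,
`D(p,q|d,f)`, if `c = d` then `a = b` and `e = f`.  (16 cases; this is equivalent to the fact that
the Petersen graph with weight `2` on the spokes has no faithful circuit cover.) -/
theorem piece {c s a t r b q e p d f : ℕ}
    (hA : c ≠ s ∧ ((c = a ∧ s = t) ∨ (c = t ∧ s = a)))
    (hB : s ≠ r ∧ ((s = b ∧ r = q) ∨ (s = q ∧ r = b)))
    (hC : r ≠ e ∧ ((r = t ∧ e = p) ∨ (r = p ∧ e = t)))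
    (hD : p ≠ q ∧ ((p = d ∧ q = f) ∨ (p = f ∧ q = d))) (h : c = d) : a = b ∧ e = f := by
  rcases hA with ⟨h1, ⟨h2, h3⟩ | ⟨h2, h3⟩⟩ <;> rcases hB with ⟨h4, ⟨h5, h6⟩ | ⟨h5, h6⟩⟩ <;>
  rcases hC with ⟨h7, ⟨h8, h9⟩ | ⟨h8, h9⟩⟩ <;> rcases hD with ⟨h10, ⟨h11, h12⟩ | ⟨h11, h12⟩⟩ <;>
  omega

/-- Soundness of the link: if the two entrance edges `18`, `19` have the same colour, so have the
two exit edges `26`, `27` and the two tap edges `24`, `25`.

Proof.  All light edges have one colour (`Finset.card_eq_one`); write `x k` for the colour of the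
light edge `k`.  Evenness at the inner vertices and `node` give, for the heavy edges
`0 = A0 (0|1)`: strands `(18, 4 | 20, 6)`; `1 = B0 (2|3)`: `(4, 5 | 21, 7)`; `2 = C0 (4|5)`:
`(5, 22 | 6, 8)`; `3 = D0 (6|7)`: `(19, 23 | 7, 8)`, and for the second half `9 = A1 (8|9)`:
`(22, 13 | 24, 15)`; `10 = B1 (10|11)`: `(13, 14 | 25, 16)`; `11 = C1 (12|13)`:
`(14, 26 | 15, 17)`; `12 = D1 (14|15)`: `(23, 27 | 16, 17)`.
Apply `piece` with `c, s, a, t, r, b, q, e, p, d, f` the colours of the edges
`18, 4, 20, 6, 5, 21, 7, 22, 8, 19, 23`; it gives `x 22 = x 23`.  Then apply it with the edges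
`22, 13, 24, 15, 14, 25, 16, 26, 17, 23, 27`; it gives `x 24 = x 25` and `x 26 = x 27`.
(For the evenness conditions: the sum over `Fin 28` is a finite sum, `Fin.sum_univ_succ` and
`decide`/`simp [tends, tbl]` evaluate it; it has exactly three nonzero terms at every inner
vertex.) -/
theorem link_sound (g : Fin 28 → Finset ℕ)
    (hc : ∀ k, (g k).card = if (tbl k).2.2 then 2 else 1)
    (he : ∀ m < 16, ∀ c, Even (∑ k, if c ∈ g k then tends k m else 0))
    (h : g 18 = g 19) : g 26 = g 27 ∧ g 24 = g 25 := by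
  have hl : ∀ k, (tbl k).2.2 = false → ∃ x, g k = {x} := fun k hk => by
    have := hc k
    rw [hk] at this
    simpa [Finset.card_eq_one] using this
  obtain ⟨x4, e4⟩ := hl 4 rfl
  obtain ⟨x5, e5⟩ := hl 5 rfl
  obtain ⟨x6, e6⟩ := hl 6 rfl
  obtain ⟨x7, e7⟩ := hl 7 rfl
  obtain ⟨x8, e8⟩ := hl 8 rfl
  obtain ⟨x13, e13⟩ := hl 13 rfl
  obtain ⟨x14, e14⟩ := hl 14 rfl
  obtain ⟨x15, e15⟩ := hl 15 rfl
  obtain ⟨x16, e16⟩ := hl 16 rfl
  obtain ⟨x17, e17⟩ := hl 17 rfl
  obtain ⟨x18, e18⟩ := hl 18 rfl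
  obtain ⟨x19, e19⟩ := hl 19 rfl
  obtain ⟨x20, e20⟩ := hl 20 rfl
  obtain ⟨x21, e21⟩ := hl 21 rfl
  obtain ⟨x22, e22⟩ := hl 22 rfl
  obtain ⟨x23, e23⟩ := hl 23 rfl
  obtain ⟨x24, e24⟩ := hl 24 rfl
  obtain ⟨x25, e25⟩ := hl 25 rfl
  obtain ⟨x26, e26⟩ := hl 26 rfl
  obtain ⟨x27, e27⟩ := hl 27 rfl
  have ev : ∀ (m : ℕ), m < 16 → ∀ (a b c : Fin 28) (x y : ℕ), a ≠ b → a ≠ c → b ≠ c →
      (∀ k, tends k m = if k = a ∨ k = b ∨ k = c then 1 else 0) → g b = {x} → g c = {y} →
      ∀ w, Even ((if w ∈ g a then 1 else 0) + (if w = x then 1 else 0) +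
        (if w = y then 1 else 0)) := by
    intro m hm a b c x y hab hac hbc ht hb hcc w
    have h1 := he m hm w
    have h2 : (∑ k, if w ∈ g k then tends k m else 0) =
        (if w ∈ g a then 1 else 0) + (if w ∈ g b then 1 else 0) + (if w ∈ g c then 1 else 0) := by
      rw [← Finset.sum_subset (Finset.subset_univ ({a, b, c} : Finset (Fin 28)))]
      · rw [Finset.sum_insert (by simp [hab, hac]), Finset.sum_insert (by simp [hbc]),
          Finset.sum_singleton, ht a, ht b, ht c]
        simp [add_assoc]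
      · intro k _ hk
        simp only [Finset.mem_insert, Finset.mem_singleton] at hk
        rw [ht k, if_neg hk]
        simp
    rw [h2, hb, hcc] at h1
    simpa using h1
  have nd : ∀ (m m' : ℕ) (a b c b' c' : Fin 28) (x y z w : ℕ), m < 16 → m' < 16 →
      (tbl a).2.2 = true → a ≠ b → a ≠ c → b ≠ c → a ≠ b' → a ≠ c' → b' ≠ c' →
      (∀ k, tends k m = if k = a ∨ k = b ∨ k = c then 1 else 0) →
      (∀ k, tends k m' = if k = a ∨ k = b' ∨ k = c' then 1 else 0) →
      g b = {x} → g c = {y} → g b' = {z} → g c' = {w} →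
      x ≠ y ∧ ((x = z ∧ y = w) ∨ (x = w ∧ y = z)) := by
    intro m m' a b c b' c' x y z w hm hm' ha h1 h2 h3 h4 h5 h6 t1 t2 g1 g2 g3 g4
    refine node (L := g a) ?_ (ev m hm a b c x y h1 h2 h3 t1 g1 g2)
      (ev m' hm' a b' c' z w h4 h5 h6 t2 g3 g4)
    rw [hc a, ha]
    rfl
  have A0 := nd 0 1 0 18 4 20 6 x18 x4 x20 x6 (by decide) (by decide) rfl (by decide) (by decide)
    (by decide) (by decide) (by decide) (by decide) (by decide) (by decide) e18 e4 e20 e6
  have B0 := nd 2 3 1 4 5 21 7 x4 x5 x21 x7 (by decide) (by decide) rfl (by decide) (by decide)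
    (by decide) (by decide) (by decide) (by decide) (by decide) (by decide) e4 e5 e21 e7
  have C0 := nd 4 5 2 5 22 6 8 x5 x22 x6 x8 (by decide) (by decide) rfl (by decide) (by decide)
    (by decide) (by decide) (by decide) (by decide) (by decide) (by decide) e5 e22 e6 e8
  have D0 := nd 7 6 3 8 7 19 23 x8 x7 x19 x23 (by decide) (by decide) rfl (by decide) (by decide)
    (by decide) (by decide) (by decide) (by decide) (by decide) (by decide) e8 e7 e19 e23
  have A1 := nd 8 9 9 22 13 24 15 x22 x13 x24 x15 (by decide) (by decide) rfl (by decide)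
    (by decide) (by decide) (by decide) (by decide) (by decide) (by decide) (by decide)
    e22 e13 e24 e15
  have B1 := nd 10 11 10 13 14 25 16 x13 x14 x25 x16 (by decide) (by decide) rfl (by decide)
    (by decide) (by decide) (by decide) (by decide) (by decide) (by decide) (by decide)
    e13 e14 e25 e16
  have C1 := nd 12 13 11 14 26 15 17 x14 x26 x15 x17 (by decide) (by decide) rfl (by decide)
    (by decide) (by decide) (by decide) (by decide) (by decide) (by decide) (by decide)
    e14 e26 e15 e17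
  have D1 := nd 15 14 12 17 16 23 27 x17 x16 x23 x27 (by decide) (by decide) rfl (by decide)
    (by decide) (by decide) (by decide) (by decide) (by decide) (by decide) (by decide)
    e17 e16 e23 e27
  have h0 : x18 = x19 := by
    rw [e18, e19] at h
    simpa using h
  obtain ⟨-, h22⟩ := piece A0 B0 C0 D0 h0
  obtain ⟨h24, h26⟩ := piece A1 B1 C1 D1 h22
  rw [e26, e27, e24, e25, h24, h26]
  exact ⟨rfl, rfl⟩

/-- The colours of the 28 edges of the link in five states.  `on`: entrance and exit carry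
`(1, 1)` if `on = true` and `(1, 2)` if `on = false`.  Tap: `(3, 3)` for `0`, `(2, 2)` for `1`,
`(3, 2)` for `2` (only for `on = false`). -/
def lcol (on : Bool) (tap : Fin 3) : Fin 28 → Finset ℕ :=
  match on, tap with
  | true, 0 => ![{1, 2}, {1, 2}, {1, 2}, {1, 2}, {2}, {1}, {2}, {2}, {1},
      {2, 3}, {2, 3}, {1, 2}, {1, 2}, {3}, {2}, {2}, {2}, {1},
      {1}, {1}, {1}, {1}, {2}, {2}, {3}, {3}, {1}, {1}]
  | true, 1 => ![{1, 2}, {1, 2}, {1, 2}, {1, 2}, {2}, {1}, {2}, {2}, {1},
      {1, 2}, {1, 2}, {1, 2}, {1, 2}, {1}, {2}, {1}, {1}, {2},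
      {1}, {1}, {1}, {1}, {2}, {2}, {2}, {2}, {1}, {1}]
  | false, 0 => ![{1, 2}, {1, 2}, {1, 2}, {1, 2}, {2}, {1}, {2}, {2}, {1},
      {2, 3}, {2, 3}, {1, 2}, {1, 2}, {3}, {2}, {2}, {2}, {1},
      {1}, {2}, {1}, {1}, {2}, {1}, {3}, {3}, {1}, {2}]
  | false, 1 => ![{1, 2}, {1, 2}, {1, 2}, {1, 2}, {2}, {1}, {2}, {2}, {1},
      {1, 2}, {1, 2}, {1, 2}, {1, 2}, {1}, {2}, {1}, {1}, {2},
      {1}, {2}, {1}, {1}, {2}, {1}, {2}, {2}, {1}, {2}]
  | _, 2 => ![{1, 3}, {2, 3}, {1, 2}, {2, 3}, {3}, {2}, {1}, {3}, {2},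
      {1, 3}, {2, 3}, {1, 2}, {2, 3}, {3}, {2}, {1}, {3}, {2},
      {1}, {2}, {3}, {2}, {1}, {3}, {3}, {2}, {1}, {2}]

theorem lcol_card (on : Bool) (tap : Fin 3) (k : Fin 28) :
    (lcol on tap k).card = if (tbl k).2.2 then 2 else 1 := by
  revert on tap k
  decide

/-- Every colour is even at every inner vertex (only the colours `1, 2, 3` occur; finite check). -/
theorem lcol_even (on : Bool) (tap : Fin 3) (m : ℕ) (hm : m < 16) (c : ℕ) :
    Even (∑ k, if c ∈ lcol on tap k then tends k m else 0) := by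
  by_cases hc : c ∈ ({1, 2, 3} : Finset ℕ)
  · revert c
    revert m
    revert on tap
    decide +kernel
  · have h1 : ∀ (on : Bool) (tap : Fin 3) (k : Fin 28), lcol on tap k ⊆ {1, 2, 3} := by decide
    rw [Finset.sum_eq_zero]
    · simp
    · intro k _
      rw [if_neg]
      exact fun h => hc (h1 on tap k h)

theorem lcol_in (on : Bool) (tap : Fin 3) (h : on = true → tap ≠ 2) :
    lcol on tap 18 = {1} ∧ lcol on tap 26 = {1} ∧
    lcol on tap 19 = (if on then {1} else {2}) ∧ lcol on tap 27 = (if on then {1} else {2}) := by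
  revert on tap
  decide

theorem lcol_tap (on : Bool) (tap : Fin 3) :
    lcol on tap 24 = (if tap = 1 then {2} else {3}) ∧
    lcol on tap 25 = (if tap = 0 then {3} else {2}) := by
  revert on tap
  decide

end Pool.Agent.W_c81d44_h82
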