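import Pool.Agent.W_c81d44_h82.Gad
import Pool.Agent.W_c81d44_h82.Link

/-!
# The graph of the reduction

`φ` is a formula in conjunctive normal form with variables `< n`, `g` is an OR gadget.
-/

set_option autoImplicit false

namespace Pool.Agent.W_c81d44_h82

/-- The vertices: the hub, the vertices of the copies of the gadget, the chain vertices, the inner
vertices of the links, the slots and the tops of the clauses. -/
inductive Vx
  | hub
  | orv (v x : ℕ)
  | u (v : ℕ) (b : Bool) (i j : ℕ) (s : Bool)
  | prv (v : ℕ) (b : Bool) (i j m : ℕ)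
  | slot (i j : ℕ)
  | t (i : ℕ)
  deriving DecidableEq

/-- The names of the edges: edges of the copies of the gadget, first edges of the chains, last
edges of the chains, edges of the links, edges at the tops of the clauses. -/
inductive Lab
  | or (v k : ℕ)
  | src (v : ℕ) (b s : Bool)
  | fin (v : ℕ) (b s : Bool)
  | blk (v : ℕ) (b : Bool) (i j : ℕ) (k : Fin 28)
  | cl (i : ℕ) (k : Fin 3)
  deriving DecidableEq

/-- The `i`-th clause. -/
def row (φ : List (List (ℕ × Bool))) (i : ℕ) : List (ℕ × Bool) := (φ[i]?).getD []

/-- The position after `(i, j)` in a chain. -/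
def nx (φ : List (List (ℕ × Bool))) (i j : ℕ) : ℕ × ℕ :=
  if j < (row φ i).length then (i, j + 1) else (i + 1, 0)

/-- The vertex `x` of the copy number `v` of the gadget; the vertex `h` is the hub. -/
def ov (g : Gad) (v x : ℕ) : Vx := if x = g.h then Vx.hub else Vx.orv v x

/-- The point `d` of the link `(v, b, i, j)` (see `tbl`).  The tap is attached to the slots
`(i, j)` and `(i, j+1)` if the `j`-th literal of clause `i` is the negation of `(v, b)`, and to the
hub otherwise. -/
def port (φ : List (List (ℕ × Bool))) (v : ℕ) (b : Bool) (i j d : ℕ) : Vx :=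
  if d < 16 then Vx.prv v b i j d
  else if d = 16 then Vx.u v b i j false
  else if d = 17 then Vx.u v b i j true
  else if d = 18 then Vx.u v b (nx φ i j).1 (nx φ i j).2 false
  else if d = 19 then Vx.u v b (nx φ i j).1 (nx φ i j).2 true
  else if d = 20 ∧ (row φ i)[j]? = some (v, !b) then Vx.slot i j
  else if d = 21 ∧ (row φ i)[j]? = some (v, !b) then Vx.slot i (j + 1)
  else Vx.hub

/-- The edge with a given name. -/
def ep (g : Gad) (φ : List (List (ℕ × Bool))) : Lab → (Vx × Vx) × Bool
  | .or v k => (g.G[k]?).elim ((Vx.hub, Vx.hub), false) (fun e => ((ov g v e.1.1, ov g v e.1.2), e.2))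
  | .src v b s => ((ov g v (g.z b), Vx.u v b 0 0 s), false)
  | .fin v b s => ((Vx.u v b φ.length 0 s, Vx.hub), false)
  | .blk v b i j k => ((port φ v b i j (tbl k).1, port φ v b i j (tbl k).2.1), (tbl k).2.2)
  | .cl i k => if k = 0 then ((Vx.slot i 0, Vx.t i), false)
      else if k = 1 then ((Vx.slot i (row φ i).length, Vx.t i), false)
      else ((Vx.t i, Vx.hub), true)

/-- The list of all names. -/
def labs (g : Gad) (φ : List (List (ℕ × Bool))) (n : ℕ) : List Lab :=
  (List.range n).flatMap (fun v =>
    ((List.range g.G.length).filter (fun k => decide (k ≠ g.e true ∧ k ≠ g.e false))).map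
      (fun k => Lab.or v k)) ++
  (List.range n).flatMap (fun v => [Lab.src v true true, Lab.src v true false,
    Lab.src v false true, Lab.src v false false, Lab.fin v true true, Lab.fin v true false,
    Lab.fin v false true, Lab.fin v false false]) ++
  (List.range n).flatMap (fun v => [true, false].flatMap (fun b =>
    (List.range φ.length).flatMap (fun i =>
      (List.range ((row φ i).length + 1)).flatMap (fun j =>
        (List.finRange 28).map (fun k => Lab.blk v b i j k))))) ++
  (List.range φ.length).flatMap (fun i => [Lab.cl i 0, Lab.cl i 1, Lab.cl i 2])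

/-- The list has no repetitions. -/
theorem nodup_labs (g : Gad) (φ : List (List (ℕ × Bool))) (n : ℕ) : (labs g φ n).Nodup := by
  unfold labs
  refine List.Nodup.append (List.Nodup.append (List.Nodup.append ?_ ?_ ?_) ?_ ?_) ?_ ?_
  · refine List.nodup_flatMap.2 ⟨fun v _ => ?_, ?_⟩
    · exact (List.nodup_range.filter _).map (fun a b h => by simpa using h)
    · refine List.nodup_range.imp fun {a b} hab => ?_
      simp only [Function.onFun, List.disjoint_left, List.mem_map]
      rintro l ⟨k, _, rfl⟩ ⟨k', _, h⟩
      simp only [Lab.or.injEq] at h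
      exact hab h.1.symm
  · refine List.nodup_flatMap.2 ⟨fun v _ => ?_, ?_⟩
    · simp
    · refine List.nodup_range.imp fun {a b} hab => ?_
      simp only [Function.onFun, List.disjoint_left]
      intro l h1 h2
      simp only [List.mem_cons, List.not_mem_nil, or_false] at h1 h2
      rcases h1 with rfl | rfl | rfl | rfl | rfl | rfl | rfl | rfl <;> simp_all
  · simp only [List.disjoint_left, List.mem_flatMap, List.mem_map]
    rintro l ⟨v, _, k, _, rfl⟩ ⟨w, _, h⟩
    simp at h
  · refine List.nodup_flatMap.2 ⟨fun v _ => ?_, ?_⟩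
    · refine List.nodup_flatMap.2 ⟨fun b _ => ?_, ?_⟩
      · refine List.nodup_flatMap.2 ⟨fun i _ => ?_, ?_⟩
        · refine List.nodup_flatMap.2 ⟨fun j _ => ?_, ?_⟩
          · exact (List.nodup_finRange 28).map (fun a b h => by simpa using h)
          · refine List.nodup_range.imp fun {a b} hab => ?_
            simp only [Function.onFun, List.disjoint_left, List.mem_map]
            rintro l ⟨k, _, rfl⟩ ⟨k', _, h⟩
            simp only [Lab.blk.injEq] at h
            exact hab h.2.2.2.1.symm
        · refine List.nodup_range.imp fun {a b} hab => ?_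
          simp only [Function.onFun, List.disjoint_left, List.mem_map, List.mem_flatMap]
          rintro l ⟨j, _, k, _, rfl⟩ ⟨j', _, k', _, h⟩
          simp only [Lab.blk.injEq] at h
          exact hab h.2.2.1.symm
      · simp only [List.pairwise_cons, List.mem_cons, List.not_mem_nil, or_false, forall_eq,
          Function.onFun, List.disjoint_left, List.mem_map, List.mem_flatMap]
        refine ⟨?_, by simp, List.Pairwise.nil⟩
        rintro l ⟨i, _, j, _, k, _, rfl⟩ ⟨i', _, j', _, k', _, h⟩
        simp at h
    · refine List.nodup_range.imp fun {a b} hab => ?_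
      simp only [Function.onFun, List.disjoint_left, List.mem_map, List.mem_flatMap]
      rintro l ⟨c, _, i, _, j, _, k, _, rfl⟩ ⟨c', _, i', _, j', _, k', _, h⟩
      simp only [Lab.blk.injEq] at h
      exact hab h.1.symm
  · simp only [List.disjoint_left, List.mem_append, List.mem_flatMap, List.mem_map]
    rintro l (⟨v, _, k, _, rfl⟩ | ⟨v, _, h1⟩) ⟨w, _, b, _, i, _, j, _, k', _, h⟩
    · simp at h
    · subst h
      simp at h1
  · refine List.nodup_flatMap.2 ⟨fun v _ => ?_, ?_⟩
    · simp
    · refine List.nodup_range.imp fun {a b} hab => ?_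
      simp only [Function.onFun, List.disjoint_left]
      intro l h1 h2
      simp only [List.mem_cons, List.not_mem_nil, or_false] at h1 h2
      rcases h1 with rfl | rfl | rfl <;> simp_all
  · simp only [List.disjoint_left, List.mem_append, List.mem_flatMap, List.mem_map]
    rintro l ((⟨v, _, k, _, rfl⟩ | ⟨v, _, h1⟩) | ⟨w, _, b, _, i, _, j, _, k', _, rfl⟩) ⟨i', _, h2⟩
    · simp at h2
    · simp only [List.mem_cons, List.not_mem_nil, or_false] at h1 h2
      rcases h2 with rfl | rfl | rfl <;> simp at h1
    · simp at h2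

@[simp] theorem mem_or (g : Gad) (φ : List (List (ℕ × Bool))) (n v k : ℕ) :
    Lab.or v k ∈ labs g φ n ↔ v < n ∧ k < g.G.length ∧ k ≠ g.e true ∧ k ≠ g.e false := by
  simp [labs]

@[simp] theorem mem_src (g : Gad) (φ : List (List (ℕ × Bool))) (n v : ℕ) (b s : Bool) :
    Lab.src v b s ∈ labs g φ n ↔ v < n := by
  cases b <;> cases s <;> simp [labs]

@[simp] theorem mem_fin (g : Gad) (φ : List (List (ℕ × Bool))) (n v : ℕ) (b s : Bool) :
    Lab.fin v b s ∈ labs g φ n ↔ v < n := by
  cases b <;> cases s <;> simp [labs]

@[simp] theorem mem_blk (g : Gad) (φ : List (List (ℕ × Bool))) (n v : ℕ) (b : Bool) (i j : ℕ)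
    (k : Fin 28) :
    Lab.blk v b i j k ∈ labs g φ n ↔ v < n ∧ i < φ.length ∧ j ≤ (row φ i).length := by
  cases b <;> simp [labs]

@[simp] theorem mem_cl (g : Gad) (φ : List (List (ℕ × Bool))) (n i : ℕ) (k : Fin 3) :
    Lab.cl i k ∈ labs g φ n ↔ i < φ.length := by
  fin_cases k <;> simp [labs]

/-- The number of edge ends of colour `c` at the vertex `X`. -/
def cnt (g : Gad) (φ : List (List (ℕ × Bool))) (n : ℕ) (col : Lab → Finset ℕ) (X : Vx) (c : ℕ) :
    ℕ :=
  ∑ l ∈ (labs g φ n).toFinset, if c ∈ col l then ends (ep g φ l) X else 0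

/-- The name of the edge leaving the chain vertex `u v b i j s`. -/
def nextU (φ : List (List (ℕ × Bool))) (v : ℕ) (b : Bool) (i j : ℕ) (s : Bool) : Lab :=
  if i < φ.length then Lab.blk v b i j (if s then 19 else 18) else Lab.fin v b s

/-- The edge at the slot `(i, j)` coming from the left. -/
def prevS (φ : List (List (ℕ × Bool))) (i j : ℕ) : Lab :=
  if j = 0 then Lab.cl i 0
  else ((row φ i)[j - 1]?).elim (Lab.cl i 0) (fun l => Lab.blk l.1 (!l.2) i (j - 1) 25)

/-- The edge at the slot `(i, j)` going to the right. -/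
def nextS (φ : List (List (ℕ × Bool))) (i j : ℕ) : Lab :=
  ((row φ i)[j]?).elim (Lab.cl i 1) (fun l => Lab.blk l.1 (!l.2) i j 24)

end Pool.Agent.W_c81d44_h82
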