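import Pool.Agent.W_c81d44_h82.Inst

/-!
# The reduction is computable in polynomial time
-/

set_option autoImplicit false

namespace Pool.Agent.W_c81d44_h82

open Pool.Agent.PolyTime

/-- The code of a vertex. -/
def Vx.toS : Vx → ℕ × ℕ × Bool × ℕ × ℕ × ℕ × Bool
  | .hub => (0, 0, false, 0, 0, 0, false)
  | .orv v x => (1, v, false, x, 0, 0, false)
  | .u v b i j s => (2, v, b, i, j, 0, s)
  | .prv v b i j m => (3, v, b, i, j, m, false)
  | .slot i j => (4, 0, false, i, j, 0, false)
  | .t i => (5, 0, false, i, 0, 0, false)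

instance : TEnc Vx := ⟨fun a => TEnc.enc a.toS, fun a b h => by
  have h1 := TEnc.inj h
  cases a <;> cases b <;> simp_all [Vx.toS]⟩

section

variable {α : Type*} [TEnc α]

@[fun_prop]
theorem pf_orv {v x : α → ℕ} (hv : PF v) (hx : PF x) : PF (fun a => Vx.orv (v a) (x a)) :=
  show PF (fun a => (Vx.orv (v a) (x a)).toS) by simp only [Vx.toS]; fun_prop

@[fun_prop]
theorem pf_u {v : α → ℕ} {b : α → Bool} {i j : α → ℕ} {s : α → Bool} (hv : PF v) (hb : PF b)
    (hi : PF i) (hj : PF j) (hs : PF s) :
    PF (fun a => Vx.u (v a) (b a) (i a) (j a) (s a)) :=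
  show PF (fun a => (Vx.u (v a) (b a) (i a) (j a) (s a)).toS) by simp only [Vx.toS]; fun_prop

@[fun_prop]
theorem pf_prv {v : α → ℕ} {b : α → Bool} {i j m : α → ℕ} (hv : PF v) (hb : PF b)
    (hi : PF i) (hj : PF j) (hm : PF m) :
    PF (fun a => Vx.prv (v a) (b a) (i a) (j a) (m a)) :=
  show PF (fun a => (Vx.prv (v a) (b a) (i a) (j a) (m a)).toS) by simp only [Vx.toS]; fun_prop

@[fun_prop]
theorem pf_slot {i j : α → ℕ} (hi : PF i) (hj : PF j) : PF (fun a => Vx.slot (i a) (j a)) :=
  show PF (fun a => (Vx.slot (i a) (j a)).toS) by simp only [Vx.toS]; fun_prop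

@[fun_prop]
theorem pf_t {i : α → ℕ} (hi : PF i) : PF (fun a => Vx.t (i a)) :=
  show PF (fun a => (Vx.t (i a)).toS) by simp only [Vx.toS]; fun_prop

@[fun_prop]
theorem pf_row {f : α → CNF ℕ} {i : α → ℕ} (hf : PF f) (hi : PF i) :
    PF (fun x => row (f x) (i x)) := by
  unfold row
  fun_prop

@[fun_prop]
theorem pf_nx {f : α → CNF ℕ} {i j : α → ℕ} (hf : PF f) (hi : PF i) (hj : PF j) :
    PF (fun x => nx (f x) (i x) (j x)) := by
  unfold nx
  exact PF.ite (PF.lt (by fun_prop) (by fun_prop)) (by fun_prop) (by fun_prop)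

@[fun_prop]
theorem pf_ov (g : Gad) (x : ℕ) {v : α → ℕ} (hv : PF v) : PF (fun a => ov g (v a) x) := by
  unfold ov
  split_ifs
  · fun_prop
  · fun_prop

theorem pf_port (d : ℕ) {f : α → CNF ℕ} {v : α → ℕ} {b : α → Bool} {i j : α → ℕ} (hf : PF f)
    (hv : PF v) (hb : PF b) (hi : PF i) (hj : PF j) :
    PF (fun a => port (f a) (v a) (b a) (i a) (j a) d) := by
  have hc : PF (fun a => decide ((row (f a) (i a))[j a]? = some (v a, !(b a)))) :=
    PF.eq (by fun_prop) (by fun_prop)
  unfold port
  by_cases h1 : d < 16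
  · simp only [h1, if_true]
    fun_prop
  by_cases h2 : d = 16
  · subst h2
    simp only [Nat.lt_irrefl, if_false, if_true]
    fun_prop
  by_cases h3 : d = 17
  · subst h3
    simp only [show ¬ (17 < 16) by omega, show ¬ (17 = 16) by omega, if_false, if_true]
    fun_prop
  by_cases h4 : d = 18
  · subst h4
    simp only [show ¬ (18 < 16) by omega, show ¬ (18 = 16) by omega, show ¬ (18 = 17) by omega,
      if_false, if_true]
    fun_prop
  by_cases h5 : d = 19
  · subst h5
    simp only [show ¬ (19 < 16) by omega, show ¬ (19 = 16) by omega, show ¬ (19 = 17) by omega,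
      show ¬ (19 = 18) by omega, if_false, if_true]
    fun_prop
  simp only [h1, h2, h3, h4, h5, if_false]
  by_cases h6 : d = 20
  · subst h6
    simp only [true_and, show ¬ (20 = 21) by omega, false_and, if_false]
    exact PF.ite hc (by fun_prop) (by fun_prop)
  by_cases h7 : d = 21
  · subst h7
    simp only [true_and, show ¬ (21 = 20) by omega, false_and, if_false]
    exact PF.ite hc (by fun_prop) (by fun_prop)
  simp only [h6, h7, false_and, if_false]
  fun_prop

/-- The copies of the gadget. -/
theorem pf_ep_or (g : Gad) (k : ℕ) {f : α → CNF ℕ} {v : α → ℕ} (hv : PF v) :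
    PF (fun a => ep g (f a) (Lab.or (v a) k)) := by
  unfold ep
  rcases h : g.G[k]? with _ | e
  · simp only [h, Option.elim_none]
    fun_prop
  · simp only [h, Option.elim_some]
    fun_prop

theorem pf_ep_src (g : Gad) {f : α → CNF ℕ} (b s : Bool) {v : α → ℕ} (hv : PF v) :
    PF (fun a => ep g (f a) (Lab.src (v a) b s)) := by
  unfold ep
  fun_prop

theorem pf_ep_fin (g : Gad) {f : α → CNF ℕ} (b s : Bool) {v : α → ℕ} (hf : PF f) (hv : PF v) :
    PF (fun a => ep g (f a) (Lab.fin (v a) b s)) := by
  unfold ep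
  fun_prop

theorem pf_ep_blk (g : Gad) (k : Fin 28) {f : α → CNF ℕ} {v : α → ℕ} {b : α → Bool}
    {i j : α → ℕ} (hf : PF f) (hv : PF v) (hb : PF b) (hi : PF i) (hj : PF j) :
    PF (fun a => ep g (f a) (Lab.blk (v a) (b a) (i a) (j a) k)) := by
  unfold ep
  exact ((pf_port _ hf hv hb hi hj).pair (pf_port _ hf hv hb hi hj)).pair (PF.const _)

theorem pf_ep_cl (g : Gad) (k : Fin 3) {f : α → CNF ℕ} {i : α → ℕ} (hf : PF f) (hi : PF i) :
    PF (fun a => ep g (f a) (Lab.cl (i a) k)) := by
  unfold ep
  simp only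
  split_ifs <;> fun_prop

theorem net_eq (g : Gad) (ψ : CNF ℕ) (n : ℕ) : net g ψ n =
    (List.range n).flatMap (fun v =>
      ((List.range g.G.length).filter (fun k => decide (k ≠ g.e true ∧ k ≠ g.e false))).map
        (fun k => ep g ψ (Lab.or v k))) ++
    (List.range n).flatMap (fun v => [ep g ψ (Lab.src v true true), ep g ψ (Lab.src v true false),
      ep g ψ (Lab.src v false true), ep g ψ (Lab.src v false false), ep g ψ (Lab.fin v true true),
      ep g ψ (Lab.fin v true false), ep g ψ (Lab.fin v false true),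
      ep g ψ (Lab.fin v false false)]) ++
    (List.range n).flatMap (fun v => [true, false].flatMap (fun b =>
      (List.range ψ.length).flatMap (fun i =>
        (List.range ((row ψ i).length + 1)).flatMap (fun j =>
          (List.finRange 28).map (fun k => ep g ψ (Lab.blk v b i j k)))))) ++
    (List.range ψ.length).flatMap (fun i =>
      [ep g ψ (Lab.cl i 0), ep g ψ (Lab.cl i 1), ep g ψ (Lab.cl i 2)]) := by
  unfold net labs
  simp only [List.map_append, List.map_flatMap, List.map_map, List.map_cons, List.map_nil,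
    Function.comp_def]

theorem pf_net (g : Gad) {f : α → CNF ℕ} {n : α → ℕ} (hf : PF f) (hn : PF n) :
    PF (fun x => net g (f x) (n x)) := by
  refine PF.congr ?_ (fun x => (net_eq g (f x) (n x)).symm)
  refine PF.append (PF.append (PF.append ?_ ?_) ?_) ?_
  · refine PF.flatMap (f := fun x v => ((List.range g.G.length).filter
      (fun k => decide (k ≠ g.e true ∧ k ≠ g.e false))).map (fun k => ep g (f x) (Lab.or v k)))
      ?_ (by fun_prop)
    exact PF.constMap _ (fun k => pf_ep_or g k (f := fun p : α × ℕ => f p.1) PF.snd)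
  · refine PF.flatMap (f := fun x v => [ep g (f x) (Lab.src v true true),
      ep g (f x) (Lab.src v true false),
      ep g (f x) (Lab.src v false true), ep g (f x) (Lab.src v false false),
      ep g (f x) (Lab.fin v true true),
      ep g (f x) (Lab.fin v true false), ep g (f x) (Lab.fin v false true),
      ep g (f x) (Lab.fin v false false)]) ?_ (by fun_prop)
    have h1 := fun b s => pf_ep_src g (f := fun p : α × ℕ => f p.1) b s PF.snd
    have h2 := fun b s => pf_ep_fin g (f := fun p : α × ℕ => f p.1) b s (by fun_prop) PF.snd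
    exact (h1 _ _).cons ((h1 _ _).cons ((h1 _ _).cons ((h1 _ _).cons ((h2 _ _).cons
      ((h2 _ _).cons ((h2 _ _).cons ((h2 _ _).cons (PF.const _))))))))
  · refine PF.flatMap (f := fun x v => [true, false].flatMap (fun b =>
      (List.range (f x).length).flatMap (fun i =>
        (List.range ((row (f x) i).length + 1)).flatMap (fun j =>
          (List.finRange 28).map (fun k => ep g (f x) (Lab.blk v b i j k)))))) ?_ (by fun_prop)
    refine PF.constFlatMap _ (fun b => ?_)
    refine PF.flatMap (f := fun (p : α × ℕ) i =>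
        (List.range ((row (f p.1) i).length + 1)).flatMap (fun j =>
          (List.finRange 28).map (fun k => ep g (f p.1) (Lab.blk p.2 b i j k)))) ?_ (by fun_prop)
    refine PF.flatMap (f := fun (p : (α × ℕ) × ℕ) j =>
          (List.finRange 28).map (fun k => ep g (f p.1.1) (Lab.blk p.1.2 b p.2 j k))) ?_
          (by fun_prop)
    refine PF.constMap _ (fun k => ?_)
    exact pf_ep_blk g k (f := fun p : ((α × ℕ) × ℕ) × ℕ => f p.1.1.1) (by fun_prop)
      (by fun_prop) (by fun_prop) (by fun_prop) (by fun_prop)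
  · refine PF.flatMap (f := fun x i => [ep g (f x) (Lab.cl i 0), ep g (f x) (Lab.cl i 1),
      ep g (f x) (Lab.cl i 2)]) ?_ (by fun_prop)
    have h1 := fun k => pf_ep_cl g k (f := fun p : α × ℕ => f p.1) (by fun_prop) PF.snd
    exact (h1 _).cons ((h1 _).cons ((h1 _).cons (PF.const _)))

theorem pf_numb {G : α → WG Vx} (hG : PF G) : PF (fun x => numb (G x)) := by
  unfold numb WG.mapV
  have hn : PF (fun x => names (G x)) := by
    unfold names
    fun_prop
  refine PF.map (f := fun x (e : (Vx × Vx) × Bool) =>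
    (((names (G x)).idxOf e.1.1, (names (G x)).idxOf e.1.2), e.2)) ?_ hG
  have hn' : PF (fun p : α × ((Vx × Vx) × Bool) => names (G p.1)) :=
    hn.comp (f := fun p : α × ((Vx × Vx) × Bool) => p.1) PF.fst
  exact ((PF.idxOf (by fun_prop) hn').pair (PF.idxOf (by fun_prop) hn')).pair (by fun_prop)

theorem pf_prep {F : α → CNF ℕ} (hF : PF F) : PF (fun x => prep (F x)) := by
  unfold prep
  fun_prop

end

/-- The reduction is computable in polynomial time (for a fixed gadget `g`). -/
theorem pf_inst (g : Gad) {α : Type*} [TEnc α] {F : α → CNF ℕ} (hF : PF F) :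
    PF (fun x => inst g (F x)) := by
  unfold inst
  have h := (pf_prep hF).cnfToNat
  exact pf_numb (pf_net g h h.flatten.length)

end Pool.Agent.W_c81d44_h82
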