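import Pool.Agent.W_c81d44_h82.Star1
import Pool.Agent.W_c81d44_h82.Star2

/-!
# Soundness of the reduction
-/

set_option autoImplicit false

namespace Pool.Agent.W_c81d44_h82

/-- Two edges whose colours are even together have the same colours. -/
theorem eq_of_even_pair {A B : Finset ℕ}
    (h : ∀ c, Even ((if c ∈ A then 1 else 0) + (if c ∈ B then 1 else 0))) : A = B := by
  ext c
  have hc := h c
  by_cases h1 : c ∈ A <;> by_cases h2 : c ∈ B <;> simp [h1, h2] at hc ⊢

variable {g : Gad} {φ : List (List (ℕ × Bool))} {n : ℕ} {col : Lab → Finset ℕ}

/-- The hypothesis on `col` used below: it is a colouring of the graph of the reduction. -/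
structure IsCol (g : Gad) (φ : List (List (ℕ × Bool))) (n : ℕ) (col : Lab → Finset ℕ) : Prop where
  card : ∀ l ∈ labs g φ n, (col l).card = if (ep g φ l).2 then 2 else 1
  even : ∀ X c, Even (cnt g φ n col X c)

/-- A link transmits equality of colours.

Proof.  `link_sound` for `k ↦ col (Lab.blk v b i j k)`, with `IsCol.card` and `cnt_prv`. -/
theorem link_step (h : IsCol g φ n col) {v i j : ℕ} {b : Bool} (hv : v < n) (hi : i < φ.length)
    (hj : j ≤ (row φ i).length)
    (he : col (Lab.blk v b i j 18) = col (Lab.blk v b i j 19)) :
    col (Lab.blk v b i j 26) = col (Lab.blk v b i j 27) ∧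
      col (Lab.blk v b i j 24) = col (Lab.blk v b i j 25) := by
  refine link_sound (fun k => col (Lab.blk v b i j k)) ?_ ?_ he
  · intro k
    have := h.card (Lab.blk v b i j k) ((mem_blk g φ n v b i j k).2 ⟨hv, hi, hj⟩)
    exact this
  · intro m hm c
    have := h.even (Vx.prv v b i j m) c
    rw [cnt_prv g φ n col hv hi hj hm c] at this
    exact this

/-- If the two first edges of a chain have the same colour, then at all links of the chain the two
tap edges have the same colour.

Proof.  Show by induction along the chain (outer induction on `i`, inner induction on `j`) that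
`col (blk v b i j 18) = col (blk v b i j 19)` for all `i < φ.length`, `j ≤ (row φ i).length`.
At `(0, 0)`: `cnt_u0` and `eq_of_even_pair` give `col (src v b s) = col (nextU φ v b 0 0 s)` for both
`s`, where `nextU φ v b 0 0 s = blk v b 0 0 (19 or 18)`.  Step from `(i, j)` to `nx φ i j`:
`link_step` gives equality of the exits `26`, `27`, and `cnt_u` transports it to
`nextU φ v b (nx φ i j)`.  Finally use `link_step` for the tap. -/
theorem chain (h : IsCol g φ n col) {v : ℕ} {b : Bool} (hv : v < n)
    (he : col (Lab.src v b false) = col (Lab.src v b true)) :
    ∀ i < φ.length, ∀ j ≤ (row φ i).length,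
      col (Lab.blk v b i j 24) = col (Lab.blk v b i j 25) := by
  -- first chain vertex
  have hQ0 : col (nextU φ v b 0 0 false) = col (nextU φ v b 0 0 true) := by
    have h1 : ∀ s, col (Lab.src v b s) = col (nextU φ v b 0 0 s) := by
      intro s
      apply eq_of_even_pair
      intro c
      rw [← cnt_u0 g φ n col hv c]
      exact h.even _ c
    rw [← h1 false, ← h1 true]
    exact he
  have hst : ∀ i < φ.length, ∀ j ≤ (row φ i).length,
      col (nextU φ v b i j false) = col (nextU φ v b i j true) →
      col (nextU φ v b (nx φ i j).1 (nx φ i j).2 false) =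
        col (nextU φ v b (nx φ i j).1 (nx φ i j).2 true) := by
    intro i hi j hj hq
    have h2 : col (Lab.blk v b i j 18) = col (Lab.blk v b i j 19) := by
      unfold nextU at hq
      rw [if_pos hi, if_pos hi] at hq
      exact hq
    have h3 := (link_step h hv hi hj h2).1
    have h1 : ∀ s, col (Lab.blk v b i j (if s then 27 else 26)) =
        col (nextU φ v b (nx φ i j).1 (nx φ i j).2 s) := by
      intro s
      apply eq_of_even_pair
      intro c
      rw [← cnt_u g φ n col hv hi hj c]
      exact h.even _ c
    rw [← h1 false, ← h1 true]
    exact h3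
  have hin : ∀ i < φ.length, col (nextU φ v b i 0 false) = col (nextU φ v b i 0 true) →
      ∀ j ≤ (row φ i).length, col (nextU φ v b i j false) = col (nextU φ v b i j true) := by
    intro i hi hq j
    induction j with
    | zero => intro _; exact hq
    | succ j ih =>
      intro hj
      have h2 := hst i hi j (by omega) (ih (by omega))
      have h3 : nx φ i j = (i, j + 1) := by
        unfold nx
        rw [if_pos (by omega)]
      rw [h3] at h2
      exact h2
  have hout : ∀ i ≤ φ.length, col (nextU φ v b i 0 false) = col (nextU φ v b i 0 true) := by
    intro i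
    induction i with
    | zero => intro _; exact hQ0
    | succ i ih =>
      intro hi
      have h2 := hst i (by omega) (row φ i).length le_rfl
        (hin i (by omega) (ih (by omega)) _ le_rfl)
      have h3 : nx φ i (row φ i).length = (i + 1, 0) := by
        unfold nx
        rw [if_neg (by omega)]
      rw [h3] at h2
      exact h2
  intro i hi j hj
  have h2 := hin i hi (hout i hi.le) j hj
  unfold nextU at h2
  rw [if_pos hi, if_pos hi] at h2
  exact (link_step h hv hi hj h2).2

/-- The OR gadget: for every variable one of the two chains starts with two edges of the same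
colour.

Proof.  Suppose not.  Define `α k = col (or v k)` for `k ≠ e true, e false` and
`α (e b) = col (src v b false) ∪ col (src v b true)`; each of these two sets has one element and
they are different, so the union has two elements.  The cardinalities are right.  For `x ≠ h`,
`par G α x c` equals `cnt g φ n col (orv v x) c` by `cnt_orv` and `Gad.OK.hz`, so it is even; then
it is even for `x = h` as well (`even_of_others`).  So `g.G.Col`, contradicting `Gad.OK.no`. -/
theorem or_gadget (hg : g.OK) (h : IsCol g φ n col) {v : ℕ} (hv : v < n) :
    ∃ b, col (Lab.src v b false) = col (Lab.src v b true) := by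
  by_contra hcon
  push Not at hcon
  -- the two ports have different colours
  have hsrc : ∀ b s, (col (Lab.src v b s)).card = 1 := by
    intro b s
    have := h.card (Lab.src v b s) ((mem_src g φ n v b s).2 hv)
    exact this
  have hdis : ∀ b, Disjoint (col (Lab.src v b false)) (col (Lab.src v b true)) := by
    intro b
    obtain ⟨x, hx⟩ := Finset.card_eq_one.1 (hsrc b false)
    obtain ⟨y, hy⟩ := Finset.card_eq_one.1 (hsrc b true)
    have hb := hcon b
    rw [hx, hy] at hb ⊢
    rw [Finset.disjoint_singleton]
    intro hxy
    exact hb (by rw [hxy])
  have hlt : ∀ b, g.e b < g.G.length := by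
    intro b
    by_contra hb
    have := hg.wt b
    unfold WG.weight at this
    rw [List.getElem?_eq_none (by omega)] at this
    simp at this
  have hne : ∀ b, g.e b ≠ g.e (!b) := by
    intro b
    cases b
    · exact hg.ne.symm
    · exact hg.ne
  apply hg.no
  set α : ℕ → Finset ℕ := fun k =>
    if k = g.e true then col (Lab.src v true false) ∪ col (Lab.src v true true)
    else if k = g.e false then col (Lab.src v false false) ∪ col (Lab.src v false true)
    else col (Lab.or v k) with hα
  have hαe : ∀ b, α (g.e b) = col (Lab.src v b false) ∪ col (Lab.src v b true) := by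
    intro b
    cases b
    · rw [hα]
      simp only [if_neg hg.ne.symm, if_true]
    · rw [hα]
      simp only [if_true]
  have hαk : ∀ k, k ≠ g.e true → k ≠ g.e false → α k = col (Lab.or v k) := by
    intro k h1 h2
    rw [hα]
    simp only [if_neg h1, if_neg h2]
  refine ⟨α, ?_, ?_⟩
  · intro k hk
    have hcase : ∀ b, (α (g.e b)).card = g.G.weight (g.e b) := by
      intro b
      rw [hαe b, Finset.card_union_of_disjoint (hdis b), hsrc, hsrc, hg.wt b]
    by_cases h1 : k = g.e true
    · rw [h1]
      exact hcase true
    by_cases h2 : k = g.e false
    · rw [h2]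
      exact hcase false
    rw [hαk k h1 h2]
    have h3 := h.card (Lab.or v k) ((mem_or g φ n v k).2 ⟨hv, hk, h1, h2⟩)
    rw [h3]
    simp only [ep, WG.weight, List.getElem?_eq_getElem hk, Option.elim]
  · have hx : ∀ x c, x ≠ g.h → Even (g.G.par α x c) := by
      intro x c hx
      have h1 := h.even (Vx.orv v x) c
      rw [cnt_orv g φ n col hv hx c] at h1
      have h2 : g.G.par α x c =
          (∑ k ∈ (Finset.range g.G.length).filter (fun k => k ≠ g.e true ∧ k ≠ g.e false),
            if c ∈ col (Lab.or v k) then g.G.endsAt k x else 0) +
          ∑ b : Bool, ∑ s : Bool, if g.z b = x ∧ c ∈ col (Lab.src v b s) then 1 else 0 := by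
        unfold WG.par
        have h3 : Finset.range g.G.length =
            insert (g.e true) (insert (g.e false)
              ((Finset.range g.G.length).filter (fun k => k ≠ g.e true ∧ k ≠ g.e false))) := by
          ext k
          simp only [Finset.mem_insert, Finset.mem_filter, Finset.mem_range]
          constructor
          · intro hk
            by_cases h1 : k = g.e true
            · exact Or.inl h1
            by_cases h2 : k = g.e false
            · exact Or.inr (Or.inl h2)
            exact Or.inr (Or.inr ⟨hk, h1, h2⟩)
          · rintro (h1 | h1 | h1)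
            · rw [h1]; exact hlt true
            · rw [h1]; exact hlt false
            · exact h1.1
        rw [h3, Finset.sum_insert, Finset.sum_insert]
        · have h4 : ∀ b, (if c ∈ α (g.e b) then g.G.endsAt (g.e b) x else 0) =
              ∑ s : Bool, if g.z b = x ∧ c ∈ col (Lab.src v b s) then 1 else 0 := by
            intro b
            rw [hαe b, hg.hz b x hx, Fintype.sum_bool]
            have hd : c ∈ col (Lab.src v b false) → c ∉ col (Lab.src v b true) :=
              fun hA => Finset.disjoint_left.1 (hdis b) hA
            by_cases hz : g.z b = x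
            · by_cases hA : c ∈ col (Lab.src v b false)
              · have hB := hd hA
                simp [hz, hA, hB]
              · by_cases hB : c ∈ col (Lab.src v b true)
                · simp [hz, hA, hB]
                · simp [hz, hA, hB]
            · simp [hz]
          rw [h4 true, h4 false]
          have h5 : ∑ k ∈ (Finset.range g.G.length).filter (fun k => k ≠ g.e true ∧ k ≠ g.e false),
              (if c ∈ α k then g.G.endsAt k x else 0) =
              ∑ k ∈ (Finset.range g.G.length).filter (fun k => k ≠ g.e true ∧ k ≠ g.e false),
              (if c ∈ col (Lab.or v k) then g.G.endsAt k x else 0) := by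
            refine Finset.sum_congr rfl (fun k hk => ?_)
            rw [Finset.mem_filter] at hk
            rw [hαk k hk.2.1 hk.2.2]
          rw [← h3, h5]
          simp only [Fintype.sum_bool]
          ring
        · simp
        · simp only [Finset.mem_insert, Finset.mem_filter, not_or]
          exact ⟨hg.ne, fun hk => hk.2.1 rfl⟩
      rw [h2]
      exact h1
    intro x c
    by_cases hxh : x = g.h
    · rw [hxh]
      exact even_of_others g.G α c g.h (fun w hw => hx w c hw)
    · exact hx x c hxh

/-- In every clause some literal `(w, b)` has a negation whose chain does not start with two edges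
of the same colour.

Proof.  Otherwise, by `chain`, for every `j < k := (row φ i).length` and `(w, b) = (row φ i)[j]` the
tap edges `blk w (!b) i j 24` and `blk w (!b) i j 25` have the same colour.  By `cnt_slot` and
`eq_of_even_pair`, `col (prevS φ i j) = col (nextS φ i j)` for all `j ≤ k`.  Since
`prevS φ i 0 = cl i 0`, `nextS φ i j = blk w (!b) i j 24`, `prevS φ i (j+1) = blk w (!b) i j 25` and
`nextS φ i k = cl i 1`, induction gives `col (cl i 0) = col (cl i 1)`.  Then `cnt_t` shows that
`c ∈ col (cl i 2)` is false for all `c`, contradicting that `col (cl i 2)` has two elements. -/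
theorem clause (h : IsCol g φ n col) (hn : ∀ r ∈ φ, ∀ l ∈ r, l.1 < n) {i : ℕ}
    (hi : i < φ.length) :
    ∃ l ∈ row φ i, col (Lab.src l.1 (!l.2) false) ≠ col (Lab.src l.1 (!l.2) true) := by
  by_contra hcon
  push Not at hcon
  have hrow : row φ i ∈ φ := by
    unfold row
    rw [List.getElem?_eq_getElem hi]
    exact List.getElem_mem hi
  have hn' : ∀ l ∈ row φ i, l.1 < n := hn _ hrow
  -- the taps
  have htap : ∀ j, ∀ l, (row φ i)[j]? = some l →
      col (Lab.blk l.1 (!l.2) i j 24) = col (Lab.blk l.1 (!l.2) i j 25) := by
    intro j l hl
    have hlm : l ∈ row φ i := List.mem_of_getElem? hl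
    have hj : j < (row φ i).length := (List.getElem?_eq_some_iff.1 hl).1
    exact chain h (hn' l hlm) (hcon l hlm) i hi j hj.le
  -- the slots
  have hslot : ∀ j ≤ (row φ i).length, col (prevS φ i j) = col (nextS φ i j) := by
    intro j hj
    apply eq_of_even_pair
    intro c
    rw [← cnt_slot g φ n col hi hj hn' c]
    exact h.even _ c
  have hind : ∀ j ≤ (row φ i).length, col (Lab.cl i 0) = col (nextS φ i j) := by
    intro j
    induction j with
    | zero =>
      intro hj
      have h1 := hslot 0 hj
      unfold prevS at h1
      rw [if_pos rfl] at h1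
      exact h1
    | succ j ih =>
      intro hj
      have h1 := ih (by omega)
      have h2 := hslot (j + 1) hj
      have hjl : j < (row φ i).length := by omega
      have h3 : (row φ i)[j]? = some (row φ i)[j] := List.getElem?_eq_getElem hjl
      have h4 : nextS φ i j = Lab.blk (row φ i)[j].1 (!(row φ i)[j].2) i j 24 := by
        unfold nextS
        rw [h3]
        rfl
      have h5 : prevS φ i (j + 1) = Lab.blk (row φ i)[j].1 (!(row φ i)[j].2) i j 25 := by
        unfold prevS
        rw [if_neg (by omega), Nat.add_sub_cancel, h3]
        rfl
      rw [← h2, h1, h4, h5]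
      exact htap j _ h3
  have h01 : col (Lab.cl i 0) = col (Lab.cl i 1) := by
    have h1 := hind (row φ i).length le_rfl
    have h2 : nextS φ i (row φ i).length = Lab.cl i 1 := by
      unfold nextS
      rw [List.getElem?_eq_none (le_refl _)]
      rfl
    rw [h2] at h1
    exact h1
  have h2 : col (Lab.cl i 2) = ∅ := by
    rw [Finset.eq_empty_iff_forall_notMem]
    intro c hc
    have h3 := h.even (Vx.t i) c
    rw [cnt_t g φ n col hi c, if_pos hc, h01] at h3
    by_cases h4 : c ∈ col (Lab.cl i 1)
    · rw [if_pos h4] at h3
      revert h3
      decide
    · rw [if_neg h4] at h3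
      revert h3
      decide
  have h3 := h.card (Lab.cl i 2) ((mem_cl g φ n i 2).2 hi)
  rw [h2] at h3
  unfold ep at h3
  simp at h3

/-- Soundness: a colouring gives a satisfying assignment.

Proof.  Put `a v = true` iff `col (src v false false) ≠ col (src v false true)`.  In a clause take
the literal `l = (w, b)` from `clause`.  If `b = true` then `a w = true`.  If `b = false` then the
chain of `(w, true)` does not start with equal colours, so by `or_gadget` the chain of
`(w, false)` does, and `a w = false`. -/
theorem sound (hg : g.OK) (h : IsCol g φ n col) (hn : ∀ r ∈ φ, ∀ l ∈ r, l.1 < n) :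
    ∃ a : ℕ → Bool, ∀ r ∈ φ, ∃ l ∈ r, a l.1 = l.2 := by
  classical
  refine ⟨fun v => decide (col (Lab.src v false false) ≠ col (Lab.src v false true)), ?_⟩
  intro r hr
  obtain ⟨i, hi, hir⟩ := List.getElem_of_mem hr
  have hrow : row φ i = r := by
    unfold row
    rw [List.getElem?_eq_getElem hi, hir]
    rfl
  obtain ⟨l, hl, hne⟩ := clause h hn hi
  rw [hrow] at hl
  refine ⟨l, hl, ?_⟩
  obtain ⟨w, b⟩ := l
  cases b
  · have hw : w < n := hn r hr _ hl
    obtain ⟨b', hb'⟩ := or_gadget hg h hw
    cases b'
    · simp [hb']
    · exact absurd hb' hne
  · have hne' : col (Lab.src w false false) ≠ col (Lab.src w false true) := hne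
    simp [hne']

end Pool.Agent.W_c81d44_h82
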