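import Pool.Agent.W_c81d44_h82.Net

/-!
# The edges at the inner vertices of the links and at the chain vertices
-/

set_option autoImplicit false

namespace Pool.Agent.W_c81d44_h82

theorem Star1_port_u {φ : List (List (ℕ × Bool))} {v : ℕ} {b : Bool} {i j d v' : ℕ} {b' : Bool}
    {i' j' : ℕ} {s : Bool} (h : port φ v b i j d = Vx.u v' b' i' j' s) :
    (v = v' ∧ b = b') ∧ ((d = 16 ∧ s = false ∧ i = i' ∧ j = j') ∨
      (d = 17 ∧ s = true ∧ i = i' ∧ j = j') ∨
      (d = 18 ∧ s = false ∧ (nx φ i j).1 = i' ∧ (nx φ i j).2 = j') ∨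
      (d = 19 ∧ s = true ∧ (nx φ i j).1 = i' ∧ (nx φ i j).2 = j')) := by
  unfold port at h
  split_ifs at h with h1 h2 h3 h4 h5 h6 h7
  all_goals first
    | (injection h; done)
    | (injection h with e1 e2 e3 e4 e5
       subst e1; subst e2; subst e5
       refine ⟨⟨rfl, rfl⟩, ?_⟩
       simp_all)

theorem Star1_port_prv {φ : List (List (ℕ × Bool))} {v : ℕ} {b : Bool} {i j d v' : ℕ} {b' : Bool}
    {i' j' m : ℕ} (h : port φ v b i j d = Vx.prv v' b' i' j' m) :
    (v = v' ∧ b = b' ∧ i = i' ∧ j = j') ∧ d = m := by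
  unfold port at h
  split_ifs at h with h1 h2 h3 h4 h5 h6 h7
  injection h with e1 e2 e3 e4 e5
  exact ⟨⟨e1, e2, e3, e4⟩, e5⟩

theorem Star1_port_lt {φ : List (List (ℕ × Bool))} {v : ℕ} {b : Bool} {i j d : ℕ} (hd : d < 16) :
    port φ v b i j d = Vx.prv v b i j d := by
  unfold port
  rw [if_pos hd]

theorem Star1_ends {V : Type} [DecidableEq V] {e : (V × V) × Bool} {X : V} (h : ends e X ≠ 0) :
    e.1.1 = X ∨ e.1.2 = X := by
  unfold ends at h
  by_contra hcon
  push Not at hcon
  rw [if_neg hcon.1, if_neg hcon.2] at h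
  exact h rfl

theorem Star1_ov_u {g : Gad} {v x v' : ℕ} {b : Bool} {i j : ℕ} {s : Bool} :
    ov g v x ≠ Vx.u v' b i j s := by
  unfold ov
  split_ifs <;> simp

theorem Star1_ov_prv {g : Gad} {v x v' : ℕ} {b : Bool} {i j m : ℕ} :
    ov g v x ≠ Vx.prv v' b i j m := by
  unfold ov
  split_ifs <;> simp

theorem Star1_t1 : ∀ k : Fin 28, ((tbl k).1 = 16 → k = 18) ∧ ((tbl k).1 = 17 → k = 19) ∧
    (tbl k).1 ≠ 18 ∧ (tbl k).1 ≠ 19 ∧ (tbl k).2.1 ≠ 16 ∧ (tbl k).2.1 ≠ 17 ∧
    ((tbl k).2.1 = 18 → k = 26) ∧ ((tbl k).2.1 = 19 → k = 27) := by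
  decide

/-- the edges which end at chain vertices -/
theorem Star1_at_u {g : Gad} {φ : List (List (ℕ × Bool))} {l : Lab} {v : ℕ} {b : Bool} {I J : ℕ}
    {s : Bool} (h : ends (ep g φ l) (Vx.u v b I J s) ≠ 0) :
    (l = Lab.src v b s ∧ I = 0 ∧ J = 0) ∨ (l = Lab.fin v b s ∧ I = φ.length ∧ J = 0) ∨
    l = Lab.blk v b I J (if s then 19 else 18) ∨
    ∃ i j, l = Lab.blk v b i j (if s then 27 else 26) ∧ (nx φ i j).1 = I ∧ (nx φ i j).2 = J := by
  have h1 := Star1_ends h
  cases l with
  | or v' k =>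
    exfalso
    simp only [ep] at h1
    cases hk : g.G[k]? with
    | none => rw [hk] at h1; simp at h1
    | some e =>
      rw [hk] at h1
      rcases h1 with h1 | h1
      · exact Star1_ov_u h1
      · exact Star1_ov_u h1
  | src v' b' s' =>
    left
    rcases h1 with h1 | h1
    · exact absurd h1 Star1_ov_u
    · have h2 : Vx.u v' b' 0 0 s' = Vx.u v b I J s := h1
      injection h2 with e1 e2 e3 e4 e5
      subst e1; subst e2; subst e5
      exact ⟨rfl, e3.symm, e4.symm⟩
  | fin v' b' s' =>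
    right; left
    rcases h1 with h1 | h1
    · have h2 : Vx.u v' b' φ.length 0 s' = Vx.u v b I J s := h1
      injection h2 with e1 e2 e3 e4 e5
      subst e1; subst e2; subst e5
      exact ⟨rfl, e3.symm, e4.symm⟩
    · have h2 : Vx.hub = Vx.u v b I J s := h1
      cases h2
  | blk v' b' i j k =>
    right; right
    obtain ⟨t1, t2, t3, t4, t5, t6, t7, t8⟩ := Star1_t1 k
    rcases h1 with h1 | h1
    · have h2 : port φ v' b' i j (tbl k).1 = Vx.u v b I J s := h1
      obtain ⟨⟨rfl, rfl⟩, ⟨h3, rfl, rfl, rfl⟩ | ⟨h3, rfl, rfl, rfl⟩ | ⟨h3, _⟩ | ⟨h3, _⟩⟩ :=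
        Star1_port_u h2
      · left; rw [t1 h3]; rfl
      · left; rw [t2 h3]; rfl
      · exact absurd h3 t3
      · exact absurd h3 t4
    · have h2 : port φ v' b' i j (tbl k).2.1 = Vx.u v b I J s := h1
      obtain ⟨⟨rfl, rfl⟩, ⟨h3, _⟩ | ⟨h3, _⟩ | ⟨h3, rfl, h5, h6⟩ | ⟨h3, rfl, h5, h6⟩⟩ :=
        Star1_port_u h2
      · exact absurd h3 t5
      · exact absurd h3 t6
      · right; exact ⟨i, j, by rw [t7 h3]; rfl, h5, h6⟩
      · right; exact ⟨i, j, by rw [t8 h3]; rfl, h5, h6⟩
  | cl i k =>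
    exfalso
    simp only [ep] at h1
    split_ifs at h1 <;> simp at h1

theorem Star1_nx_ne {φ : List (List (ℕ × Bool))} {i j : ℕ} :
    ¬ ((nx φ i j).1 = 0 ∧ (nx φ i j).2 = 0) := by
  unfold nx
  split_ifs <;> simp

theorem Star1_nx_inj {φ : List (List (ℕ × Bool))} {i j i' j' : ℕ}
    (hj : j ≤ (row φ i).length) (hj' : j' ≤ (row φ i').length)
    (h1 : (nx φ i j).1 = (nx φ i' j').1) (h2 : (nx φ i j).2 = (nx φ i' j').2) :
    i = i' ∧ j = j' := by
  unfold nx at h1 h2
  by_cases h3 : j < (row φ i).length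
  · by_cases h4 : j' < (row φ i').length
    · rw [if_pos h3, if_pos h4] at h1 h2
      simp only at h1 h2
      exact ⟨h1, by omega⟩
    · rw [if_pos h3, if_neg h4] at h1 h2
      simp only at h1 h2
      omega
  · by_cases h4 : j' < (row φ i').length
    · rw [if_neg h3, if_pos h4] at h1 h2
      simp only at h1 h2
      omega
    · rw [if_neg h3, if_neg h4] at h1 h2
      simp only at h1 h2
      have h5 : i = i' := by omega
      subst h5
      exact ⟨rfl, by omega⟩

/-- the next position is the position of a link or the end of the chain -/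
theorem Star1_nx_pos {φ : List (List (ℕ × Bool))} {i j : ℕ} (hi : i < φ.length) :
    ((nx φ i j).1 < φ.length → (nx φ i j).2 ≤ (row φ (nx φ i j).1).length) ∧
    (¬ (nx φ i j).1 < φ.length → (nx φ i j).1 = φ.length ∧ (nx φ i j).2 = 0) := by
  unfold nx
  split_ifs with h3
  · refine ⟨fun _ => h3, fun h => absurd hi h⟩
  · refine ⟨fun _ => Nat.zero_le _, fun h => ⟨?_, rfl⟩⟩
    simp only at h
    simp only
    omega

theorem Star1_blk_u {g : Gad} {φ : List (List (ℕ × Bool))} {v : ℕ} {b : Bool} {i j : ℕ} {s : Bool} :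
    ends (ep g φ (Lab.blk v b i j (if s then 19 else 18))) (Vx.u v b i j s) = 1 := by
  cases s <;> simp [ep, ends, port, tbl]

theorem Star1_blk_u' {g : Gad} {φ : List (List (ℕ × Bool))} {v : ℕ} {b : Bool} {i j : ℕ}
    {s : Bool} :
    ends (ep g φ (Lab.blk v b i j (if s then 27 else 26)))
      (Vx.u v b (nx φ i j).1 (nx φ i j).2 s) = 1 := by
  cases s <;> simp [ep, ends, port, tbl]

theorem Star1_src_u {g : Gad} {φ : List (List (ℕ × Bool))} {v : ℕ} {b : Bool} {s : Bool} :
    ends (ep g φ (Lab.src v b s)) (Vx.u v b 0 0 s) = 1 := by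
  have h : ov g v (g.z b) ≠ Vx.u v b 0 0 s := Star1_ov_u
  simp [ep, ends, h]

theorem Star1_fin_u {g : Gad} {φ : List (List (ℕ × Bool))} {v : ℕ} {b : Bool} {s : Bool} :
    ends (ep g φ (Lab.fin v b s)) (Vx.u v b φ.length 0 s) = 1 := by
  simp [ep, ends]

theorem Star1_sum (g : Gad) (φ : List (List (ℕ × Bool))) (n : ℕ) (col : Lab → Finset ℕ)
    (X : Vx) (c : ℕ) (T : Finset Lab) (hT : ∀ l ∈ T, l ∈ labs g φ n)
    (h : ∀ l ∈ labs g φ n, ends (ep g φ l) X ≠ 0 → l ∈ T) :
    cnt g φ n col X c = ∑ l ∈ T, if c ∈ col l then ends (ep g φ l) X else 0 := by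
  unfold cnt
  symm
  apply Finset.sum_subset
  · intro l hl
    rw [List.mem_toFinset]
    exact hT l hl
  · intro l hl hlT
    rw [List.mem_toFinset] at hl
    by_cases h0 : ends (ep g φ l) X = 0
    · rw [h0]
      simp
    · exact absurd (h l hl h0) hlT

theorem Star1_pair (g : Gad) (φ : List (List (ℕ × Bool))) (n : ℕ) (col : Lab → Finset ℕ)
    (X : Vx) (c : ℕ) (l1 l2 : Lab) (hne : l1 ≠ l2) (h1 : l1 ∈ labs g φ n) (h2 : l2 ∈ labs g φ n)
    (e1 : ends (ep g φ l1) X = 1) (e2 : ends (ep g φ l2) X = 1)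
    (h : ∀ l ∈ labs g φ n, ends (ep g φ l) X ≠ 0 → l = l1 ∨ l = l2) :
    cnt g φ n col X c = (if c ∈ col l1 then 1 else 0) + (if c ∈ col l2 then 1 else 0) := by
  rw [Star1_sum g φ n col X c {l1, l2}]
  · rw [Finset.sum_pair hne, e1, e2]
  · intro l hl
    rw [Finset.mem_insert, Finset.mem_singleton] at hl
    rcases hl with rfl | rfl
    · exact h1
    · exact h2
  · intro l hl h0
    rw [Finset.mem_insert, Finset.mem_singleton]
    exact h l hl h0

variable (g : Gad) (φ : List (List (ℕ × Bool))) (n : ℕ) (col : Lab → Finset ℕ)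

/-- Inner vertices of a link.  Only edges of the same link end there: for a label `l` of another
kind or another link `ends (ep l) (prv v b i j m) = 0` (ports `≥ 16` are not of the form `prv`), and
for `l = blk v b i j k` the number is `tends k m`. -/
theorem cnt_prv {v i j m : ℕ} {b : Bool} (hv : v < n) (hi : i < φ.length)
    (hj : j ≤ (row φ i).length) (hm : m < 16) (c : ℕ) :
    cnt g φ n col (Vx.prv v b i j m) c =
      ∑ k, if c ∈ col (Lab.blk v b i j k) then tends k m else 0 := by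
  rw [Star1_sum g φ n col _ c (Finset.univ.image (fun k => Lab.blk v b i j k))]
  · rw [Finset.sum_image (fun k _ k' _ h => by injection h)]
    refine Finset.sum_congr rfl fun k _ => ?_
    have h1 : ∀ d, (port φ v b i j d = Vx.prv v b i j m) ↔ d = m := by
      intro d
      constructor
      · intro h
        exact (Star1_port_prv h).2
      · rintro rfl
        exact Star1_port_lt hm
    have h2 : ends (ep g φ (Lab.blk v b i j k)) (Vx.prv v b i j m) = tends k m := by
      unfold ends tends ep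
      simp only [h1]
    rw [h2]
  · intro l hl
    rw [Finset.mem_image] at hl
    obtain ⟨k, _, rfl⟩ := hl
    rw [mem_blk]
    exact ⟨hv, hi, hj⟩
  · intro l _ h
    have h1 := Star1_ends h
    rw [Finset.mem_image]
    cases l with
    | or v' k =>
      exfalso
      simp only [ep] at h1
      cases hk : g.G[k]? with
      | none => rw [hk] at h1; simp at h1
      | some e =>
        rw [hk] at h1
        rcases h1 with h1 | h1
        · exact Star1_ov_prv h1
        · exact Star1_ov_prv h1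
    | src v' b' s' =>
      exfalso
      rcases h1 with h1 | h1
      · exact Star1_ov_prv h1
      · have h2 : Vx.u v' b' 0 0 s' = Vx.prv v b i j m := h1
        cases h2
    | fin v' b' s' =>
      exfalso
      rcases h1 with h1 | h1
      · have h2 : Vx.u v' b' φ.length 0 s' = Vx.prv v b i j m := h1
        cases h2
      · have h2 : Vx.hub = Vx.prv v b i j m := h1
        cases h2
    | blk v' b' i' j' k =>
      refine ⟨k, Finset.mem_univ _, ?_⟩
      rcases h1 with h1 | h1
      · obtain ⟨⟨rfl, rfl, rfl, rfl⟩, _⟩ := Star1_port_prv h1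
        rfl
      · obtain ⟨⟨rfl, rfl, rfl, rfl⟩, _⟩ := Star1_port_prv h1
        rfl
    | cl i' k =>
      exfalso
      simp only [ep] at h1
      split_ifs at h1 <;> simp at h1

/-- The first chain vertex: the edges there are `src v b s` and `nextU φ v b 0 0 s` (no exit of a
link leads to position `(0, 0)`). -/
theorem cnt_u0 {v : ℕ} {b s : Bool} (hv : v < n) (c : ℕ) :
    cnt g φ n col (Vx.u v b 0 0 s) c =
      (if c ∈ col (Lab.src v b s) then 1 else 0) +
      (if c ∈ col (nextU φ v b 0 0 s) then 1 else 0) := by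
  by_cases hφ : 0 < φ.length
  · have hn : nextU φ v b 0 0 s = Lab.blk v b 0 0 (if s then 19 else 18) := by
      unfold nextU
      rw [if_pos hφ]
    rw [hn]
    apply Star1_pair g φ n col _ c _ _ (by simp) ((mem_src g φ n v b s).2 hv)
      ((mem_blk g φ n v b 0 0 _).2 ⟨hv, hφ, Nat.zero_le _⟩) Star1_src_u Star1_blk_u
    intro l _ h0
    rcases Star1_at_u h0 with ⟨h1, _⟩ | ⟨_, h1, _⟩ | h1 | ⟨i, j, _, h1, h2⟩
    · exact Or.inl h1
    · omega
    · exact Or.inr h1
    · exact absurd ⟨h1, h2⟩ Star1_nx_ne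
  · have hn : nextU φ v b 0 0 s = Lab.fin v b s := by
      unfold nextU
      rw [if_neg hφ]
    have h0 : φ.length = 0 := by omega
    have hf := Star1_fin_u (g := g) (φ := φ) (v := v) (b := b) (s := s)
    rw [h0] at hf
    rw [hn]
    apply Star1_pair g φ n col _ c _ _ (by simp) ((mem_src g φ n v b s).2 hv)
      ((mem_fin g φ n v b s).2 hv) Star1_src_u hf
    intro l hl h0
    rcases Star1_at_u h0 with ⟨h1, _⟩ | ⟨h1, _⟩ | h1 | ⟨i, j, _, h1, h2⟩
    · exact Or.inl h1
    · exact Or.inr h1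
    · rw [h1, mem_blk] at hl
      omega
    · exact absurd ⟨h1, h2⟩ Star1_nx_ne

/-- The other chain vertices: the edges there are the exit edge `26` or `27` of the link at
position `(i, j)` and the edge `nextU` at the next position `nx φ i j`.  (`nx φ` is injective on
the positions `(i, j)` with `i < φ.length`, `j ≤ (row φ i).length`; the next position is never
`(0, 0)`; it is either `(i, j+1)` with `j + 1 ≤ (row φ i).length` or `(i+1, 0)`, in the latter case
it is either a position of a link or `(φ.length, 0)`.) -/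
theorem cnt_u {v i j : ℕ} {b s : Bool} (hv : v < n) (hi : i < φ.length)
    (hj : j ≤ (row φ i).length) (c : ℕ) :
    cnt g φ n col (Vx.u v b (nx φ i j).1 (nx φ i j).2 s) c =
      (if c ∈ col (Lab.blk v b i j (if s then 27 else 26)) then 1 else 0) +
      (if c ∈ col (nextU φ v b (nx φ i j).1 (nx φ i j).2 s) then 1 else 0) := by
  obtain ⟨p1, p2⟩ := Star1_nx_pos (φ := φ) (i := i) (j := j) hi
  by_cases hφ : (nx φ i j).1 < φ.length
  · have hn : nextU φ v b (nx φ i j).1 (nx φ i j).2 s =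
        Lab.blk v b (nx φ i j).1 (nx φ i j).2 (if s then 19 else 18) := by
      unfold nextU
      rw [if_pos hφ]
    rw [hn]
    apply Star1_pair g φ n col _ c _ _ (by
        intro h
        injection h with _ _ _ _ h5
        cases s <;> simp at h5) ((mem_blk g φ n v b i j _).2 ⟨hv, hi, hj⟩)
      ((mem_blk g φ n v b _ _ _).2 ⟨hv, hφ, p1 hφ⟩) Star1_blk_u' Star1_blk_u
    intro l hl h0
    rcases Star1_at_u h0 with ⟨_, h1, h2⟩ | ⟨_, h1, _⟩ | h1 | ⟨i', j', h3, h1, h2⟩
    · exact absurd ⟨h1, h2⟩ Star1_nx_ne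
    · omega
    · exact Or.inr h1
    · left
      rw [h3, mem_blk] at hl
      obtain ⟨rfl, rfl⟩ := Star1_nx_inj hl.2.2 hj h1 h2
      exact h3
  · have hn : nextU φ v b (nx φ i j).1 (nx φ i j).2 s = Lab.fin v b s := by
      unfold nextU
      rw [if_neg hφ]
    obtain ⟨q1, q2⟩ := p2 hφ
    have hf := Star1_fin_u (g := g) (φ := φ) (v := v) (b := b) (s := s)
    have hf' : ends (ep g φ (Lab.fin v b s)) (Vx.u v b (nx φ i j).1 (nx φ i j).2 s) = 1 := by
      rw [q1, q2]
      exact hf
    rw [hn]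
    apply Star1_pair g φ n col _ c _ _ (by simp) ((mem_blk g φ n v b i j _).2 ⟨hv, hi, hj⟩)
      ((mem_fin g φ n v b s).2 hv) Star1_blk_u' hf'
    intro l hl h0
    rcases Star1_at_u h0 with ⟨_, h1, h2⟩ | ⟨h1, _⟩ | h1 | ⟨i', j', h3, h1, h2⟩
    · exact absurd ⟨h1, h2⟩ Star1_nx_ne
    · exact Or.inr h1
    · rw [h1, mem_blk] at hl
      omega
    · left
      rw [h3, mem_blk] at hl
      obtain ⟨rfl, rfl⟩ := Star1_nx_inj hl.2.2 hj h1 h2
      exact h3

end Pool.Agent.W_c81d44_h82
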